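import Pool.Agent.W192.AW.Frac

open Complex Filter Topology Set MeasureTheory

namespace Pool.Agent.W192.AW

theorem sum_le_inj {ι κ : Type*} (s : Finset ι) (t : Finset κ) (f : ι → κ)
    (hf : ∀ i ∈ s, f i ∈ t) (hinj : Set.InjOn f s) (a : ι → ℝ) (b : κ → ℝ)
    (hb : ∀ k ∈ t, 0 ≤ b k) (hab : ∀ i ∈ s, a i ≤ b (f i)) : ∑ i ∈ s, a i ≤ ∑ k ∈ t, b k := by
  classical
  calc ∑ i ∈ s, a i ≤ ∑ i ∈ s, b (f i) := Finset.sum_le_sum hab
    _ = ∑ k ∈ s.image f, b k := (Finset.sum_image hinj).symm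
    _ ≤ ∑ k ∈ t, b k := by
        apply Finset.sum_le_sum_of_subset_of_nonneg
        · intro k hk
          obtain ⟨i, hi, rfl⟩ := Finset.mem_image.mp hk
          exact hf i hi
        · intro k hk _
          exact hb k hk

/-- number of divisors, as a real number -/
noncomputable def dv (n : ℕ) : ℝ := (n.divisors.card : ℝ)

theorem dv_nonneg (n : ℕ) : 0 ≤ dv n := Nat.cast_nonneg _

theorem dv_one_le (n : ℕ) (hn : 1 ≤ n) : 1 ≤ dv n := by
  unfold dv
  have : 0 < n.divisors.card := Finset.card_pos.mpr ⟨1, by simp; omega⟩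
  exact_mod_cast this

theorem dv_mul_le (a b : ℕ) (ha : 1 ≤ a) (hb : 1 ≤ b) : dv (a * b) ≤ dv a * dv b := by
  unfold dv
  have hsub : (a * b).divisors ⊆ (a.divisors ×ˢ b.divisors).image (fun p => p.1 * p.2) := by
    intro d hd
    obtain ⟨h1, h2⟩ := Nat.mem_divisors.mp hd
    obtain ⟨x, y, hx, hy, rfl⟩ := exists_dvd_and_dvd_of_dvd_mul h1
    refine Finset.mem_image.mpr ⟨(x, y), ?_, rfl⟩
    rw [Finset.mem_product]
    exact ⟨Nat.mem_divisors.mpr ⟨hx, by omega⟩, Nat.mem_divisors.mpr ⟨hy, by omega⟩⟩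
  have h1 := Finset.card_le_card hsub
  have h2 : ((a.divisors ×ˢ b.divisors).image (fun p => p.1 * p.2)).card ≤
      a.divisors.card * b.divisors.card := by
    refine Finset.card_image_le.trans ?_
    rw [Finset.card_product]
  exact_mod_cast h1.trans h2

/-- logarithmic moments of the divisor function -/
theorem dv_moment (M : ℕ) (j : ℕ) :
    ∑ m ∈ Finset.Icc 1 M, dv m ^ j / m ≤ (1 + Real.log M) ^ (2 ^ j) := by
  induction j with
  | zero =>
    have h := harmonic_le_one_add_log M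
    rw [harmonic_eq_sum_Icc] at h
    push_cast at h
    simpa [one_div] using h
  | succ j ih =>
    have h1 : ∑ m ∈ Finset.Icc 1 M, dv m ^ (j + 1) / m ≤
        (∑ m ∈ Finset.Icc 1 M, dv m ^ j / m) ^ 2 := by
      have e1 : ∑ m ∈ Finset.Icc 1 M, dv m ^ (j + 1) / m =
          ∑ m ∈ Finset.Icc 1 M, ∑ _a ∈ m.divisors, dv m ^ j / m := by
        refine Finset.sum_congr rfl fun m _ => ?_
        rw [Finset.sum_const, nsmul_eq_mul]
        unfold dv
        ring
      rw [e1, Finset.sum_sigma']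
      have e2 : (∑ m ∈ Finset.Icc 1 M, dv m ^ j / m) ^ 2 =
          ∑ p ∈ Finset.Icc 1 M ×ˢ Finset.Icc 1 M, (dv p.1 ^ j / p.1) * (dv p.2 ^ j / p.2) := by
        rw [sq, Finset.sum_mul_sum, Finset.sum_product]
      rw [e2]
      refine sum_le_inj _ _ (fun q : (_ : ℕ) × ℕ => (q.2, q.1 / q.2)) ?_ ?_ _ _ ?_ ?_
      · intro q hq
        rw [Finset.mem_sigma, Finset.mem_Icc, Nat.mem_divisors] at hq
        obtain ⟨⟨h1, h2⟩, h3, h4⟩ := hq
        have hpos : 0 < q.2 := Nat.pos_of_dvd_of_pos h3 (by omega)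
        have hle : q.2 ≤ q.1 := Nat.le_of_dvd (by omega) h3
        rw [Finset.mem_product, Finset.mem_Icc, Finset.mem_Icc]
        refine ⟨⟨hpos, hle.trans h2⟩, Nat.div_pos hle hpos, (Nat.div_le_self _ _).trans h2⟩
      · intro q hq q' hq' h
        rw [Finset.mem_coe, Finset.mem_sigma, Finset.mem_Icc, Nat.mem_divisors] at hq hq'
        simp only [Prod.mk.injEq] at h
        obtain ⟨h1, h2⟩ := h
        have k1 : q.1 / q.2 * q.2 = q.1 := Nat.div_mul_cancel hq.2.1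
        have k2 : q'.1 / q'.2 * q'.2 = q'.1 := Nat.div_mul_cancel hq'.2.1
        have k3 : q.1 = q'.1 := by rw [← k1, ← k2, h2, h1]
        obtain ⟨x, y⟩ := q
        obtain ⟨x', y'⟩ := q'
        simp only at h1 k3
        subst h1 k3
        rfl
      · intro p _
        have := dv_nonneg p.1
        have := dv_nonneg p.2
        positivity
      · intro q hq
        rw [Finset.mem_sigma, Finset.mem_Icc, Nat.mem_divisors] at hq
        obtain ⟨⟨h1, h2⟩, h3, h4⟩ := hq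
        have hpos : 0 < q.2 := Nat.pos_of_dvd_of_pos h3 (by omega)
        have hle : q.2 ≤ q.1 := Nat.le_of_dvd (by omega) h3
        have hpos2 : 0 < q.1 / q.2 := Nat.div_pos hle hpos
        have k1 : q.2 * (q.1 / q.2) = q.1 := Nat.mul_div_cancel' h3
        have k2 : dv q.1 ≤ dv q.2 * dv (q.1 / q.2) := by
          have := dv_mul_le q.2 (q.1 / q.2) hpos hpos2
          rwa [k1] at this
        have k3 : (q.1 : ℝ) = (q.2 : ℝ) * ((q.1 / q.2 : ℕ) : ℝ) := by
          rw [← Nat.cast_mul, k1]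
        simp only
        have a0 : (0 : ℝ) < q.2 := by exact_mod_cast hpos
        have b0 : (0 : ℝ) < ((q.1 / q.2 : ℕ) : ℝ) := by exact_mod_cast hpos2
        have k4 : dv q.2 ^ j / (q.2 : ℝ) * (dv (q.1 / q.2) ^ j / ((q.1 / q.2 : ℕ) : ℝ)) =
            (dv q.2 * dv (q.1 / q.2)) ^ j / (q.1 : ℝ) := by
          rw [k3, mul_pow]
          field_simp
        rw [k4]
        apply div_le_div_of_nonneg_right _ (Nat.cast_nonneg _)
        exact pow_le_pow_left₀ (dv_nonneg _) k2 j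
    refine h1.trans ?_
    have h0 : 0 ≤ ∑ m ∈ Finset.Icc 1 M, dv m ^ j / m :=
      Finset.sum_nonneg fun m _ => by have := dv_nonneg m; positivity
    calc (∑ m ∈ Finset.Icc 1 M, dv m ^ j / m) ^ 2 ≤ ((1 + Real.log M) ^ (2 ^ j)) ^ 2 :=
          pow_le_pow_left₀ h0 ih 2
      _ = _ := by rw [← pow_mul, pow_succ]

/-- the integers near `m` on a logarithmic scale -/
noncomputable def nearS (M : ℕ) (x : ℝ) (m : ℕ) : Finset ℕ :=
  (Finset.Icc 1 M).filter (fun j => j ≠ m ∧ |Real.log m - Real.log j| < x)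

theorem near_dist {m j : ℕ} (hm : 1 ≤ m) (hj : 1 ≤ j) {x : ℝ} (hx : x ≤ 1 / 4)
    (h : |Real.log m - Real.log j| < x) :
    |(m : ℝ) - j| ≤ 2 * x * m ∧ (m : ℝ) ≤ 2 * j := by
  have m0 : (0 : ℝ) < m := by exact_mod_cast hm
  have j0 : (0 : ℝ) < j := by exact_mod_cast hj
  rw [abs_lt] at h
  -- log (j/m) < x → j ≤ m e^x ≤ (4/3) m etc.
  have h1 : Real.log (j / m) < x := by
    rw [Real.log_div j0.ne' m0.ne']; linarith [h.1]
  have h2 : Real.log (m / j) < x := by
    rw [Real.log_div m0.ne' j0.ne']; linarith [h.2]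
  have k1 := Real.one_sub_inv_le_log_of_pos (div_pos j0 m0)
  have k2 := Real.one_sub_inv_le_log_of_pos (div_pos m0 j0)
  rw [inv_div] at k1 k2
  have x0 : 0 < x := by linarith [h.1, h.2]
  -- 1 - m/j < x, 1 - j/m < x
  have l1 : 1 - (m : ℝ) / j < x := lt_of_le_of_lt k1 h1
  have l2 : 1 - (j : ℝ) / m < x := lt_of_le_of_lt k2 h2
  have l3 : (j : ℝ) - m < x * j := by
    have : 1 - (m : ℝ) / j = (j - m) / j := by field_simp
    rw [this, div_lt_iff₀ j0] at l1
    exact l1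
  have l4 : (m : ℝ) - j < x * m := by
    have : 1 - (j : ℝ) / m = (m - j) / m := by field_simp
    rw [this, div_lt_iff₀ m0] at l2
    exact l2
  have l5 : (j : ℝ) ≤ 2 * m := by nlinarith
  have l6 : (m : ℝ) ≤ 2 * j := by nlinarith
  refine ⟨?_, l6⟩
  rw [abs_le]
  constructor <;> nlinarith

theorem near_sum (M : ℕ) (x : ℝ) (hx0 : 0 < x) (hx : x ≤ 1 / 4) (m : ℕ) (hm : 1 ≤ m) :
    ∑ j ∈ nearS M x m, 1 / (j : ℝ) ≤ 8 * x := by
  classical
  have m0 : (0 : ℝ) < m := by exact_mod_cast hm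
  set K : ℕ := ⌊2 * x * m⌋₊ with hK
  have hK1 : (K : ℝ) ≤ 2 * x * m := Nat.floor_le (by positivity)
  have hsub : nearS M x m ⊆ (Finset.Icc (m - K) (m + K)).erase m := by
    intro j hj
    obtain ⟨h1, h2, h3⟩ := Finset.mem_filter.mp hj
    have hj1 := (Finset.mem_Icc.mp h1).1
    obtain ⟨k1, -⟩ := near_dist hm hj1 hx h3
    rw [Finset.mem_erase, Finset.mem_Icc]
    refine ⟨h2, ?_, ?_⟩
    · by_contra hlt
      push Not at hlt
      have h5 : j + K < m := by omega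
      have h4 : ((m - j : ℕ) : ℝ) ≤ 2 * x * m := by
        rw [Nat.cast_sub (by omega)]
        exact (le_abs_self _).trans k1
      have := Nat.le_floor h4
      omega
    · by_contra hlt
      push Not at hlt
      have h4 : ((j - m : ℕ) : ℝ) ≤ 2 * x * m := by
        rw [Nat.cast_sub (by omega)]
        have := (neg_abs_le ((m : ℝ) - j))
        linarith
      have := Nat.le_floor h4
      omega
  have hcard : ((nearS M x m).card : ℝ) ≤ 4 * x * m := by
    have h1 := Finset.card_le_card hsub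
    have hmem : m ∈ Finset.Icc (m - K) (m + K) := by
      rw [Finset.mem_Icc]; omega
    rw [Finset.card_erase_of_mem hmem, Nat.card_Icc] at h1
    have h2 : (nearS M x m).card ≤ 2 * K := by omega
    have h3 : ((nearS M x m).card : ℝ) ≤ 2 * K := by exact_mod_cast h2
    linarith
  have hterm : ∀ j ∈ nearS M x m, 1 / (j : ℝ) ≤ 2 / m := by
    intro j hj
    obtain ⟨h1, h2, h3⟩ := Finset.mem_filter.mp hj
    have hj1 := (Finset.mem_Icc.mp h1).1
    have j0 : (0 : ℝ) < j := by exact_mod_cast hj1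
    obtain ⟨-, k2⟩ := near_dist hm hj1 hx h3
    rw [div_le_div_iff₀ j0 m0]
    linarith
  calc ∑ j ∈ nearS M x m, 1 / (j : ℝ) ≤ ∑ j ∈ nearS M x m, 2 / (m : ℝ) := Finset.sum_le_sum hterm
    _ = (nearS M x m).card * (2 / m) := by rw [Finset.sum_const, nsmul_eq_mul]
    _ ≤ (4 * x * m) * (2 / m) := mul_le_mul_of_nonneg_right hcard (by positivity)
    _ = 8 * x := by field_simp; ring

/-- near pairs -/
noncomputable def nearP (M : ℕ) (x : ℝ) : Finset (ℕ × ℕ) :=
  (Finset.Icc 1 M ×ˢ Finset.Icc 1 M).filter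
    (fun p => p.2 ≠ p.1 ∧ |Real.log p.1 - Real.log p.2| < x)

/-- the basic sum over near pairs -/
theorem near_pairs (M : ℕ) (x : ℝ) (hx0 : 0 < x) (hx : x ≤ 1 / 4) :
    ∑ p ∈ nearP M x, (Nat.gcd p.1 p.2 : ℝ) * (dv p.1 ^ 4 / (p.1 * p.2)) ≤
      8 * x * (1 + Real.log M) ^ 32 := by
  classical
  -- step 1: expand gcd
  have h1 : ∑ p ∈ nearP M x, (Nat.gcd p.1 p.2 : ℝ) * (dv p.1 ^ 4 / (p.1 * p.2)) ≤
      ∑ m ∈ Finset.Icc 1 M, ∑ k ∈ m.divisors, ∑ n ∈ (nearS M x m).filter (fun n => k ∣ n),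
        (dv m ^ 4 / m) * (k / n) := by
    have e1 : nearP M x = (Finset.Icc 1 M).biUnion (fun m => (nearS M x m).image (fun n => (m, n))) := by
      ext p
      simp only [nearP, nearS, Finset.mem_filter, Finset.mem_product, Finset.mem_biUnion,
        Finset.mem_image, Finset.mem_Icc]
      constructor
      · rintro ⟨⟨h1, h2⟩, h3, h4⟩
        exact ⟨p.1, h1, p.2, ⟨h2, h3, h4⟩, rfl⟩
      · rintro ⟨m, hm, n, ⟨hn, hne, hlt⟩, rfl⟩
        exact ⟨⟨hm, hn⟩, hne, hlt⟩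
    rw [e1, Finset.sum_biUnion]
    · refine Finset.sum_le_sum fun m hm => ?_
      rw [Finset.sum_image (by
        intro a _ b _ h
        exact (Prod.mk.inj h).2)]
      have e2 : ∑ k ∈ m.divisors, ∑ n ∈ (nearS M x m).filter (fun n => k ∣ n),
          (dv m ^ 4 / m) * ((k : ℝ) / n) =
          ∑ n ∈ nearS M x m, ∑ k ∈ m.divisors.filter (fun k => k ∣ n),
            (dv m ^ 4 / m) * ((k : ℝ) / n) := by
        simp_rw [Finset.sum_filter]
        rw [Finset.sum_comm]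
      rw [e2]
      refine Finset.sum_le_sum fun n hn => ?_
      have hm1 := (Finset.mem_Icc.mp hm).1
      have hn1 := (Finset.mem_Icc.mp (Finset.mem_filter.mp hn).1).1
      have hgm : Nat.gcd m n ∈ m.divisors.filter (fun k => k ∣ n) := by
        rw [Finset.mem_filter, Nat.mem_divisors]
        exact ⟨⟨Nat.gcd_dvd_left _ _, by omega⟩, Nat.gcd_dvd_right _ _⟩
      have h2 := Finset.single_le_sum (f := fun k : ℕ => (dv m ^ 4 / m) * ((k : ℝ) / n))
        (fun k _ => by have := dv_nonneg m; positivity) hgm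
      refine le_trans (le_of_eq ?_) h2
      have m0 : (m : ℝ) ≠ 0 := by exact_mod_cast (by omega : m ≠ 0)
      have n0 : (n : ℝ) ≠ 0 := by exact_mod_cast (by omega : n ≠ 0)
      simp only
      field_simp
    · intro a _ b _ hab
      rw [Function.onFun, Finset.disjoint_left]
      intro p hp hq
      obtain ⟨n, _, rfl⟩ := Finset.mem_image.mp hp
      obtain ⟨n', _, h⟩ := Finset.mem_image.mp hq
      exact hab (Prod.mk.inj h).1.symm
  refine h1.trans ?_
  -- step 2: inner sum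
  have h2 : ∀ m ∈ Finset.Icc 1 M, ∀ k ∈ m.divisors,
      ∑ n ∈ (nearS M x m).filter (fun n => k ∣ n), (dv m ^ 4 / m) * ((k : ℝ) / n) ≤
        (dv m ^ 4 / m) * (8 * x) := by
    intro m hm k hk
    rw [← Finset.mul_sum]
    apply mul_le_mul_of_nonneg_left _ (by have := dv_nonneg m; positivity)
    obtain ⟨hkm, hm0⟩ := Nat.mem_divisors.mp hk
    have hm1 := (Finset.mem_Icc.mp hm).1
    have hk1 : 0 < k := Nat.pos_of_dvd_of_pos hkm (by omega)
    have hmk : 0 < m / k := Nat.div_pos (Nat.le_of_dvd (by omega) hkm) hk1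
    refine le_trans ?_ (near_sum M x hx0 hx (m / k) hmk)
    refine sum_le_inj _ _ (fun n => n / k) ?_ ?_ _ _ ?_ ?_
    · intro n hn
      obtain ⟨hn1, hn2⟩ := Finset.mem_filter.mp hn
      obtain ⟨hn3, hn4, hn5⟩ := Finset.mem_filter.mp hn1
      obtain ⟨hn6, hn7⟩ := Finset.mem_Icc.mp hn3
      have hnk : 0 < n / k := Nat.div_pos (Nat.le_of_dvd (by omega) hn2) hk1
      unfold nearS
      rw [Finset.mem_filter, Finset.mem_Icc]
      refine ⟨⟨hnk, (Nat.div_le_self _ _).trans hn7⟩, ?_, ?_⟩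
      · intro h
        apply hn4
        rw [← Nat.div_mul_cancel hn2, ← Nat.div_mul_cancel hkm, h]
      · have k0 : (k : ℝ) ≠ 0 := by exact_mod_cast hk1.ne'
        have e1 : Real.log m = Real.log ((m / k : ℕ) : ℝ) + Real.log k := by
          rw [← Real.log_mul (by exact_mod_cast hmk.ne') k0, ← Nat.cast_mul, Nat.div_mul_cancel hkm]
        have e2 : Real.log n = Real.log ((n / k : ℕ) : ℝ) + Real.log k := by
          rw [← Real.log_mul (by exact_mod_cast hnk.ne') k0, ← Nat.cast_mul, Nat.div_mul_cancel hn2]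
        rw [e1, e2] at hn5
        have : Real.log ((m / k : ℕ) : ℝ) + Real.log k - (Real.log ((n / k : ℕ) : ℝ) + Real.log k) =
          Real.log ((m / k : ℕ) : ℝ) - Real.log ((n / k : ℕ) : ℝ) := by ring
        rwa [this] at hn5
    · intro n hn n' hn' h
      have h1 := (Finset.mem_filter.mp (Finset.mem_coe.mp hn)).2
      have h2 := (Finset.mem_filter.mp (Finset.mem_coe.mp hn')).2
      simp only at h
      rw [← Nat.div_mul_cancel h1, ← Nat.div_mul_cancel h2, h]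
    · intro j _
      positivity
    · intro n hn
      obtain ⟨hn1, hn2⟩ := Finset.mem_filter.mp hn
      obtain ⟨hn3, hn4, hn5⟩ := Finset.mem_filter.mp hn1
      obtain ⟨hn6, hn7⟩ := Finset.mem_Icc.mp hn3
      have hnk : 0 < n / k := Nat.div_pos (Nat.le_of_dvd (by omega) hn2) hk1
      have k0 : (0 : ℝ) < k := by exact_mod_cast hk1
      have j0 : (0 : ℝ) < ((n / k : ℕ) : ℝ) := by exact_mod_cast hnk
      have e2 : (n : ℝ) = ((n / k : ℕ) : ℝ) * k := by
        rw [← Nat.cast_mul, Nat.div_mul_cancel hn2]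
      rw [e2]
      apply le_of_eq
      field_simp
  calc _ ≤ ∑ m ∈ Finset.Icc 1 M, ∑ _k ∈ m.divisors, (dv m ^ 4 / m) * (8 * x) :=
        Finset.sum_le_sum fun m hm => Finset.sum_le_sum fun k hk => h2 m hm k hk
    _ = 8 * x * ∑ m ∈ Finset.Icc 1 M, dv m ^ 5 / m := by
        rw [Finset.mul_sum]
        refine Finset.sum_congr rfl fun m _ => ?_
        rw [Finset.sum_const, nsmul_eq_mul]
        unfold dv
        ring
    _ ≤ 8 * x * (1 + Real.log M) ^ 32 := by
        apply mul_le_mul_of_nonneg_left _ (by positivity)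
        have := dv_moment M 5
        norm_num at this
        exact this

/-- **mean value of near off-diagonal sums** -/
theorem near_mean (M : ℕ) (hM : 1 ≤ M) (x : ℝ) (hx0 : 0 < x) (hx : x ≤ 1 / 4)
    (P : Finset (ℕ × ℕ)) (hP : P ⊆ nearP M x) (κ : ℕ × ℕ → ℂ)
    (hκ : ∀ p ∈ P, ‖κ p‖ ^ 2 ≤ dv p.1 ^ 4 / (p.1 * p.2)) (T τ : ℝ) (hT : 0 < T) :
    Integrable (fun t : ℝ => Real.exp (-(t - τ) ^ 2 / (2 * T ^ 2)) *
      ‖∑ p ∈ P, κ p * cexp (I * (lam p : ℂ) * t)‖ ^ 2) ∧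
    ∫ t : ℝ, Real.exp (-(t - τ) ^ 2 / (2 * T ^ 2)) *
      ‖∑ p ∈ P, κ p * cexp (I * (lam p : ℂ) * t)‖ ^ 2 ≤
      144 * (T + (M : ℝ) ^ 2) * (x * (1 + Real.log M) ^ 33) := by
  have hP' : ∀ p ∈ P, 1 ≤ p.1 ∧ p.1 ≤ M ∧ 1 ≤ p.2 ∧ p.2 ≤ M := by
    intro p hp
    have h := (Finset.mem_filter.mp (hP hp)).1
    rw [Finset.mem_product, Finset.mem_Icc, Finset.mem_Icc] at h
    exact ⟨h.1.1, h.1.2, h.2.1, h.2.2⟩
  obtain ⟨h1, h2⟩ := frac_sieve P M hM hP' κ T τ hT
  refine ⟨h1, h2.trans ?_⟩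
  have h3 := fibre_cs P M hM hP' (fun p => ‖κ p‖)
  have hlog : 0 ≤ Real.log M := Real.log_nonneg (by exact_mod_cast hM)
  have h4 : ∑ p ∈ P, (Nat.gcd p.1 p.2 : ℝ) * ‖κ p‖ ^ 2 ≤ 8 * x * (1 + Real.log M) ^ 32 := by
    refine le_trans ?_ (near_pairs M x hx0 hx)
    calc ∑ p ∈ P, (Nat.gcd p.1 p.2 : ℝ) * ‖κ p‖ ^ 2
        ≤ ∑ p ∈ P, (Nat.gcd p.1 p.2 : ℝ) * (dv p.1 ^ 4 / (p.1 * p.2)) :=
          Finset.sum_le_sum fun p hp => mul_le_mul_of_nonneg_left (hκ p hp) (Nat.cast_nonneg _)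
      _ ≤ _ := Finset.sum_le_sum_of_subset_of_nonneg hP fun p _ _ => by
          have := dv_nonneg p.1
          positivity
  calc 18 * (T + (M : ℝ) ^ 2) * ∑ r ∈ P.image red, (∑ p ∈ P with red p = r, ‖κ p‖) ^ 2
      ≤ 18 * (T + (M : ℝ) ^ 2) * ((1 + Real.log M) * (8 * x * (1 + Real.log M) ^ 32)) := by
        apply mul_le_mul_of_nonneg_left _ (by positivity)
        exact h3.trans (mul_le_mul_of_nonneg_left h4 (by positivity))
    _ = _ := by ring

end Pool.Agent.W192.AW
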