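import Pool.Agent.H382R2.Dir
import Pool.Agent.H382R2.Zeta1
import Pool.Agent.H382R2.GaussMV
import Pool.Agent.W192.AW.Near

open Complex Filter Topology Set MeasureTheory

namespace Pool.Agent.W192.AW

open SG

/-- `d(m)^2 ≤ 4 m` -/
theorem dv_sq_le (m : ℕ) (hm : 1 ≤ m) : dv m ^ 2 ≤ 4 * m := by
  classical
  have h1 : (m.divisors.filter (fun d => ¬ d * d ≤ m)).card ≤
      (m.divisors.filter (fun d => d * d ≤ m)).card := by
    apply Finset.card_le_card_of_injOn (fun d => m / d)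
    · intro d hd
      obtain ⟨h1, h2⟩ := Finset.mem_filter.mp (Finset.mem_coe.mp hd)
      obtain ⟨h3, h4⟩ := Nat.mem_divisors.mp h1
      have hd0 : 0 < d := Nat.pos_of_dvd_of_pos h3 (by omega)
      have e := Nat.div_mul_cancel h3
      have hlt : m / d < d := by
        by_contra hge
        push Not at hge
        apply h2
        calc d * d ≤ m / d * d := Nat.mul_le_mul_right d hge
          _ = m := e
      simp only [Finset.coe_filter, Set.mem_setOf_eq, Nat.mem_divisors]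
      refine ⟨⟨⟨d, e.symm⟩, h4⟩, ?_⟩
      calc m / d * (m / d) ≤ m / d * d := Nat.mul_le_mul_left _ hlt.le
        _ = m := e
    · intro d hd d' hd' h
      obtain ⟨h1, -⟩ := Finset.mem_filter.mp (Finset.mem_coe.mp hd)
      obtain ⟨h1', -⟩ := Finset.mem_filter.mp (Finset.mem_coe.mp hd')
      obtain ⟨h3, -⟩ := Nat.mem_divisors.mp h1
      obtain ⟨h3', -⟩ := Nat.mem_divisors.mp h1'
      simp only at h
      have e := Nat.div_mul_cancel h3
      have e' := Nat.div_mul_cancel h3'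
      have hpos : 0 < m / d := Nat.div_pos (Nat.le_of_dvd (by omega) h3)
        (Nat.pos_of_dvd_of_pos h3 (by omega))
      rw [← h] at e'
      exact Nat.eq_of_mul_eq_mul_left hpos (e.trans e'.symm)
  have h2 : (m.divisors.filter (fun d => d * d ≤ m)).card ≤ Nat.sqrt m := by
    have hsub : m.divisors.filter (fun d => d * d ≤ m) ⊆ Finset.Icc 1 (Nat.sqrt m) := by
      intro d hd
      obtain ⟨h1, h2⟩ := Finset.mem_filter.mp hd
      obtain ⟨h3, h4⟩ := Nat.mem_divisors.mp h1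
      rw [Finset.mem_Icc]
      exact ⟨Nat.pos_of_dvd_of_pos h3 (by omega), Nat.le_sqrt.mpr h2⟩
    have := Finset.card_le_card hsub
    rwa [Nat.card_Icc, Nat.add_sub_cancel] at this
  have h3 : m.divisors.card ≤ 2 * Nat.sqrt m := by
    rw [← Finset.card_filter_add_card_filter_not (s := m.divisors) (fun d => d * d ≤ m)]
    omega
  have h4 : m.divisors.card * m.divisors.card ≤ 4 * m := by
    calc m.divisors.card * m.divisors.card ≤ (2 * Nat.sqrt m) * (2 * Nat.sqrt m) :=
          Nat.mul_le_mul h3 h3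
      _ = 4 * (Nat.sqrt m * Nat.sqrt m) := by ring
      _ ≤ 4 * m := Nat.mul_le_mul_left _ (Nat.sqrt_le m)
  unfold dv
  rw [sq]
  exact_mod_cast h4

theorem term_shift (f : ℕ → ℂ) (s w : ℂ) (n : ℕ) :
    LSeries.term (fun n => f n * (n : ℂ) ^ (-w)) s n = LSeries.term f (s + w) n := by
  rcases Nat.eq_zero_or_pos n with h0 | hpos
  · subst h0
    simp
  · have hn : (n : ℂ) ≠ 0 := by exact_mod_cast hpos.ne'
    rw [LSeries.term_of_ne_zero hpos.ne', LSeries.term_of_ne_zero hpos.ne', Complex.cpow_add _ _ hn,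
      Complex.cpow_neg]
    field_simp

theorem hasSum_shift (f : ℕ → ℂ) (s w a : ℂ) (h : LSeriesHasSum f (s + w) a) :
    LSeriesHasSum (fun n => f n * (n : ℂ) ^ (-w)) s a := by
  unfold LSeriesHasSum at h ⊢
  have : LSeries.term (fun n => f n * (n : ℂ) ^ (-w)) s = LSeries.term f (s + w) := by
    funext n
    exact term_shift f s w n
  rw [this]
  exact h

/-- `μ(n) n^{-h}` -/
noncomputable def mh (h : ℂ) : ArithmeticFunction ℂ :=
  ⟨fun n => ((ArithmeticFunction.moebius n : ℤ) : ℂ) * (n : ℂ) ^ (-h), by simp⟩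

theorem mh_apply (h : ℂ) (n : ℕ) :
    mh h n = ((ArithmeticFunction.moebius n : ℤ) : ℂ) * (n : ℂ) ^ (-h) := rfl

/-- the coefficients of `ζ A - 1`, twisted -/
noncomputable def gw (N : ℕ) (w : ℂ) : ArithmeticFunction ℂ :=
  ⟨fun n => (if n ≤ N then 0 else SG.cc N n) * (n : ℂ) ^ (-w), by simp⟩

theorem gw_apply (N : ℕ) (w : ℂ) (n : ℕ) :
    gw N w n = (if n ≤ N then 0 else SG.cc N n) * (n : ℂ) ^ (-w) := rfl

/-- coefficients of `(ζ A - 1)(s + w) / ζ(s + h)` -/
noncomputable def ee (N : ℕ) (h w : ℂ) : ArithmeticFunction ℂ := mh h * gw N w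

theorem mh_LSeries (h s : ℂ) (hh : h.re = 0) (hs : 1 < s.re) :
    LSeriesHasSum (fun n => mh h n) s (riemannZeta (s + h))⁻¹ := by
  have hs' : 1 < (s + h).re := by rw [add_re, hh, add_zero]; exact hs
  have h1 : LSeriesHasSum (fun n => ((ArithmeticFunction.moebius n : ℤ) : ℂ)) (s + h)
      (riemannZeta (s + h))⁻¹ := by
    have h2 := (ArithmeticFunction.LSeriesSummable_moebius_iff.mpr hs').LSeriesHasSum
    have h3 := ArithmeticFunction.LSeries_zeta_mul_Lseries_moebius hs'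
    rw [ArithmeticFunction.LSeries_zeta_eq_riemannZeta hs'] at h3
    have h4 : LSeries (fun n => ((ArithmeticFunction.moebius n : ℤ) : ℂ)) (s + h) =
        (riemannZeta (s + h))⁻¹ := by
      have hne := riemannZeta_ne_zero_of_one_lt_re hs'
      field_simp
      linear_combination h3
    rw [h4] at h2
    exact h2
  exact hasSum_shift _ s h _ h1

theorem gw_LSeries (N : ℕ) (hN : 1 ≤ N) (w s : ℂ) (hw : w.re = 0) (hs : 1 < s.re) :
    LSeriesHasSum (fun n => gw N w n) s (GG N (s + w)) := by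
  have hs' : 1 < (s + w).re := by rw [add_re, hw, add_zero]; exact hs
  have h1 := SG.cc_LSeries N (s + w) hs'
  have h2 : HasSum (fun n : ℕ => if n = 1 then (1 : ℂ) else 0) 1 := hasSum_ite_eq 1 1
  have h3 := HasSum.sub h1 h2
  have h4 : AA N (s + w) * riemannZeta (s + w) - 1 = GG N (s + w) := by unfold GG; ring
  rw [h4] at h3
  have h5 : LSeriesHasSum (fun n => if n ≤ N then 0 else SG.cc N n) (s + w) (GG N (s + w)) := by
    unfold LSeriesHasSum
    refine h3.congr_fun ?_
    intro n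
    rcases Nat.eq_zero_or_pos n with h0 | hpos
    · subst h0
      simp
    · rw [LSeries.term_of_ne_zero hpos.ne', LSeries.term_of_ne_zero hpos.ne']
      by_cases hn : n ≤ N
      · rw [if_pos hn, zero_div]
        by_cases h11 : n = 1
        · subst h11
          rw [SG.cc_one N hN]
          simp
        · rw [if_neg h11, SG.cc_zero' N n (by omega) hn]
          simp
      · rw [if_neg hn, if_neg (by omega : ¬ n = 1), sub_zero]
  exact hasSum_shift _ s w _ h5

theorem ee_LSeries (N : ℕ) (hN : 1 ≤ N) (h w s : ℂ) (hh : h.re = 0) (hw : w.re = 0)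
    (hs : 1 < s.re) :
    LSeriesHasSum (fun n => ee N h w n) s (GG N (s + w) / riemannZeta (s + h)) := by
  have h1 := ArithmeticFunction.LSeriesHasSum_mul (mh_LSeries h s hh hs) (gw_LSeries N hN w s hw hs)
  have e : (riemannZeta (s + h))⁻¹ * GG N (s + w) = GG N (s + w) / riemannZeta (s + h) := by
    rw [div_eq_mul_inv, mul_comm]
  rw [e] at h1
  exact h1

theorem norm_cpow_im (n : ℕ) (hn : 1 ≤ n) (w : ℂ) (hw : w.re = 0) : ‖(n : ℂ) ^ (-w)‖ = 1 := by
  rw [Complex.norm_natCast_cpow_of_pos (by omega : 0 < n), neg_re, hw, neg_zero, Real.rpow_zero]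

theorem mu_norm (n : ℕ) : ‖((ArithmeticFunction.moebius n : ℤ) : ℂ)‖ ≤ 1 := by
  rw [Complex.norm_intCast]
  exact_mod_cast ArithmeticFunction.abs_moebius_le_one

theorem cc_dv (N n : ℕ) : ‖SG.cc N n‖ ≤ dv n := by
  rw [SG.cc_apply]
  calc _ ≤ ∑ d ∈ n.divisors, (1 : ℝ) := by
        apply norm_sum_le_of_le
        intro d _
        rw [tmu_apply]
        split_ifs
        · exact mu_norm d
        · simp
    _ = dv n := by simp [dv]

theorem ee_small (N : ℕ) (h w : ℂ) (m : ℕ) (hm : m ≤ N) : ee N h w m = 0 := by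
  unfold ee
  rw [ArithmeticFunction.mul_apply]
  apply Finset.sum_eq_zero
  intro p hp
  obtain ⟨h1, h2⟩ := Nat.mem_divisorsAntidiagonal.mp hp
  have h3 : p.2 ≤ m := by
    have hp1 : p.1 ≠ 0 := by
      intro h0
      rw [h0, zero_mul] at h1
      exact h2 h1.symm
    rw [← h1]
    exact Nat.le_mul_of_pos_left _ (Nat.pos_of_ne_zero hp1)
  rw [gw_apply, if_pos (h3.trans hm)]
  simp

theorem ee_dv (N : ℕ) (h w : ℂ) (hh : h.re = 0) (hw : w.re = 0) (m : ℕ) (hm : 1 ≤ m) :
    ‖ee N h w m‖ ≤ dv m ^ 2 := by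
  unfold ee
  rw [ArithmeticFunction.mul_apply]
  have hterm : ∀ p ∈ m.divisorsAntidiagonal, ‖mh h p.1 * gw N w p.2‖ ≤ dv m := by
    intro p hp
    obtain ⟨h1, h2⟩ := Nat.mem_divisorsAntidiagonal.mp hp
    have hp1 : 1 ≤ p.1 := by
      rcases Nat.eq_zero_or_pos p.1 with h0 | h0
      · rw [h0, zero_mul] at h1
        omega
      · exact h0
    have hp2 : 1 ≤ p.2 := by
      rcases Nat.eq_zero_or_pos p.2 with h0 | h0
      · rw [h0, mul_zero] at h1
        omega
      · exact h0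
    rw [norm_mul, mh_apply, gw_apply, norm_mul, norm_mul, norm_cpow_im p.1 hp1 h hh,
      norm_cpow_im p.2 hp2 w hw, mul_one, mul_one]
    have k1 := mu_norm p.1
    have k2 : ‖(if p.2 ≤ N then 0 else SG.cc N p.2)‖ ≤ dv m := by
      split_ifs
      · rw [norm_zero]; exact dv_nonneg m
      · refine (cc_dv N p.2).trans ?_
        unfold dv
        have : p.2.divisors ⊆ m.divisors := Nat.divisors_subset_of_dvd (by omega) ⟨p.1, by
          rw [← h1]; ring⟩
        exact_mod_cast Finset.card_le_card this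
    calc _ ≤ 1 * dv m := mul_le_mul k1 k2 (norm_nonneg _) zero_le_one
      _ = _ := one_mul _
  calc _ ≤ ∑ p ∈ m.divisorsAntidiagonal, dv m := norm_sum_le_of_le _ hterm
    _ = dv m ^ 2 := by
        rw [Finset.sum_const, nsmul_eq_mul]
        have : m.divisorsAntidiagonal.card = m.divisors.card := by
          rw [← Nat.map_div_right_divisors, Finset.card_map]
        rw [this, sq]
        rfl

theorem ee_bound (N : ℕ) (h w : ℂ) (hh : h.re = 0) (hw : w.re = 0) (m : ℕ) :
    ‖ee N h w m‖ ≤ 4 * m := by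
  rcases Nat.eq_zero_or_pos m with h0 | hm
  · subst h0
    simp
  · exact (ee_dv N h w hh hw m hm).trans (dv_sq_le m hm)

/-- the beginning of the Dirichlet series -/
noncomputable def E1 (N K : ℕ) (h w s : ℂ) : ℂ :=
  ∑ m ∈ Finset.Ioc N K, ee N h w m * (m : ℂ) ^ (-s)

/-- tail estimate -/
theorem E_tail (N : ℕ) (hN : 1 ≤ N) (h w : ℂ) (hh : h.re = 0) (hw : w.re = 0) (K : ℕ) (hNK : N ≤ K)
    (s : ℂ) (hs : 5 / 2 ≤ s.re) :
    ‖GG N (s + w) / riemannZeta (s + h) - E1 N K h w s‖ ≤ 8 * ((K : ℝ) + 1) ^ (5 / 2 - s.re) := by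
  have hK : 1 ≤ K := hN.trans hNK
  have h1 := ee_LSeries N hN h w s hh hw (by linarith)
  rw [LSeriesHasSum] at h1
  have h2 := (hasSum_nat_add_iff' (K + 1)).mpr h1
  have h3 : ∑ i ∈ Finset.range (K + 1), LSeries.term (fun n => ee N h w n) s i = E1 N K h w s := by
    unfold E1
    symm
    have hsub : Finset.Ioc N K ⊆ Finset.range (K + 1) := by
      intro m hm
      have := (Finset.mem_Ioc.mp hm).2
      exact Finset.mem_range.mpr (by omega)
    rw [← Finset.sum_subset hsub]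
    · refine Finset.sum_congr rfl fun m hm => ?_
      have := (Finset.mem_Ioc.mp hm).1
      rw [LSeries.term_of_ne_zero (by omega), cpow_neg, div_eq_mul_inv]
    · intro m hm hm'
      have h5 : m ≤ N := by
        by_contra hlt
        push Not at hlt
        apply hm'
        rw [Finset.mem_Ioc]
        have := Finset.mem_range.mp hm
        exact ⟨hlt, by omega⟩
      rcases Nat.eq_zero_or_pos m with h0 | hpos
      · simp [h0]
      · rw [LSeries.term_of_ne_zero hpos.ne', ee_small N h w m h5, zero_div]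
  rw [h3] at h2
  have hK1 : (1 : ℝ) ≤ K := by exact_mod_cast hK
  have hb : ∀ k : ℕ, ‖LSeries.term (fun n => ee N h w n) s (k + (K + 1))‖ ≤
      4 * (((k + K : ℕ) + 1 : ℝ) ^ (-(3 / 2) : ℝ) * ((K : ℝ) + 1) ^ (5 / 2 - s.re)) := by
    intro k
    rw [LSeries.norm_term_eq, if_neg (by omega)]
    have hpos : (0 : ℝ) < ((k + (K + 1) : ℕ) : ℝ) := by positivity
    have e : ((k + (K + 1) : ℕ) : ℝ) = ((k + K : ℕ) : ℝ) + 1 := by push_cast; ring
    have hc := ee_bound N h w hh hw (k + (K + 1))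
    rw [div_le_iff₀ (Real.rpow_pos_of_pos hpos _)]
    refine hc.trans ?_
    rw [e]
    rw [e] at hpos
    set x : ℝ := ((k + K : ℕ) : ℝ) + 1 with hx
    have hx1 : (K : ℝ) + 1 ≤ x := by rw [hx]; push_cast; linarith [(Nat.cast_nonneg k : (0:ℝ) ≤ k)]
    have h5 : x ^ (5 / 2 - s.re) ≤ ((K : ℝ) + 1) ^ (5 / 2 - s.re) :=
      Real.rpow_le_rpow_of_nonpos (by linarith) hx1 (by linarith)
    calc 4 * x = 4 * (x ^ (-(3 / 2) : ℝ) * x ^ (5 / 2 - s.re)) * x ^ s.re := by
          rw [mul_assoc, ← Real.rpow_add hpos, ← Real.rpow_add hpos]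
          ring_nf; rw [Real.rpow_one]
      _ ≤ 4 * (x ^ (-(3 / 2) : ℝ) * ((K : ℝ) + 1) ^ (5 / 2 - s.re)) * x ^ s.re := by gcongr
  have hpp : (0 : ℝ) ≤ ((K : ℝ) + 1) ^ (5 / 2 - s.re) := by positivity
  have hfin : ∀ J : ℕ, ‖∑ k ∈ Finset.range J, LSeries.term (fun n => ee N h w n) s (k + (K + 1))‖ ≤
      8 * ((K : ℝ) + 1) ^ (5 / 2 - s.re) := by
    intro J
    calc _ ≤ ∑ k ∈ Finset.range J, 4 * (((k + K : ℕ) + 1 : ℝ) ^ (-(3 / 2) : ℝ) *
          ((K : ℝ) + 1) ^ (5 / 2 - s.re)) := norm_sum_le_of_le _ (fun k _ => hb k)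
      _ = 4 * (∑ k ∈ Finset.range J, ((k + K : ℕ) + 1 : ℝ) ^ (-(3 / 2) : ℝ)) *
          ((K : ℝ) + 1) ^ (5 / 2 - s.re) := by
          rw [← Finset.mul_sum, ← Finset.sum_mul]
          ring
      _ ≤ 4 * 2 * ((K : ℝ) + 1) ^ (5 / 2 - s.re) := by
          apply mul_le_mul_of_nonneg_right _ hpp
          exact mul_le_mul_of_nonneg_left (tel_sum K hK J) (by norm_num)
      _ = _ := by ring
  have hlim := h2.tendsto_sum_nat.norm
  exact le_of_tendsto hlim (Eventually.of_forall hfin)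

end Pool.Agent.W192.AW
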