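import Pool.Agent.W192.SI.Deep
import Pool.Agent.H382R2.Vert

open Complex Filter Topology Set MeasureTheory

namespace Pool.Agent.W192.AW

open SG hiding dd nn Sep cc
open SG.Deep SG.Vert Pool.Agent.W192.SI

/-- a window `[W, W + H]` inside `[T, 2T]` and a mollifier length `N ≤ T` -/
structure Win (H T W : ℝ) (N : ℕ) : Prop where
  adm : Adm H T
  w1 : T ≤ W
  w2 : W + H ≤ 2 * T
  n1 : 2 ≤ N
  n2 : (N : ℝ) ≤ T

/-- logarithmic width of the near region -/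
noncomputable def xx (H T : ℝ) : ℝ := Real.log T ^ 2 / dd H T

theorem xx_pos {H T : ℝ} (hA : Adm H T) : 0 < xx H T := by
  have := hA.log_ge
  have := hA.dd_pos
  unfold xx
  positivity

theorem xx_dd {H T : ℝ} (hA : Adm H T) : xx H T * dd H T = Real.log T ^ 2 := by
  have := hA.dd_pos
  unfold xx
  field_simp

theorem xx_le {H T : ℝ} (hA : Adm H T) : xx H T ≤ 1 / 100 := by
  have h1 := hA.log_ge
  have h2 := hA.dd_ge
  have h3 := hA.dd_pos
  unfold xx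
  rw [div_le_iff₀ h3]
  have h4 : (100 : ℝ) ≤ Real.log T ^ 2 := by nlinarith
  have h5 : Real.log T ^ 2 * 100 ≤ Real.log T ^ 2 * Real.log T ^ 2 :=
    mul_le_mul_of_nonneg_left h4 (by positivity)
  have h6 : Real.log T ^ 2 * Real.log T ^ 2 = Real.log T ^ 4 := by ring
  linarith

/-- on the horizontal sides `φ` is tiny -/
theorem phi_tiny {H T W : ℝ} (hA : Adm H T) (s : ℂ) (hs1 : |s.re - 1 / 2| ≤ dd H T)
    (hs2 : s.im ≤ W + 20 ∨ W + H - 20 ≤ s.im) :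
    ‖phi (W + H / 2) (dd H T) s‖ ≤ Real.exp (-(1 / 40) * Real.log T ^ 4) := by
  have hD : 0 < dd H T := hA.dd_pos
  have hL := hA.log_ge
  have hH := hA.H_ge
  norm_num at hH
  rw [phi_norm _ _ hD]
  apply Real.exp_le_exp.mpr
  have hD2 : dd H T ^ 2 * Real.log T ^ 4 = H ^ 2 := by
    have h := hA.dd_sq
    calc dd H T ^ 2 * Real.log T ^ 4 = (dd H T * Real.log T ^ 2) ^ 2 := by ring
      _ = H ^ 2 := by rw [h]
  have him : (H / 4) ^ 2 ≤ (s.im - (W + H / 2)) ^ 2 := by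
    rcases hs2 with h | h
    · have : H / 4 ≤ -(s.im - (W + H / 2)) := by linarith
      nlinarith
    · have : H / 4 ≤ (s.im - (W + H / 2)) := by linarith
      nlinarith
  have hre : (s.re - 1 / 2) ^ 2 ≤ dd H T ^ 2 := by
    rw [← sq_abs]
    exact pow_le_pow_left₀ (abs_nonneg _) hs1 2
  rw [div_le_iff₀ (by positivity)]
  have h3 : (s.re - 1 / 2) ^ 2 - (s.im - (W + H / 2)) ^ 2 ≤
      dd H T ^ 2 - dd H T ^ 2 * Real.log T ^ 4 / 16 := by
    rw [hD2]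
    nlinarith
  refine h3.trans ?_
  have h4 : 0 < dd H T ^ 2 := by positivity
  have h6 : (100 : ℝ) ^ 4 ≤ Real.log T ^ 4 := pow_le_pow_left₀ (by norm_num) hL 4
  have h5 : 1 - Real.log T ^ 4 / 16 ≤ -(1 / 40) * Real.log T ^ 4 * 2 := by
    norm_num at h6
    linarith
  calc dd H T ^ 2 - dd H T ^ 2 * Real.log T ^ 4 / 16 = dd H T ^ 2 * (1 - Real.log T ^ 4 / 16) := by ring
    _ ≤ dd H T ^ 2 * (-(1 / 40) * Real.log T ^ 4 * 2) := mul_le_mul_of_nonneg_left h5 h4.le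
    _ = _ := by ring

/-- deep shift: functions that decay like `exp (-x σ)` have negligible integral -/
theorem deep_shift :
    ∃ T0 : ℝ, ∀ c H T W : ℝ, 0 < c → c < 2 → Adm H T → T ≤ W → W + H ≤ 2 * T → T0 ≤ T →
    ∀ U1 U2 : ℝ, W ≤ U1 → U1 ≤ W + 20 → W + H - 20 ≤ U2 → U2 ≤ W + H → ∀ F : ℂ → ℂ, (∀ s : ℂ, 5 / 2 ≤ s.re → 1 ≤ s.im → AnalyticAt ℂ F s) →
    (∀ s : ℂ, 5 / 2 ≤ s.re → 1 ≤ s.im →
      ‖F s‖ ≤ T ^ (10 : ℝ) * Real.exp (-xx H T * s.re)) →
    ‖∫ t in U1..U2, phi (W + H / 2) (dd H T) (⟨5 / 2, t⟩ : ℂ) * rr (dl c T) (⟨5 / 2, t⟩ : ℂ) *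
      F (⟨5 / 2, t⟩ : ℂ)‖ ≤ 1 := by
  obtain ⟨C, hC, hrr⟩ := SI.rr_bound
  -- asymptotic facts
  have ev1 : ∀ᶠ T : ℝ in atTop, T ^ (11 : ℝ) * Real.exp (-(1 / 40) * Real.log T ^ 4) ≤ 1 / (4 * C) :=
    ev_small4' 11 (1 / 40) _ (by norm_num) (by positivity)
  have ev2 : ∀ᶠ T : ℝ in atTop, T ^ (11 : ℝ) * Real.exp (-(1 / 2) * Real.log T ^ 2) ≤
      1 / (4 * C * Real.exp (1 / 2)) :=
    ev_small 11 (1 / 2) _ (by norm_num) (by positivity)
  obtain ⟨T0, hT0⟩ := eventually_atTop.mp (ev1.and ev2)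
  refine ⟨T0, ?_⟩
  intro c H' T W hc hc1 hA hTW hW2 hT U1 U2 hU1 hU1' hU2 hU2' F hFa hFb
  obtain ⟨h1, h2⟩ := hT0 T hT
  have hTpos : 0 < T := hA.T_pos
  have hT4 := hA.T_ge'
  have hHT := hA.hi
  have hHge := hA.H_ge
  norm_num at hHge
  have hdl : |dl c T| ≤ 1 := by
    rw [abs_of_pos (hA.dl_pos hc)]
    linarith [hA.dl_le hc1]
  have hDpos : 0 < dd H' T := hA.dd_pos
  have hD100 := hA.one_le_dd
  have hD8 : dd H' T ≤ T / 8 := by linarith [hA.dd_le_T]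
  set H : ℂ → ℂ := fun s => phi (W + H' / 2) (dd H' T) s * rr (dl c T) s * F s with hH
  have hrect := rect_zero H (5 / 2) (1 / 2 + dd H' T) U1 U2 (by linarith) (by linarith) (by
    intro s hs
    rw [mem_reProdIm] at hs
    obtain ⟨⟨hs1, hs2⟩, hs3, hs4⟩ := hs
    exact ((phi_analytic _ _ s).mul (rr_analytic _ hdl s (by linarith))).mul
      (hFa s hs1 (by linarith)))
  have hx0 := xx_pos hA
  -- horizontal bound
  have hhor : ∀ U : ℝ, W ≤ U → U ≤ W + H' → (U ≤ W + 20 ∨ W + H' - 20 ≤ U) →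
      ‖∫ x in (5 / 2 : ℝ)..(1 / 2 + dd H' T), H (⟨x, U⟩ : ℂ)‖ ≤ 1 / 4 := by
    intro U hUa hUb hUc
    have hb : ∀ x ∈ Set.uIoc (5 / 2 : ℝ) (1 / 2 + dd H' T), ‖H (⟨x, U⟩ : ℂ)‖ ≤
        Real.exp (-(1 / 40) * Real.log T ^ 4) * C * T ^ (10 : ℝ) := by
      intro x hx
      rw [uIoc_of_le (by linarith)] at hx
      obtain ⟨hx1, hx2⟩ := hx
      have b1 := phi_tiny (W := W) hA (⟨x, U⟩ : ℂ) (by
        simp only
        rw [abs_of_nonneg (by linarith)]
        linarith) hUc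
      have b2 := hrr c H' T hc hc1 hA (⟨x, U⟩ : ℂ) (by simp only; linarith) (by simp only; linarith) (by
        simp only
        rw [abs_of_nonneg (by linarith)]
        linarith)
      have b3 := hFb (⟨x, U⟩ : ℂ) hx1.le (by simp only; linarith)
      have b4 : ‖F (⟨x, U⟩ : ℂ)‖ ≤ T ^ (10 : ℝ) := by
        refine b3.trans ?_
        have : Real.exp (-xx H' T * (⟨x, U⟩ : ℂ).re) ≤ 1 := by
          rw [Real.exp_le_one_iff]
          simp only
          nlinarith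
        have hp : (0 : ℝ) < T ^ (10 : ℝ) := Real.rpow_pos_of_pos hTpos _
        nlinarith
      simp only [hH]
      rw [norm_mul, norm_mul]
      apply mul_le_mul _ b4 (norm_nonneg _) (by positivity)
      exact mul_le_mul b1 b2 (norm_nonneg _) (by positivity)
    refine (intervalIntegral.norm_integral_le_of_norm_le_const hb).trans ?_
    have hlen : |1 / 2 + dd H' T - 5 / 2| ≤ T := by
      rw [abs_of_nonneg (by linarith)]
      linarith
    have hp : (0 : ℝ) < T ^ (10 : ℝ) := Real.rpow_pos_of_pos hTpos _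
    calc Real.exp (-(1 / 40) * Real.log T ^ 4) * C * T ^ (10 : ℝ) * |1 / 2 + dd H' T - 5 / 2|
        ≤ Real.exp (-(1 / 40) * Real.log T ^ 4) * C * T ^ (10 : ℝ) * T :=
          mul_le_mul_of_nonneg_left hlen (by positivity)
      _ = C * (T ^ (11 : ℝ) * Real.exp (-(1 / 40) * Real.log T ^ 4)) := by
          rw [show (11 : ℝ) = 10 + 1 by norm_num, Real.rpow_add hTpos, Real.rpow_one]
          ring
      _ ≤ C * (1 / (4 * C)) := mul_le_mul_of_nonneg_left h1 (by linarith)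
      _ = 1 / 4 := by field_simp
  -- right side
  have hright : ‖∫ y in U1..U2, H (⟨1 / 2 + dd H' T, y⟩ : ℂ)‖ ≤ 1 / 4 := by
    have hb : ∀ y ∈ Set.uIoc U1 U2, ‖H (⟨1 / 2 + dd H' T, y⟩ : ℂ)‖ ≤
        Real.exp (1 / 2) * C * (T ^ (10 : ℝ) * Real.exp (-(1 / 2) * Real.log T ^ 2)) := by
      intro y hy
      rw [uIoc_of_le (by linarith)] at hy
      obtain ⟨hy1, hy2⟩ := hy
      have b1 : ‖phi (W + H' / 2) (dd H' T) (⟨1 / 2 + dd H' T, y⟩ : ℂ)‖ ≤ Real.exp (1 / 2) := by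
        rw [phi_norm _ _ hDpos]
        apply Real.exp_le_exp.mpr
        simp only
        rw [div_le_iff₀ (by positivity)]
        nlinarith [sq_nonneg (y - (W + H' / 2))]
      have b2 := hrr c H' T hc hc1 hA (⟨1 / 2 + dd H' T, y⟩ : ℂ) (by simp only; linarith)
        (by simp only; linarith) (by
        simp only
        rw [abs_of_nonneg (by linarith)]
        linarith)
      have b3 := hFb (⟨1 / 2 + dd H' T, y⟩ : ℂ) (by simp only; linarith) (by simp only; linarith)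
      have b4 : ‖F (⟨1 / 2 + dd H' T, y⟩ : ℂ)‖ ≤
          T ^ (10 : ℝ) * Real.exp (-(1 / 2) * Real.log T ^ 2) := by
        refine b3.trans ?_
        apply mul_le_mul_of_nonneg_left _ (Real.rpow_pos_of_pos hTpos _).le
        apply Real.exp_le_exp.mpr
        simp only
        have h1 := xx_dd hA
        have h2 := xx_pos hA
        nlinarith [sq_nonneg (Real.log T)]
      simp only [hH]
      rw [norm_mul, norm_mul]
      apply mul_le_mul _ b4 (norm_nonneg _) (by positivity)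
      exact mul_le_mul b1 b2 (norm_nonneg _) (by positivity)
    refine (intervalIntegral.norm_integral_le_of_norm_le_const hb).trans ?_
    have hlen : |U2 - U1| ≤ T := by
      rw [abs_of_nonneg (by linarith)]
      linarith
    calc Real.exp (1 / 2) * C * (T ^ (10 : ℝ) * Real.exp (-(1 / 2) * Real.log T ^ 2)) * |U2 - U1|
        ≤ Real.exp (1 / 2) * C * (T ^ (10 : ℝ) * Real.exp (-(1 / 2) * Real.log T ^ 2)) * T :=
          mul_le_mul_of_nonneg_left hlen (by positivity)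
      _ = Real.exp (1 / 2) * C * (T ^ (11 : ℝ) * Real.exp (-(1 / 2) * Real.log T ^ 2)) := by
          rw [show (11 : ℝ) = 10 + 1 by norm_num, Real.rpow_add hTpos, Real.rpow_one]
          ring
      _ ≤ Real.exp (1 / 2) * C * (1 / (4 * C * Real.exp (1 / 2))) :=
          mul_le_mul_of_nonneg_left h2 (by positivity)
      _ = 1 / 4 := by field_simp
  have hbot := hhor U1 hU1 (by linarith) (Or.inl hU1')
  have htop := hhor U2 (by linarith) hU2' (Or.inr hU2)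
  unfold rectI at hrect
  have hleft : I * (∫ t in U1..U2, H (⟨5 / 2, t⟩ : ℂ)) =
      (∫ x in (5 / 2 : ℝ)..(1 / 2 + dd H' T), H (⟨x, U1⟩ : ℂ)) -
      (∫ x in (5 / 2 : ℝ)..(1 / 2 + dd H' T), H (⟨x, U2⟩ : ℂ)) +
      I * (∫ y in U1..U2, H (⟨1 / 2 + dd H' T, y⟩ : ℂ)) := by
    linear_combination -hrect
  have hn : ‖I * (∫ t in U1..U2, H (⟨5 / 2, t⟩ : ℂ))‖ = ‖∫ t in U1..U2, H (⟨5 / 2, t⟩ : ℂ)‖ := by
    rw [norm_mul, norm_I, one_mul]
  rw [← hn, hleft]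
  refine (norm_add_le _ _).trans ?_
  have hn2 : ‖I * (∫ y in U1..U2, H (⟨1 / 2 + dd H' T, y⟩ : ℂ))‖ =
      ‖∫ y in U1..U2, H (⟨1 / 2 + dd H' T, y⟩ : ℂ)‖ := by
    rw [norm_mul, norm_I, one_mul]
  rw [hn2]
  have := norm_sub_le (∫ x in (5 / 2 : ℝ)..(1 / 2 + dd H' T), H (⟨x, U1⟩ : ℂ))
    (∫ x in (5 / 2 : ℝ)..(1 / 2 + dd H' T), H (⟨x, U2⟩ : ℂ))
  linarith

end Pool.Agent.W192.AW
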