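import Pool.Agent.W192.AW.MV2

open Complex Filter Topology Set MeasureTheory

namespace Pool.Agent.W192.AW

open SG hiding dd nn Sep cc
open SG.Deep SG.MVaux SG.MNaux Pool.Agent.W192.SI

/-- the constant `c` -/
noncomputable def cN (ε T : ℝ) (N : ℕ) : ℝ := (1 + ε) / (1 + Real.log N / Real.log T)

theorem cN_facts {ε H T : ℝ} {N : ℕ} (hA : Adm H T) (hN : 1 ≤ N) (hNT : (N : ℝ) ≤ T)
    (hε : 0 ≤ ε) (hε1 : ε ≤ 1 / 2) :
    1 / 2 ≤ cN ε T N ∧ cN ε T N < 2 := by
  have hL := hA.log_ge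
  have hN1 : (1 : ℝ) ≤ N := by exact_mod_cast hN
  have h0 : 0 ≤ Real.log N := Real.log_nonneg hN1
  have h1 : Real.log N / Real.log T ≤ 1 := by
    rw [div_le_one (by linarith)]
    exact Real.log_le_log (by linarith) hNT
  have h2 : 0 ≤ Real.log N / Real.log T := by positivity
  unfold cN
  constructor
  · rw [div_le_div_iff₀ (by norm_num) (by linarith)]
    linarith
  · rw [div_lt_iff₀ (by linarith)]
    linarith

/-- the tail of the main integral is small -/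
theorem tail_small : ∃ T0 : ℝ, ∀ (H T W : ℝ) (N : ℕ), Win H T W N → T0 ≤ T →
    ∀ U1 U2 : ℝ, W ≤ U1 → U1 ≤ W + 20 → W + H - 20 ≤ U2 → U2 ≤ W + H → ∀ a b : ℝ,
    ‖(∫ t : ℝ, (Real.exp (-(t - (W + H / 2)) ^ 2 / (2 * dd H T ^ 2)) : ℂ) *
        AA (N) (1 / 2 + I * (t + a)) * AA (N) (1 / 2 - I * (t + b))) -
      ∫ t in U1..U2, (Real.exp (-(t - (W + H / 2)) ^ 2 / (2 * dd H T ^ 2)) : ℂ) *
        AA (N) (1 / 2 + I * (t + a)) * AA (N) (1 / 2 - I * (t + b))‖ ≤ 1 := by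
  obtain ⟨T0, hT0⟩ := eventually_atTop.mp (ev_small4' 4 (1 / 64) (1 / 6) (by norm_num) (by norm_num))
  refine ⟨T0, fun H T W N hW hT U1 U2 hU1 hU1' hU2 hU2' a b => ?_⟩
  obtain ⟨hA, hTW, hW2, hN2, hNT⟩ := hW
  have hTpos : 0 < T := hA.T_pos
  have hT100 := hA.T_ge'
  have hHge := hA.H_ge
  norm_num at hHge
  set D := dd H T with hDdef
  set t0 := W + H / 2 with ht0
  have hD : 0 < D := hA.dd_pos
  set F : ℝ → ℂ := fun t => (Real.exp (-(t - t0) ^ 2 / (2 * D ^ 2)) : ℂ) *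
        AA N (1 / 2 + I * (t + a)) * AA N (1 / 2 - I * (t + b)) with hF
  have hFi : Integrable F := main_int N D t0 a b hD
  have h12 : U1 ≤ U2 := by linarith
  rw [intervalIntegral.integral_of_le h12]
  have hsplit := integral_add_compl (μ := volume) (measurableSet_Ioc (a := U1) (b := U2)) hFi
  rw [← hsplit, add_sub_cancel_left]
  have hN : (0 : ℝ) < N := by exact_mod_cast (by omega : 0 < N)
  have hDT : D ≤ T := by linarith [hA.dd_le_T]
  -- pointwise bound on the complement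
  have hD2 : D ^ 2 * Real.log T ^ 4 = H ^ 2 := by
    have h := hA.dd_sq
    calc D ^ 2 * Real.log T ^ 4 = (dd H T * Real.log T ^ 2) ^ 2 := by rw [hDdef]; ring
      _ = H ^ 2 := by rw [h]
  have hpt : ∀ t ∈ (Ioc U1 U2)ᶜ, ‖F t‖ ≤
      T ^ 2 * Real.exp (-(1 / 64) * Real.log T ^ 4) * Real.exp (-(t - t0) ^ 2 / (2 * (√2 * D) ^ 2)) := by
    intro t ht
    have hs2 : (√2 * D) ^ 2 = 2 * D ^ 2 := by
      rw [mul_pow, Real.sq_sqrt (by norm_num)]
    have htt : (H / 4) ^ 2 ≤ (t - t0) ^ 2 := by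
      rw [mem_compl_iff, mem_Ioc, not_and_or, not_lt, not_le] at ht
      rcases ht with ht | ht
      · have : H / 4 ≤ t0 - t := by rw [ht0]; linarith
        nlinarith
      · have : H / 4 ≤ t - t0 := by rw [ht0]; linarith
        nlinarith
    have hA : ‖AA N (1 / 2 + I * (t + a))‖ ≤ T := by
      have := AA_half N (t + a)
      push_cast at this
      linarith
    have hB : ‖AA N (1 / 2 - I * (t + b))‖ ≤ T := by
      have := AA_half' N (t + b)
      push_cast at this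
      linarith
    have hE : Real.exp (-(t - t0) ^ 2 / (2 * D ^ 2)) ≤
        Real.exp (-(1 / 64) * Real.log T ^ 4) * Real.exp (-(t - t0) ^ 2 / (2 * (√2 * D) ^ 2)) := by
      rw [← Real.exp_add, hs2]
      apply Real.exp_le_exp.mpr
      have e1 : -(t - t0) ^ 2 / (2 * D ^ 2) = -(t - t0) ^ 2 / (2 * (2 * D ^ 2)) -
          (t - t0) ^ 2 / (4 * D ^ 2) := by
        field_simp
        ring
      rw [e1]
      have e2 : Real.log T ^ 4 / 64 ≤ (t - t0) ^ 2 / (4 * D ^ 2) := by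
        rw [div_le_div_iff₀ (by norm_num) (by positivity)]
        nlinarith
      linarith
    rw [hF]
    simp only
    rw [norm_mul, norm_mul, Complex.norm_real, Real.norm_of_nonneg (Real.exp_pos _).le]
    calc Real.exp (-(t - t0) ^ 2 / (2 * D ^ 2)) * ‖AA N (1 / 2 + I * (t + a))‖ *
          ‖AA N (1 / 2 - I * (t + b))‖
        ≤ (Real.exp (-(1 / 64) * Real.log T ^ 4) * Real.exp (-(t - t0) ^ 2 / (2 * (√2 * D) ^ 2))) * T * T := by
          apply mul_le_mul _ hB (norm_nonneg _) (by positivity)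
          exact mul_le_mul hE hA (norm_nonneg _) (by positivity)
      _ = _ := by ring
  have hs2D : 0 < √2 * D := by positivity
  have hgi := Deep.gauss_integrable (√2 * D) t0 hs2D
  have hgI := Deep.gauss_integral (√2 * D) t0 hs2D
  have hs : Real.sqrt (2 * Real.pi) ≤ 3 := by
    rw [Real.sqrt_le_left (by norm_num)]
    have := Real.pi_lt_d2
    norm_num at this ⊢
    linarith
  have hsq2 : √2 ≤ 2 := by
    rw [Real.sqrt_le_left (by norm_num)]; norm_num
  calc ‖∫ t in (Ioc U1 U2)ᶜ, F t‖ ≤ ∫ t in (Ioc U1 U2)ᶜ,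
        T ^ 2 * Real.exp (-(1 / 64) * Real.log T ^ 4) * Real.exp (-(t - t0) ^ 2 / (2 * (√2 * D) ^ 2)) := by
        apply norm_integral_le_of_norm_le
        · exact (hgi.const_mul _).integrableOn
        · rw [ae_restrict_iff' measurableSet_Ioc.compl]
          exact Eventually.of_forall hpt
    _ ≤ ∫ t, T ^ 2 * Real.exp (-(1 / 64) * Real.log T ^ 4) * Real.exp (-(t - t0) ^ 2 / (2 * (√2 * D) ^ 2)) :=
        setIntegral_le_integral (hgi.const_mul _) (ae_of_all _ fun t => by positivity)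
    _ = T ^ 2 * Real.exp (-(1 / 64) * Real.log T ^ 4) * (√2 * D * Real.sqrt (2 * Real.pi)) := by
        rw [integral_const_mul, hgI]
    _ ≤ T ^ 2 * Real.exp (-(1 / 64) * Real.log T ^ 4) * (2 * T * 3) := by
        apply mul_le_mul_of_nonneg_left _ (by positivity)
        apply mul_le_mul _ hs (Real.sqrt_nonneg _) (by positivity)
        exact mul_le_mul hsq2 hDT hD.le (by norm_num)
    _ ≤ 6 * (T ^ (4 : ℝ) * Real.exp (-(1 / 64) * Real.log T ^ 4)) := by
        rw [show T ^ (4 : ℝ) = T ^ 4 by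
          rw [show (4 : ℝ) = ((4 : ℕ) : ℝ) by norm_num, Real.rpow_natCast]]
        have hE : 0 ≤ Real.exp (-(1 / 64) * Real.log T ^ 4) := (Real.exp_pos _).le
        have : T ^ 3 ≤ T ^ 4 := pow_le_pow_right₀ (by linarith) (by norm_num)
        nlinarith [mul_le_mul_of_nonneg_right this hE]
    _ ≤ 1 := by linarith [hT0 T hT]

/-- mean square of one factor -/
theorem mean_sq : ∃ T0 : ℝ, ∀ (H T W : ℝ) (N : ℕ), Win H T W N → T0 ≤ T →
    ∀ a : ℝ, ‖ODn H T N a a (W + H / 2)‖ ≤ 1 / 3 → Integrable (fun t : ℝ => Real.exp (-(t - (W + H / 2)) ^ 2 / (2 * dd H T ^ 2)) *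
        ‖AA (N) (1 / 2 + I * (t + a))‖ ^ 2) ∧
    ∫ t : ℝ, Real.exp (-(t - (W + H / 2)) ^ 2 / (2 * dd H T ^ 2)) *
        ‖AA (N) (1 / 2 + I * (t + a))‖ ^ 2 ≤ 7 * dd H T * Real.log T := by
  obtain ⟨T0, hT0⟩ := gauss_mv2
  refine ⟨T0, fun H T W N hW hT a hod => ?_⟩
  obtain ⟨hA, hTW, hW2, hN2, hNT⟩ := hW
  have hTpos : 0 < T := hA.T_pos
  have hD : 0 < dd H T := hA.dd_pos
  have hD1 : 1 ≤ dd H T := by linarith [hA.one_le_dd]
  have hlog : 100 ≤ Real.log T := hA.log_ge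
  have hkey : ∀ t : ℝ, ((Real.exp (-(t - (W + H / 2)) ^ 2 / (2 * dd H T ^ 2)) *
        ‖AA (N) (1 / 2 + I * (t + a))‖ ^ 2 : ℝ) : ℂ) =
      (Real.exp (-(t - (W + H / 2)) ^ 2 / (2 * dd H T ^ 2)) : ℂ) *
        AA (N) (1 / 2 + I * (t + a)) * AA (N) (1 / 2 - I * (t + a)) := by
    intro t
    have h1 := AA_conj (N) (t + a)
    push_cast at h1
    rw [h1, mul_assoc, Complex.mul_conj']
    push_cast
    ring
  have hint := main_int (N) (dd H T) (W + H / 2) a a hD
  have hint2 : Integrable (fun t : ℝ => Real.exp (-(t - (W + H / 2)) ^ 2 / (2 * dd H T ^ 2)) *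
        ‖AA (N) (1 / 2 + I * (t + a))‖ ^ 2) := by
    have := hint.re
    refine this.congr (ae_of_all _ fun t => ?_)
    have h1 := congrArg Complex.re (hkey t)
    rw [Complex.ofReal_re] at h1
    exact h1.symm
  refine ⟨hint2, ?_⟩
  have h := hT0 H T N hA hNT hT a a (W + H / 2) hod
  have e1 : (∫ t : ℝ, (Real.exp (-(t - (W + H / 2)) ^ 2 / (2 * dd H T ^ 2)) : ℂ) *
        AA (N) (1 / 2 + I * (t + a)) * AA (N) (1 / 2 - I * (t + a))) =
      ((∫ t : ℝ, Real.exp (-(t - (W + H / 2)) ^ 2 / (2 * dd H T ^ 2)) *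
        ‖AA (N) (1 / 2 + I * (t + a))‖ ^ 2 : ℝ) : ℂ) := by
    rw [← integral_complex_ofReal]
    congr 1
    funext t
    exact (hkey t).symm
  have e2 : ∑ n ∈ Finset.Icc 1 (N), (((ArithmeticFunction.moebius n : ℤ) : ℂ)) ^ 2 *
          (n : ℂ) ^ (-(1 : ℂ) - I * (a - a)) =
      ((∑ n ∈ Finset.Icc 1 (N), ((ArithmeticFunction.moebius n : ℤ) : ℝ) ^ 2 / n : ℝ) : ℂ) := by
    push_cast
    refine Finset.sum_congr rfl fun n hn => ?_
    rw [sub_self, mul_zero, sub_zero, Complex.cpow_neg_one, div_eq_mul_inv]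
  rw [e1, e2, ← Complex.ofReal_mul, ← Complex.ofReal_sub, Complex.norm_real, Real.norm_eq_abs] at h
  have h2 := (abs_le.mp h).2
  have hn1 : 1 ≤ N := by omega
  have h3 := sq_sum_le (N) hn1
  have hlogN : Real.log (N) ≤ Real.log T := by
    apply Real.log_le_log (by exact_mod_cast hn1)
    exact hNT
  have hs : Real.sqrt (2 * Real.pi) ≤ 3 := by
    rw [Real.sqrt_le_left (by norm_num)]
    have := Real.pi_lt_d2
    norm_num at this ⊢
    linarith
  have hs0 : 0 ≤ Real.sqrt (2 * Real.pi) := Real.sqrt_nonneg _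
  have h4 : dd H T * Real.sqrt (2 * Real.pi) *
      ∑ n ∈ Finset.Icc 1 (N), ((ArithmeticFunction.moebius n : ℤ) : ℝ) ^ 2 / n ≤
      dd H T * 3 * (2 * Real.log T) := by
    apply mul_le_mul
    · exact mul_le_mul_of_nonneg_left hs hD.le
    · linarith
    · exact Finset.sum_nonneg fun n _ => by positivity
    · positivity
  have h5 : 2 * dd H T ≤ dd H T * Real.log T := by nlinarith
  linarith

/-- final output -/
theorem main_neg : ∃ c1 C T0 : ℝ, 0 < c1 ∧ 0 < C ∧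
    ∀ (ε H T W : ℝ) (N : ℕ), 0 ≤ ε → ε ≤ 1 / 2 → Win H T W N → T0 ≤ T →
    G1 H T N (dl (cN ε T N) T) (W + H / 2) →
    ∀ U1 U2 : ℝ, W ≤ U1 → U1 ≤ W + 20 → W + H - 20 ≤ U2 → U2 ≤ W + H →
    ((I / (2 * Real.pi)) * ∫ t in U1..U2, phi (W + H / 2) (dd H T) (⟨1 / 2, t⟩ : ℂ) *
      rr (dl (cN ε T N) T) (⟨1 / 2, t⟩ : ℂ) * AA (N) ((⟨1 / 2, t⟩ : ℂ) + hh (dl (cN ε T N) T)) *
      AA (N) (1 - ((⟨1 / 2, t⟩ : ℂ) - hh (dl (cN ε T N) T)))).re ≤
      dd H T * (-c1 * ε * Real.log (N) + C) := by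
  obtain ⟨c1, C0, hc10, hC0, hosc⟩ := SI.osc
  obtain ⟨T2, hmv⟩ := gauss_mv2
  obtain ⟨T3, htail⟩ := AW.tail_small
  obtain ⟨T4, hms⟩ := AW.mean_sq
  obtain ⟨C, hC1, hph⟩ := SI.rr_phase
  set T0 : ℝ := max T2 (max T3 T4) with hT0def
  refine ⟨c1 / 4, C0 + 7 * C + 3, T0, by positivity, by positivity,
    fun ε H T W N hε0 hε1 hW hT hGG U1 U2 hU1 hU1' hU2 hU2' => ?_⟩
  obtain ⟨hA, hTW, hW2, hN2, hNT⟩ := hW
  have hWin : Win H T W N := ⟨hA, hTW, hW2, hN2, hNT⟩
  have hT2 : T2 ≤ T := (le_max_left _ _).trans hT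
  have hT3 : T3 ≤ T := ((le_max_left _ _).trans (le_max_right _ _)).trans hT
  have hT4 : T4 ≤ T := ((le_max_right _ _).trans (le_max_right _ _)).trans hT
  have hTpos : 0 < T := hA.T_pos
  have hT10 : 10 ≤ T := by linarith [hA.T_ge']
  have hlog100 : 100 ≤ Real.log T := hA.log_ge
  obtain ⟨hcc1, hcc2⟩ := cN_facts hA (by omega : 1 ≤ N) hNT hε0 hε1
  have hHge := hA.H_ge
  norm_num at hHge
  have hHT := hA.hi
  set c := cN ε T N with hcdef
  set L := Real.log T with hL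
  set D := dd H T with hDdef
  set δ := dl c T with hδdef
  set t0 := W + H / 2 with ht0
  have hD : 0 < D := hA.dd_pos
  have hD1 : 1 ≤ D := by linarith [hA.one_le_dd]
  have hpi := Real.pi_gt_three
  have hpi4 := Real.pi_lt_four
  have hL0 : 0 < L := by linarith
  have hc0 : 0 < c := by linarith
  have hδ0 : 0 < δ := hA.dl_pos hc0
  have hδ1 : |δ| ≤ 1 := by
    rw [abs_of_pos hδ0]
    linarith [hA.dl_le hcc2]
  have h12 : U1 ≤ U2 := by linarith
  -- the functions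
  set G : ℝ → ℂ := fun t => (Real.exp (-(t - t0) ^ 2 / (2 * D ^ 2)) : ℂ) *
        AA N (1 / 2 + I * (t + (δ / 2 : ℝ))) * AA N (1 / 2 - I * (t + (-(δ / 2) : ℝ))) with hG
  set e : ℂ := cexp (-(Real.pi * c : ℝ) * I) with he
  have henorm : ‖e‖ = 1 := by
    rw [he, Complex.norm_exp]
    have : (-(Real.pi * c : ℝ) * I : ℂ).re = 0 := by simp
    rw [this, Real.exp_zero]
  have hGi : Integrable G := main_int N D t0 _ _ hD
  have hcongr : (∫ t in U1..U2, phi t0 D (⟨1 / 2, t⟩ : ℂ) * rr δ (⟨1 / 2, t⟩ : ℂ) *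
      AA N ((⟨1 / 2, t⟩ : ℂ) + hh δ) * AA N (1 - ((⟨1 / 2, t⟩ : ℂ) - hh δ))) =
      ∫ t in U1..U2, (e * G t + (rr δ (⟨1 / 2, t⟩ : ℂ) - e) * G t) := by
    apply intervalIntegral.integral_congr
    intro t _
    simp only
    rw [phi_line, AAp, AAm, hG]
    ring
  have hcont : IntervalIntegrable (fun t => (rr δ (⟨1 / 2, t⟩ : ℂ) - e) * G t) volume U1 U2 := by
    apply IntervalIntegrable.continuousOn_mul (f := G) hGi.intervalIntegrable
    rw [uIcc_of_le h12]
    exact (rr_cont δ hδ1 U1 U2 (by linarith)).sub continuousOn_const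
  rw [hcongr, intervalIntegral.integral_add (hGi.intervalIntegrable.const_mul e) hcont,
    intervalIntegral.integral_const_mul]
  -- error term
  set G1 : ℝ → ℝ := fun t => Real.exp (-(t - t0) ^ 2 / (2 * D ^ 2)) *
        ‖AA N (1 / 2 + I * (t + (δ / 2 : ℝ)))‖ ^ 2 with hG1
  set G2 : ℝ → ℝ := fun t => Real.exp (-(t - t0) ^ 2 / (2 * D ^ 2)) *
        ‖AA N (1 / 2 + I * (t + (-(δ / 2) : ℝ)))‖ ^ 2 with hG2
  obtain ⟨hG1i, hG1b⟩ := hms H T W N hWin hT4 (δ / 2) hGG.g2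
  obtain ⟨hG2i, hG2b⟩ := hms H T W N hWin hT4 (-(δ / 2)) hGG.g3
  have hGle : ∀ t, ‖G t‖ ≤ (G1 t + G2 t) / 2 := by
    intro t
    rw [hG, hG1, hG2]
    simp only
    rw [norm_mul, norm_mul, Complex.norm_real, Real.norm_of_nonneg (Real.exp_pos _).le]
    have h1 := AA_conj N (t + (-(δ / 2)))
    push_cast at h1
    push_cast
    rw [h1, Complex.norm_conj]
    have h2 := two_mul_le_add_sq ‖AA N (1 / 2 + I * (t + δ / 2))‖ ‖AA N (1 / 2 + I * (t + -(δ / 2)))‖
    have h3 := Real.exp_pos (-(t - t0) ^ 2 / (2 * D ^ 2))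
    nlinarith
  have herr : ‖∫ t in U1..U2, (rr δ (⟨1 / 2, t⟩ : ℂ) - e) * G t‖ ≤ 7 * C * D := by
    have hCL : 0 ≤ C / L := by positivity
    calc ‖∫ t in U1..U2, (rr δ (⟨1 / 2, t⟩ : ℂ) - e) * G t‖
        ≤ ∫ t in U1..U2, (C / L) * ((G1 t + G2 t) / 2) := by
          apply intervalIntegral.norm_integral_le_of_norm_le h12
          · refine ae_of_all _ fun t ht => ?_
            rw [norm_mul]
            apply mul_le_mul _ (hGle t) (norm_nonneg _) hCL
            exact hph c H T hc0 hcc2 hA t (by linarith [ht.1]) (by linarith [ht.2])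
          · exact (((hG1i.add hG2i).div_const 2).const_mul (C / L)).intervalIntegrable
      _ ≤ ∫ t, (C / L) * ((G1 t + G2 t) / 2) := by
          rw [intervalIntegral.integral_of_le h12]
          apply setIntegral_le_integral (((hG1i.add hG2i).div_const 2).const_mul (C / L))
          refine ae_of_all _ fun t => ?_
          have hg1 : 0 ≤ G1 t := mul_nonneg (Real.exp_pos _).le (by positivity)
          have hg2 : 0 ≤ G2 t := mul_nonneg (Real.exp_pos _).le (by positivity)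
          exact mul_nonneg hCL (div_nonneg (add_nonneg hg1 hg2) (by norm_num))
      _ = (C / L) * (((∫ t, G1 t) + ∫ t, G2 t) / 2) := by
          rw [integral_const_mul, integral_div, integral_add hG1i hG2i]
      _ ≤ (C / L) * ((7 * D * L + 7 * D * L) / 2) := by
          apply mul_le_mul_of_nonneg_left _ hCL
          linarith
      _ = 7 * C * D := by
          field_simp
          ring
  -- main term
  set S : ℂ := ∑ n ∈ Finset.Icc 1 N, (((ArithmeticFunction.moebius n : ℤ) : ℂ)) ^ 2 *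
          (n : ℂ) ^ (-(1 : ℂ) - I * ((δ / 2 : ℝ) - (-(δ / 2) : ℝ))) with hS
  have hm1 := hmv H T N hA hNT hT2 (δ / 2) (-(δ / 2)) t0 hGG.g1
  have hm2 := htail H T W N hWin hT3 U1 U2 hU1 hU1' hU2 hU2' (δ / 2) (-(δ / 2))
  have hdiff : ‖(∫ t in U1..U2, G t) - ((D * Real.sqrt (2 * Real.pi) : ℝ) : ℂ) * S‖ ≤ 2 * D + 1 := by
    have e1 : (∫ t in U1..U2, G t) - ((D * Real.sqrt (2 * Real.pi) : ℝ) : ℂ) * S =
        ((∫ t, G t) - ((D * Real.sqrt (2 * Real.pi) : ℝ) : ℂ) * S) -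
          ((∫ t, G t) - ∫ t in U1..U2, G t) := by ring
    rw [e1]
    calc _ ≤ ‖(∫ t, G t) - ((D * Real.sqrt (2 * Real.pi) : ℝ) : ℂ) * S‖ +
          ‖(∫ t, G t) - ∫ t in U1..U2, G t‖ := norm_sub_le _ _
      _ ≤ 2 * D + 1 := add_le_add hm1 hm2
  have hosc' := hosc T ε N (by linarith) hN2 hNT hε0 hε1
  have hre : (I * (e * S)).re = ∑ n ∈ Finset.Icc 1 N, ((ArithmeticFunction.moebius n : ℤ) : ℝ) ^ 2 / n *
      Real.sin (Real.pi * c + δ * Real.log n) := by
    rw [hS, Finset.mul_sum, Finset.mul_sum, Complex.re_sum]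
    refine Finset.sum_congr rfl fun n hn => ?_
    have hn1 := (Finset.mem_Icc.mp hn).1
    have hn0 : (0 : ℝ) < n := by exact_mod_cast hn1
    rw [cpow_nat n hn1]
    have e1 : I * (e * ((((ArithmeticFunction.moebius n : ℤ) : ℂ)) ^ 2 *
        cexp ((Real.log n : ℝ) * (-(1 : ℂ) - I * ((δ / 2 : ℝ) - (-(δ / 2) : ℝ)))))) =
        ((((ArithmeticFunction.moebius n : ℤ) : ℝ) ^ 2 / n : ℝ) : ℂ) *
          (I * cexp (-((Real.pi * c + δ * Real.log n : ℝ) : ℂ) * I)) := by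
      have e2 : cexp ((Real.log n : ℝ) * (-(1 : ℂ) - I * ((δ / 2 : ℝ) - (-(δ / 2) : ℝ)))) =
          ((1 / n : ℝ) : ℂ) * cexp (-((δ * Real.log n : ℝ) : ℂ) * I) := by
        have e3 : ((1 / n : ℝ) : ℂ) = cexp ((-Real.log n : ℝ)) := by
          rw [← Complex.ofReal_exp, Real.exp_neg, Real.exp_log hn0, one_div]
        rw [e3, ← Complex.exp_add]
        congr 1
        push_cast
        ring
      have e4 : cexp (-((Real.pi * c + δ * Real.log n : ℝ) : ℂ) * I) =
          e * cexp (-((δ * Real.log n : ℝ) : ℂ) * I) := by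
        rw [he, ← Complex.exp_add]
        congr 1
        push_cast
        ring
      rw [e2, e4]
      push_cast
      ring
    rw [e1, Complex.re_ofReal_mul]
    congr 1
    rw [Complex.I_mul_re, ← Complex.ofReal_neg, Complex.exp_ofReal_mul_I_im, Real.sin_neg, neg_neg]
  have hcomb : ((I / (2 * Real.pi)) * (e * (∫ t in U1..U2, G t) +
      ∫ t in U1..U2, (rr δ (⟨1 / 2, t⟩ : ℂ) - e) * G t)).re =
      (D * Real.sqrt (2 * Real.pi) / (2 * Real.pi)) * (I * (e * S)).re +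
      ((I / (2 * Real.pi)) * (e * ((∫ t in U1..U2, G t) -
        ((D * Real.sqrt (2 * Real.pi) : ℝ) : ℂ) * S) +
        ∫ t in U1..U2, (rr δ (⟨1 / 2, t⟩ : ℂ) - e) * G t)).re := by
    rw [← Complex.re_ofReal_mul, ← Complex.add_re]
    congr 1
    push_cast
    ring
  rw [hcomb, hre]
  have hsmall : ((I / (2 * Real.pi)) * (e * ((∫ t in U1..U2, G t) -
        ((D * Real.sqrt (2 * Real.pi) : ℝ) : ℂ) * S) +
        ∫ t in U1..U2, (rr δ (⟨1 / 2, t⟩ : ℂ) - e) * G t)).re ≤ (2 * D + 1) + 7 * C * D := by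
    refine (Complex.re_le_norm _).trans ?_
    rw [norm_mul]
    have h1 : ‖(I / (2 * Real.pi) : ℂ)‖ ≤ 1 := by
      rw [norm_div, Complex.norm_I, norm_mul, Complex.norm_real, Real.norm_of_nonneg Real.pi_pos.le,
        Complex.norm_ofNat, div_le_one (by positivity)]
      linarith
    calc _ ≤ 1 * ((2 * D + 1) + 7 * C * D) := by
          apply mul_le_mul h1 _ (norm_nonneg _) zero_le_one
          refine (norm_add_le _ _).trans (add_le_add ?_ herr)
          rw [norm_mul, henorm, one_mul]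
          exact hdiff
      _ = _ := one_mul _
  -- sqrt(2π)/(2π) ≥ 1/4
  have hs2 : 2 ≤ Real.sqrt (2 * Real.pi) := by
    apply Real.le_sqrt_of_sq_le
    linarith
  have hsq : 1 / 4 ≤ Real.sqrt (2 * Real.pi) / (2 * Real.pi) := by
    rw [div_le_div_iff₀ (by norm_num) (by positivity)]
    linarith
  have hsq2 : Real.sqrt (2 * Real.pi) / (2 * Real.pi) ≤ 1 := by
    rw [div_le_one (by positivity), Real.sqrt_le_left (by positivity)]
    nlinarith
  have hmain : (D * Real.sqrt (2 * Real.pi) / (2 * Real.pi)) *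
      (∑ n ∈ Finset.Icc 1 N, ((ArithmeticFunction.moebius n : ℤ) : ℝ) ^ 2 / n *
      Real.sin (Real.pi * c + δ * Real.log n)) ≤ D * (-(c1 / 4) * ε * Real.log N + C0) := by
    have hlN : 0 ≤ Real.log N := Real.log_nonneg (by exact_mod_cast (by omega : 1 ≤ N))
    set q := Real.sqrt (2 * Real.pi) / (2 * Real.pi) with hq
    have e0 : D * Real.sqrt (2 * Real.pi) / (2 * Real.pi) = D * q := by rw [hq]; ring
    rw [e0]
    have hq0 : 0 ≤ q := by linarith
    have h2 : 0 ≤ c1 * ε * Real.log N := by positivity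
    calc _ ≤ (D * q) * (-c1 * ε * Real.log N + C0) :=
          mul_le_mul_of_nonneg_left hosc' (by positivity)
      _ = D * (q * (-(c1 * ε * Real.log N)) + q * C0) := by ring
      _ ≤ D * (1 / 4 * (-(c1 * ε * Real.log N)) + 1 * C0) := by
          apply mul_le_mul_of_nonneg_left _ hD.le
          apply add_le_add
          · exact mul_le_mul_of_nonpos_right hsq (by linarith)
          · exact mul_le_mul_of_nonneg_right hsq2 hC0.le
      _ = _ := by ring
  have hfin : (2 * D + 1) + 7 * C * D ≤ (7 * C + 3) * D := by nlinarith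
  calc _ ≤ D * (-(c1 / 4) * ε * Real.log N + C0) + ((2 * D + 1) + 7 * C * D) := add_le_add hmain hsmall
    _ ≤ D * (-(c1 / 4) * ε * Real.log N + C0) + (7 * C + 3) * D := by linarith
    _ = _ := by ring

end Pool.Agent.W192.AW
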