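import Pool.Agent.H382R2.Nodes
import Pool.Agent.W192.SI.Nodes
import Pool.Agent.W192.AW.Win

open Complex Filter Topology Set MeasureTheory

namespace Pool.Agent.W192.AW

open SG hiding dd nn Sep cc
open SG.Asm Pool.Agent.W192.SI

/-- the nodes and the residue identity for a general numerator -/
lemma nodes (c H T W t0 D U1 U2 : ℝ) (hTW : T ≤ W) (hT : 100 ≤ T) (hδ : 0 < dl c T) (hδ1 : dl c T ≤ 1)
    (hS : SI.Sep (dl c T) H W) (h1 : W + 6 ≤ U1) (h12 : U1 < U2) (h2 : U2 ≤ W + H - 6)
    (hg1 : ∀ s : ℂ, 0 < s.re → s.re < 1 → riemannZeta s = 0 →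
      W ≤ s.im → s.im ≤ W + H →
      dl c T / 2 ≤ |s.im - (U1 + dl c T / 2)| ∧ dl c T / 2 ≤ |s.im - (U1 - dl c T / 2)|)
    (hg2 : ∀ s : ℂ, 0 < s.re → s.re < 1 → riemannZeta s = 0 →
      W ≤ s.im → s.im ≤ W + H →
      dl c T / 2 ≤ |s.im - (U2 + dl c T / 2)| ∧ dl c T / 2 ≤ |s.im - (U2 - dl c T / 2)|) :
    ∃ (Z1 Z2 : Finset ℝ) (v v' : ℝ → ℝ), (∀ g ∈ Z1, 0 < v g) ∧ (∀ g ∈ Z2, 0 < v' g) ∧
      (∀ g ∈ Z1, riemannZeta (1 / 2 + I * g) = 0) ∧ (∀ g ∈ Z2, riemannZeta (1 / 2 + I * g) = 0) ∧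
      (∀ g ∈ Z1, 10 ≤ g) ∧ (∀ g ∈ Z2, 10 ≤ g) ∧
      ∀ F : ℂ → ℂ, (∀ s ∈ Set.Icc (-3 / 2 : ℝ) (5 / 2) ×ℂ Set.Icc U1 U2, AnalyticAt ℂ F s) →
      rectI (fun s => PP t0 D (dl c T) s * F s) (-3 / 2) (5 / 2) U1 U2 =
        2 * Real.pi * I * (∑ g ∈ Z1, I * v g * F (1 / 2 + I * g + hh (dl c T)) -
          ∑ g ∈ Z2, I * v' g * F (1 / 2 + I * g - hh (dl c T))) := by
  classical
  set δ := dl c T with hδdef
  have hδabs : |δ| ≤ 1 := by rwa [abs_of_pos hδ]
  set G : Finset ℝ := (SI.ord_finite δ H W hδ hS).toFinset with hG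
  have memG : ∀ g : ℝ, g ∈ G ↔ W ≤ g ∧ g ≤ W + H ∧ riemannZeta (1 / 2 + I * g) = 0 := by
    intro g
    rw [hG, Set.Finite.mem_toFinset]
    rfl
  set Z1 := G.filter (fun g => U1 < g + δ / 2 ∧ g + δ / 2 < U2) with hZ1
  set Z2 := G.filter (fun g => U1 < g - δ / 2 ∧ g - δ / 2 < U2) with hZ2
  set n1 : ℝ → ℂ := fun g => 1 / 2 + I * g + hh δ with hn1
  set n2 : ℝ → ℂ := fun g => 1 / 2 + I * g - hh δ with hn2
  have n1e : ∀ g, n1 g = ⟨1 / 2, g + δ / 2⟩ := fun g => by
    simp only [hn1]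
    rw [half_eq, add_hh']
  have n2e : ∀ g, n2 g = ⟨1 / 2, g - δ / 2⟩ := fun g => by
    simp only [hn2]
    rw [half_eq, sub_hh']
  have inj1 : Function.Injective n1 := by
    intro g g' h
    rw [n1e, n1e] at h
    have := congrArg im h
    simp only at this
    linarith
  have inj2 : Function.Injective n2 := by
    intro g g' h
    rw [n2e, n2e] at h
    have := congrArg im h
    simp only at this
    linarith
  -- separation for all real g'
  have sepR : ∀ g : ℝ, riemannZeta (1 / 2 + I * g) = 0 → W + 3 ≤ g → g ≤ W + H - 3 →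
      ∀ g' : ℝ, riemannZeta (1 / 2 + I * g') = 0 → g' ≠ g → δ < |g' - g| := by
    intro g hz hga hgb g' hz' hne
    by_contra hle
    push Not at hle
    rw [abs_le] at hle
    have hne' : (1 / 2 + I * (g' : ℂ)) ≠ (1 / 2 + I * (g : ℂ)) := by
      rw [half_eq, half_eq]
      intro h
      exact hne (congrArg im h)
    have := hS.sep (1 / 2 + I * g') (1 / 2 + I * g) (by rw [half_eq]; norm_num)
      (by rw [half_eq]; norm_num) (by rw [half_eq]; simp only; linarith)
      (by rw [half_eq]; simp only; linarith) hz'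
      (by rw [half_eq]; norm_num) (by rw [half_eq]; norm_num)
      (by rw [half_eq]; simp only; linarith)
      (by rw [half_eq]; simp only; linarith) hz hne'
    rw [half_eq, half_eq] at this
    simp only at this
    have h5 : |g' - g| ≤ δ := abs_le.mpr hle
    linarith
  have simp1 : ∀ g : ℝ, riemannZeta (1 / 2 + I * g) = 0 → W ≤ g → g ≤ W + H →
      deriv riemannZeta (1 / 2 + I * g) ≠ 0 := by
    intro g hz hga hgb
    exact hS.simple _ (by rw [half_eq]; norm_num) (by rw [half_eq]; norm_num)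
      (by rw [half_eq]; exact hga) (by rw [half_eq]; exact hgb) hz
  have rng1 : ∀ g ∈ Z1, W + 3 ≤ g ∧ g ≤ W + H - 3 ∧ riemannZeta (1 / 2 + I * g) = 0 := by
    intro g hg
    rw [hZ1, Finset.mem_filter, memG] at hg
    exact ⟨by linarith [hg.2.1], by linarith [hg.2.2], hg.1.2.2⟩
  have rng2 : ∀ g ∈ Z2, W + 3 ≤ g ∧ g ≤ W + H - 3 ∧ riemannZeta (1 / 2 + I * g) = 0 := by
    intro g hg
    rw [hZ2, Finset.mem_filter, memG] at hg
    exact ⟨by linarith [hg.2.1], by linarith [hg.2.2], hg.1.2.2⟩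
  have rs : ∀ g : ℝ, W + 3 ≤ g → g ≤ W + H - 3 → riemannZeta (1 / 2 + I * g) = 0 →
      (∃ v : ℝ, 0 < v ∧ deriv (LL δ) (1 / 2 + I * g + hh δ) ≠ 0 ∧
      NU t0 D (1 / 2 + I * g + hh δ) / deriv (LL δ) (1 / 2 + I * g + hh δ) = I * v) ∧
    (∃ v : ℝ, 0 < v ∧ deriv (LL δ) (1 / 2 + I * g - hh δ) ≠ 0 ∧
      NU t0 D (1 / 2 + I * g - hh δ) / deriv (LL δ) (1 / 2 + I * g - hh δ) = -(I * v)) := by
    intro g ha hb hz
    exact res_sign t0 D δ g hδ hδ1 (by linarith) hz (simp1 g hz (by linarith)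
      (by linarith)) (sepR g hz ha hb)
  set v : ℝ → ℝ := fun g => (NU t0 D (n1 g) / deriv (LL δ) (n1 g)).im with hv
  set v' : ℝ → ℝ := fun g => -(NU t0 D (n2 g) / deriv (LL δ) (n2 g)).im with hv'
  have hv1 : ∀ g ∈ Z1, 0 < v g ∧ deriv (LL δ) (n1 g) ≠ 0 ∧
      NU t0 D (n1 g) / deriv (LL δ) (n1 g) = I * v g := by
    intro g hg
    obtain ⟨ha, hb, hz⟩ := rng1 g hg
    obtain ⟨w, hw, hd, he⟩ := (rs g ha hb hz).1
    have : v g = w := by
      simp only [hv, hn1]
      rw [he]
      simp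
    refine ⟨by rw [this]; exact hw, hd, ?_⟩
    rw [this]
    exact he
  have hv2 : ∀ g ∈ Z2, 0 < v' g ∧ deriv (LL δ) (n2 g) ≠ 0 ∧
      NU t0 D (n2 g) / deriv (LL δ) (n2 g) = -(I * v' g) := by
    intro g hg
    obtain ⟨ha, hb, hz⟩ := rng2 g hg
    obtain ⟨w, hw, hd, he⟩ := (rs g ha hb hz).2
    have : v' g = w := by
      simp only [hv', hn2]
      rw [he]
      simp
    refine ⟨by rw [this]; exact hw, hd, ?_⟩
    rw [this]
    exact he
  refine ⟨Z1, Z2, v, v', fun g hg => (hv1 g hg).1, fun g hg => (hv2 g hg).1,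
    fun g hg => (rng1 g hg).2.2, fun g hg => (rng2 g hg).2.2,
    fun g hg => by linarith [(rng1 g hg).1], fun g hg => by linarith [(rng2 g hg).1], ?_⟩
  intro F hF
  set Z : Finset ℂ := Z1.image n1 ∪ Z2.image n2 with hZ
  have hdisj : Disjoint (Z1.image n1) (Z2.image n2) := by
    rw [Finset.disjoint_left]
    intro z hz1 hz2
    obtain ⟨g, hg, rfl⟩ := Finset.mem_image.mp hz1
    obtain ⟨g', hg', he⟩ := Finset.mem_image.mp hz2
    rw [n1e, n2e] at he
    have him := congrArg im he
    simp only at him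
    obtain ⟨ha, hb, hz⟩ := rng1 g hg
    obtain ⟨ha', hb', hz'⟩ := rng2 g' hg'
    have := sepR g hz ha hb g' hz' (by intro h; linarith)
    rw [show g' - g = δ by linarith, abs_of_pos hδ] at this
    exact lt_irrefl _ this
  have hmemZ : ∀ s ∈ Set.Icc (-3 / 2 : ℝ) (5 / 2) ×ℂ Set.Icc U1 U2, (LL δ s = 0 ↔ s ∈ Z) := by
    intro s hs
    have him := rect_im hs
    rw [LL_zero δ hδabs s (by linarith), hZ, Finset.mem_union, Finset.mem_image,
      Finset.mem_image]
    constructor
    · rintro (⟨hz, hr1, hr2⟩ | ⟨hz, hr1, hr2⟩)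
      · right
        have e1 : (s + hh δ).im = s.im + δ / 2 := by rw [add_im, hh_im]
        have e2 : (s + hh δ).re = s.re := by rw [add_re, hh_re, add_zero]
        have hre := hS.line (s + hh δ) (by rw [e2]; exact hr1) (by rw [e2]; exact hr2)
          (by rw [e1]; linarith) (by rw [e1]; linarith) hz
        rw [e2] at hre
        have heq : s + hh δ = 1 / 2 + I * ((s.im + δ / 2 : ℝ) : ℂ) := by
          rw [half_eq]
          apply Complex.ext
          · rw [e2]; exact hre
          · rw [e1]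
        refine ⟨s.im + δ / 2, ?_, ?_⟩
        · rw [hZ2, Finset.mem_filter, memG]
          have k1 := (hg1 (s + hh δ) (by rw [e2]; exact hr1) (by rw [e2]; exact hr2) hz
            (by rw [e1]; linarith) (by rw [e1]; linarith)).1
          have k2 := (hg2 (s + hh δ) (by rw [e2]; exact hr1) (by rw [e2]; exact hr2) hz
            (by rw [e1]; linarith) (by rw [e1]; linarith)).1
          rw [e1] at k1 k2
          refine ⟨⟨by linarith, by linarith, by rw [← heq]; exact hz⟩, ?_, ?_⟩
          · rcases lt_or_eq_of_le him.1 with h | h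
            · linarith
            · rw [← h, sub_self, abs_zero] at k1
              linarith
          · rcases lt_or_eq_of_le him.2 with h | h
            · linarith
            · rw [h, sub_self, abs_zero] at k2
              linarith
        · simp only [hn2]
          rw [← heq]
          ring
      · left
        have e1 : (s - hh δ).im = s.im - δ / 2 := by rw [sub_im, hh_im]
        have e2 : (s - hh δ).re = s.re := by rw [sub_re, hh_re, sub_zero]
        have hre := hS.line (s - hh δ) (by rw [e2]; exact hr1) (by rw [e2]; exact hr2)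
          (by rw [e1]; linarith) (by rw [e1]; linarith) hz
        rw [e2] at hre
        have heq : s - hh δ = 1 / 2 + I * ((s.im - δ / 2 : ℝ) : ℂ) := by
          rw [half_eq]
          apply Complex.ext
          · rw [e2]; exact hre
          · rw [e1]
        refine ⟨s.im - δ / 2, ?_, ?_⟩
        · rw [hZ1, Finset.mem_filter, memG]
          have k1 := (hg1 (s - hh δ) (by rw [e2]; exact hr1) (by rw [e2]; exact hr2) hz
            (by rw [e1]; linarith) (by rw [e1]; linarith)).2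
          have k2 := (hg2 (s - hh δ) (by rw [e2]; exact hr1) (by rw [e2]; exact hr2) hz
            (by rw [e1]; linarith) (by rw [e1]; linarith)).2
          rw [e1] at k1 k2
          refine ⟨⟨by linarith, by linarith, by rw [← heq]; exact hz⟩, ?_, ?_⟩
          · rcases lt_or_eq_of_le him.1 with h | h
            · linarith
            · rw [← h, sub_self, abs_zero] at k1
              linarith
          · rcases lt_or_eq_of_le him.2 with h | h
            · linarith
            · rw [h, sub_self, abs_zero] at k2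
              linarith
        · simp only [hn1]
          rw [← heq]
          ring
    · rintro (⟨g, hg, rfl⟩ | ⟨g, hg, rfl⟩)
      · right
        obtain ⟨-, -, hz⟩ := rng1 g hg
        refine ⟨?_, by rw [n1e]; norm_num, by rw [n1e]; norm_num⟩
        simp only [hn1]
        rw [add_sub_cancel_right]
        exact hz
      · left
        obtain ⟨-, -, hz⟩ := rng2 g hg
        refine ⟨?_, by rw [n2e]; norm_num, by rw [n2e]; norm_num⟩
        simp only [hn2]
        rw [sub_add_cancel]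
        exact hz
  have hopen : ∀ z ∈ Z, z ∈ Set.Ioo (-3 / 2 : ℝ) (5 / 2) ×ℂ Set.Ioo U1 U2 := by
    intro z hz
    rw [hZ, Finset.mem_union, Finset.mem_image, Finset.mem_image] at hz
    rcases hz with ⟨g, hg, rfl⟩ | ⟨g, hg, rfl⟩
    · rw [n1e]
      rw [hZ1, Finset.mem_filter] at hg
      exact ⟨⟨by norm_num, by norm_num⟩, hg.2⟩
    · rw [n2e]
      rw [hZ2, Finset.mem_filter] at hg
      exact ⟨⟨by norm_num, by norm_num⟩, hg.2⟩
  have hderiv : ∀ z ∈ Z, deriv (LL δ) z ≠ 0 := by
    intro z hz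
    rw [hZ, Finset.mem_union, Finset.mem_image, Finset.mem_image] at hz
    rcases hz with ⟨g, hg, rfl⟩ | ⟨g, hg, rfl⟩
    · exact (hv1 g hg).2.1
    · exact (hv2 g hg).2.1
  have key := rect_res (LL δ) (fun s => NU t0 D s * F s) (-3 / 2) (5 / 2) U1 U2
    (by norm_num) h12 Z hopen
    (fun s hs => LL_analytic δ hδabs s (by linarith [(rect_im hs).1]))
    (fun s hs => (NU_analytic t0 D s (by linarith [(rect_im hs).1])).mul (hF s hs))
    hmemZ hderiv
  have e0 : (fun s => PP t0 D δ s * F s) = (fun s => NU t0 D s * F s / LL δ s) := by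
    ext s
    unfold PP
    ring
  rw [e0, key, hZ, Finset.sum_union hdisj, Finset.sum_image (fun a _ b _ h => inj1 h),
    Finset.sum_image (fun a _ b _ h => inj2 h), sub_eq_add_neg, ← Finset.sum_neg_distrib]
  congr 2
  · apply Finset.sum_congr rfl
    intro g hg
    rw [mul_div_right_comm, (hv1 g hg).2.2]
  · apply Finset.sum_congr rfl
    intro g hg
    rw [mul_div_right_comm, (hv2 g hg).2.2]
    ring

end Pool.Agent.W192.AW
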