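import Pool.Agent.W192.AW.Q
import Pool.Agent.W192.SI.MainNeg

open Complex Filter Topology Set MeasureTheory

namespace Pool.Agent.W192.AW

open SG hiding dd nn Sep cc
open SG.Deep SG.MVaux Pool.Agent.W192.SI

/-- the off-diagonal near sum -/
noncomputable def ODn (H T : ℝ) (N : ℕ) (a b t0 : ℝ) : ℂ :=
  ∑ p ∈ nearP N (xx H T), (KK a b p.1 p.2 *
    ((Real.exp (-(dd H T ^ 2 * lam p ^ 2 / 2)) : ℝ) : ℂ)) * cexp (I * (lam p : ℂ) * t0)

/-- the mean value as an exact sum -/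
theorem mv_identity (N : ℕ) (D t0 a b : ℝ) (hD : 0 < D) :
    (∫ t : ℝ, (Real.exp (-(t - t0) ^ 2 / (2 * D ^ 2)) : ℂ) *
        AA N (1 / 2 + I * (t + a)) * AA N (1 / 2 - I * (t + b))) =
      (D * Real.sqrt (2 * Real.pi) : ℝ) * ∑ p ∈ Finset.Icc 1 N ×ˢ Finset.Icc 1 N,
        (KK a b p.1 p.2 * ((Real.exp (-(D ^ 2 * lam p ^ 2 / 2)) : ℝ) : ℂ)) *
          cexp (I * (lam p : ℂ) * t0) := by
  simp_rw [expand']
  rw [integral_finsetSum _ fun m _ => integrable_finsetSum _ fun n _ =>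
    (ek_int D t0 _ hD).const_mul _]
  rw [Finset.mul_sum, Finset.sum_product]
  refine Finset.sum_congr rfl fun m _ => ?_
  rw [integral_finsetSum _ fun n _ => (ek_int D t0 _ hD).const_mul _]
  refine Finset.sum_congr rfl fun n _ => ?_
  rw [integral_const_mul, ek_val D t0 _ hD]
  unfold lam
  ring

theorem diag_sum (N : ℕ) (D t0 a b : ℝ) :
    ∑ p ∈ (Finset.Icc 1 N ×ˢ Finset.Icc 1 N).filter (fun p : ℕ × ℕ => p.2 = p.1),
        (KK a b p.1 p.2 * ((Real.exp (-(D ^ 2 * lam p ^ 2 / 2)) : ℝ) : ℂ)) *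
          cexp (I * (lam p : ℂ) * t0) =
      ∑ n ∈ Finset.Icc 1 N, (((ArithmeticFunction.moebius n : ℤ) : ℂ)) ^ 2 *
          (n : ℂ) ^ (-(1 : ℂ) - I * (a - b)) := by
  symm
  refine Finset.sum_bij (fun n _ => (n, n)) ?_ ?_ ?_ ?_
  · intro n hn
    rw [Finset.mem_filter, Finset.mem_product]
    exact ⟨⟨hn, hn⟩, rfl⟩
  · intro n _ n' _ h
    exact (Prod.mk.inj h).1
  · intro p hp
    rw [Finset.mem_filter, Finset.mem_product] at hp
    exact ⟨p.1, hp.1.1, Prod.ext rfl hp.2.symm⟩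
  · intro n hn
    have hl : lam (n, n) = 0 := by simp [lam]
    rw [hl, KK_diag a b n (Finset.mem_Icc.mp hn).1]
    simp

/-- mean value: near off-diagonal terms plus a tiny error -/
theorem gauss_mv2 : ∃ T0 : ℝ, ∀ (H T : ℝ) (N : ℕ), Adm H T → (N : ℝ) ≤ T → T0 ≤ T →
    ∀ a b t0 : ℝ, ‖ODn H T N a b t0‖ ≤ 1 / 3 →
    ‖(∫ t : ℝ, (Real.exp (-(t - t0) ^ 2 / (2 * dd H T ^ 2)) : ℂ) *
        AA N (1 / 2 + I * (t + a)) * AA N (1 / 2 - I * (t + b)))
      - (dd H T * Real.sqrt (2 * Real.pi) : ℝ) *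
        ∑ n ∈ Finset.Icc 1 N, (((ArithmeticFunction.moebius n : ℤ) : ℂ)) ^ 2 *
          (n : ℂ) ^ (-(1 : ℂ) - I * (a - b))‖ ≤ 2 * dd H T := by
  classical
  obtain ⟨T0, hT0⟩ := eventually_atTop.mp (ev_small4' 2 (1 / 2) (1 / 3) (by norm_num) (by norm_num))
  refine ⟨T0, fun H T N hA hNT hT a b t0 hod => ?_⟩
  have hTpos : 0 < T := hA.T_pos
  have hD : 0 < dd H T := hA.dd_pos
  rw [mv_identity N (dd H T) t0 a b hD]
  set D := dd H T with hDdef
  set f : ℕ × ℕ → ℂ := fun p => (KK a b p.1 p.2 *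
    ((Real.exp (-(D ^ 2 * lam p ^ 2 / 2)) : ℝ) : ℂ)) * cexp (I * (lam p : ℂ) * t0) with hf
  set S := Finset.Icc 1 N ×ˢ Finset.Icc 1 N with hS
  have h1 : ∑ p ∈ S, f p = (∑ p ∈ S.filter (fun p : ℕ × ℕ => p.2 = p.1), f p) +
      ((∑ p ∈ nearP N (xx H T), f p) +
        ∑ p ∈ S.filter (fun p : ℕ × ℕ => p.2 ≠ p.1 ∧ ¬ |Real.log p.1 - Real.log p.2| < xx H T), f p) := by
    have e1 := (Finset.sum_filter_add_sum_filter_not S (fun p : ℕ × ℕ => p.2 = p.1) f).symm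
    have e2 := (Finset.sum_filter_add_sum_filter_not (S.filter (fun p : ℕ × ℕ => ¬ p.2 = p.1))
      (fun p : ℕ × ℕ => |Real.log p.1 - Real.log p.2| < xx H T) f).symm
    rw [Finset.filter_filter, Finset.filter_filter] at e2
    rw [e1, e2]
    rfl
  have h2 := diag_sum N D t0 a b
  have h2' : (∑ p ∈ S.filter (fun p : ℕ × ℕ => p.2 = p.1), f p) =
      ∑ n ∈ Finset.Icc 1 N, (((ArithmeticFunction.moebius n : ℤ) : ℂ)) ^ 2 *
          (n : ℂ) ^ (-(1 : ℂ) - I * (a - b)) := h2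
  have hfar : ‖∑ p ∈ S.filter (fun p : ℕ × ℕ => p.2 ≠ p.1 ∧
      ¬ |Real.log p.1 - Real.log p.2| < xx H T), f p‖ ≤ 1 / 3 := by
    have hterm : ∀ p ∈ S.filter (fun p : ℕ × ℕ => p.2 ≠ p.1 ∧
      ¬ |Real.log p.1 - Real.log p.2| < xx H T), ‖f p‖ ≤ Real.exp (-(1 / 2) * Real.log T ^ 4) := by
      intro p hp
      obtain ⟨hp1, hp2, hp3⟩ := Finset.mem_filter.mp hp
      rw [hS, Finset.mem_product, Finset.mem_Icc, Finset.mem_Icc] at hp1
      push Not at hp3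
      have k1 := KK_norm a b p.1 p.2 hp1.1.1 hp1.2.1
      have e1 : ‖cexp (I * (lam p : ℂ) * t0)‖ = 1 := by
        rw [Complex.norm_exp]
        have : (I * (lam p : ℂ) * t0).re = 0 := by
          rw [mul_assoc, ← Complex.ofReal_mul, Complex.I_mul_re, Complex.ofReal_im, neg_zero]
        rw [this, Real.exp_zero]
      have hx0 := xx_pos hA
      have e2 : Real.exp (-(D ^ 2 * lam p ^ 2 / 2)) ≤ Real.exp (-(1 / 2) * Real.log T ^ 4) := by
        apply Real.exp_le_exp.mpr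
        have k2 : xx H T ^ 2 ≤ lam p ^ 2 := by
          have : lam p ^ 2 = |Real.log p.1 - Real.log p.2| ^ 2 := by
            rw [sq_abs]
            unfold lam
            ring
          rw [this]
          exact pow_le_pow_left₀ hx0.le hp3 2
        have k3 : D ^ 2 * xx H T ^ 2 = Real.log T ^ 4 := by
          have := xx_dd hA
          calc D ^ 2 * xx H T ^ 2 = (xx H T * D) ^ 2 := by ring
            _ = (Real.log T ^ 2) ^ 2 := by rw [hDdef, this]
            _ = _ := by ring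
        have k4 : D ^ 2 * xx H T ^ 2 ≤ D ^ 2 * lam p ^ 2 :=
          mul_le_mul_of_nonneg_left k2 (by positivity)
        linarith
      rw [hf]
      simp only
      rw [norm_mul, norm_mul, e1, mul_one, Complex.norm_real, Real.norm_of_nonneg (Real.exp_pos _).le]
      calc _ ≤ 1 * Real.exp (-(1 / 2) * Real.log T ^ 4) :=
            mul_le_mul k1 e2 (Real.exp_pos _).le zero_le_one
        _ = _ := one_mul _
    refine (norm_sum_le_of_le _ hterm).trans ?_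
    rw [Finset.sum_const, nsmul_eq_mul]
    have hcard : ((S.filter (fun p : ℕ × ℕ => p.2 ≠ p.1 ∧
      ¬ |Real.log p.1 - Real.log p.2| < xx H T)).card : ℝ) ≤ T ^ (2 : ℝ) := by
      have h5 : (S.filter (fun p : ℕ × ℕ => p.2 ≠ p.1 ∧
        ¬ |Real.log p.1 - Real.log p.2| < xx H T)).card ≤ N * N := by
        refine (Finset.card_filter_le _ _).trans ?_
        rw [hS, Finset.card_product, Nat.card_Icc, Nat.add_sub_cancel]
      have h6 : ((S.filter (fun p : ℕ × ℕ => p.2 ≠ p.1 ∧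
        ¬ |Real.log p.1 - Real.log p.2| < xx H T)).card : ℝ) ≤ (N : ℝ) * N := by exact_mod_cast h5
      have h7 : T ^ (2 : ℝ) = T * T := by
        rw [show (2 : ℝ) = ((2 : ℕ) : ℝ) by norm_num, Real.rpow_natCast, sq]
      rw [h7]
      exact h6.trans (mul_le_mul hNT hNT (Nat.cast_nonneg _) hTpos.le)
    exact (mul_le_mul_of_nonneg_right hcard (Real.exp_pos _).le).trans (hT0 T hT)
  have hnear : ‖∑ p ∈ nearP N (xx H T), f p‖ ≤ 1 / 3 := hod
  rw [h1, h2', mul_add, add_sub_cancel_left, norm_mul, Complex.norm_real,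
    Real.norm_of_nonneg (by positivity)]
  have hs : Real.sqrt (2 * Real.pi) ≤ 3 := by
    rw [Real.sqrt_le_left (by norm_num)]
    have := Real.pi_lt_d2
    norm_num at this ⊢
    linarith
  have h8 := (norm_add_le (∑ p ∈ nearP N (xx H T), f p)
    (∑ p ∈ S.filter (fun p : ℕ × ℕ => p.2 ≠ p.1 ∧
      ¬ |Real.log p.1 - Real.log p.2| < xx H T), f p)).trans (add_le_add hnear hfar)
  calc D * Real.sqrt (2 * Real.pi) * _ ≤ D * 3 * (1 / 3 + 1 / 3) := by
        apply mul_le_mul _ h8 (norm_nonneg _) (by positivity)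
        exact mul_le_mul_of_nonneg_left hs hD.le
    _ = 2 * D := by ring

/-- the hypothesis on the centre needed for the mean values -/
structure G1 (H T : ℝ) (N : ℕ) (δ t0 : ℝ) : Prop where
  g1 : ‖ODn H T N (δ / 2) (-(δ / 2)) t0‖ ≤ 1 / 3
  g2 : ‖ODn H T N (δ / 2) (δ / 2) t0‖ ≤ 1 / 3
  g3 : ‖ODn H T N (-(δ / 2)) (-(δ / 2)) t0‖ ≤ 1 / 3

/-- the hypothesis on the centre needed for the deep products -/
def G2 (H T : ℝ) (N : ℕ) (δ : ℝ) (w : ℂ) (t0 : ℝ) : Prop :=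
  (∫ t in T..(2 * T), Real.exp (-(t - t0) ^ 2 / (2 * dd H T ^ 2)) *
      ‖QS H T N (hh δ) w t‖ ^ 2) ≤ dd H T

end Pool.Agent.W192.AW
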