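import Pool.Agent.W192.SI.Vert
import Pool.Agent.W192.AW.MV2

open Complex Filter Topology Set MeasureTheory

namespace Pool.Agent.W192.AW

open SG hiding dd nn Sep cc
open SG.Vert Pool.Agent.W192.SI

/-- `P` is `O(D)` on the right line -/
theorem vert_P :
    ∃ C T0 : ℝ, 1 ≤ C ∧ ∀ (c H T W : ℝ) (N : ℕ), 0 < c → c < 2 → Win H T W N → T0 ≤ T →
    G2 H T N (dl c T) (hh (dl c T)) (W + H / 2) → G2 H T N (dl c T) (-(hh (dl c T))) (W + H / 2) →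
    ∀ U1 U2 : ℝ, W ≤ U1 → U1 ≤ W + 20 →
    W + H - 20 ≤ U2 → U2 ≤ W + H →
    ‖∫ t in U1..U2, PP (W + H / 2) (dd H T) (dl c T) (⟨5 / 2, t⟩ : ℂ)‖ ≤ C * dd H T ∧
    ‖∫ t in U1..U2, PP (W + H / 2) (dd H T) (dl c T) (⟨5 / 2, t⟩ : ℂ) *
        (GG (N) ((⟨5 / 2, t⟩ : ℂ) - hh (dl c T)) *
         GG (N) (1 - ((⟨5 / 2, t⟩ : ℂ) - hh (dl c T))))‖ ≤ C * dd H T ∧
    ‖∫ t in U1..U2, PP (W + H / 2) (dd H T) (dl c T) (⟨-3 / 2, t⟩ : ℂ) *
         GG (N) (1 - ((⟨-3 / 2, t⟩ : ℂ) - hh (dl c T)))‖ ≤ C * dd H T ∧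
    ‖(∫ t in U1..U2, PP (W + H / 2) (dd H T) (dl c T) (⟨5 / 2, t⟩ : ℂ) *
         GG (N) (1 - ((⟨5 / 2, t⟩ : ℂ) - hh (dl c T)))) -
      ∫ t in U1..U2, phi (W + H / 2) (dd H T) (⟨5 / 2, t⟩ : ℂ) * rr (dl c T) (⟨5 / 2, t⟩ : ℂ) *
        (AA (N) ((⟨5 / 2, t⟩ : ℂ) + hh (dl c T)) *
          AA (N) (1 - ((⟨5 / 2, t⟩ : ℂ) - hh (dl c T))))‖ ≤ C * dd H T := by
  obtain ⟨Cg, hCg, hg⟩ := SI.gg_bound
  obtain ⟨Cf, Td, hCf, hd⟩ := FF_int
  refine ⟨1000 * Cg + Cf, Td, by linarith, ?_⟩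
  intro c H T W N hc hc1 hW hT hg2p hg2m U1 U2 hU1 hU1' hU2 hU2'
  obtain ⟨hA, hTW, hW2, hN2, hNT⟩ := hW
  have hWin : Win H T W N := ⟨hA, hTW, hW2, hN2, hNT⟩
  have hT2 : Td ≤ T := hT
  have hT3 : 2000 ≤ T := by linarith [hA.T_ge']
  have hHge := hA.H_ge
  norm_num at hHge
  have hHT := hA.hi
  set δ := dl c T with hδdef
  set D := dd H T with hDdef
  have h12 : U1 ≤ U2 := by linarith
  have hδ0 : 0 ≤ δ := (hA.dl_pos hc).le
  have hδ1 : δ ≤ 1 := by linarith [hA.dl_le hc1]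
  have hδa : |δ| ≤ 1 := by rw [abs_of_nonneg hδ0]; exact hδ1
  have hD1 : 1 ≤ D := by linarith [hA.one_le_dd]
  have hN1 : 1 ≤ N := by omega
  have hN1r : (1 : ℝ) ≤ N := by exact_mod_cast hN1
  -- the kernel on the right line
  have hP : ∀ t, U1 ≤ t → t ≤ U2 → ‖PP (W + H / 2) D δ (⟨5 / 2, t⟩ : ℂ)‖ ≤
      9 * Cg * ‖phi (W + H / 2) D (⟨5 / 2, t⟩ : ℂ)‖ := by
    intro t ht1 ht2
    have h1 := hg c H T hc hc1 hA (⟨5 / 2, t⟩ : ℂ) (by simp; linarith) (by simp; linarith)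
      (by norm_num) (by norm_num)
    have hz1 := (zeta_inv_bound ((⟨5 / 2, t⟩ : ℂ) + hh δ) (by simp [hh_re]; norm_num)).2
    have hz2 := (zeta_inv_bound ((⟨5 / 2, t⟩ : ℂ) - hh δ) (by simp [hh_re]; norm_num)).2
    rw [PP_eq _ _ _ _ (by norm_num), norm_mul, norm_mul, norm_mul]
    calc _ ≤ ‖phi (W + H / 2) D (⟨5 / 2, t⟩ : ℂ)‖ * Cg * (3 * 3) := by gcongr
      _ = _ := by ring
  have hGm : ∀ (t : ℝ) (w : ℂ), w.re = 0 → ‖GG N ((⟨5 / 2, t⟩ : ℂ) + w)‖ ≤ 4 := by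
    intro t w hw
    have := GG_bound N hN1 ((⟨5 / 2, t⟩ : ℂ) + w) (by simp [hw])
    simpa [hw] using this
  -- deep shifts
  have hdeepP : ‖∫ t in U1..U2, phi (W + H / 2) D (⟨5 / 2, t⟩ : ℂ) *
      rr δ (⟨5 / 2, t⟩ : ℂ) * FF δ N (hh δ) (⟨5 / 2, t⟩ : ℂ)‖ ≤ Cf * D :=
    hd c H T W N hc hc1 hWin hT2 (hh δ) (hh_re δ) hg2p U1 U2 hU1 hU1' hU2 hU2'
  have hdeepM : ‖∫ t in U1..U2, phi (W + H / 2) D (⟨5 / 2, t⟩ : ℂ) *
      rr δ (⟨5 / 2, t⟩ : ℂ) * FF δ N (-(hh δ)) (⟨5 / 2, t⟩ : ℂ)‖ ≤ Cf * D :=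
    hd c H T W N hc hc1 hWin hT2 (-(hh δ)) (by simp [hh_re]) hg2m U1 U2 hU1 hU1' hU2 hU2'
  -- continuity facts
  have cphi : ∀ t : ℝ, ContinuousAt (fun t : ℝ => phi (W + H / 2) D (⟨5 / 2, t⟩ : ℂ)) t :=
    fun t => ((phi_cont _ _).comp line_cont).continuousAt
  have crr : ∀ t, U1 ≤ t → ContinuousAt (fun t : ℝ => rr δ (⟨5 / 2, t⟩ : ℂ)) t := fun t ht =>
    line_contAt (rr_analytic δ hδa _ (by show 1 ≤ t; linarith)).continuousAt
  have cFF : ∀ (w : ℂ), w.re = 0 → ∀ t : ℝ,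
      ContinuousAt (fun t : ℝ => FF δ N w (⟨5 / 2, t⟩ : ℂ)) t := fun w hw t =>
    line_contAt (FF_diff δ N w _ hw (by norm_num)).continuousAt
  have cP : ∀ t, U1 ≤ t → ContinuousAt (fun t : ℝ => PP (W + H / 2) D δ (⟨5 / 2, t⟩ : ℂ)) t :=
    fun t ht => PP_cont _ _ _ hδa t (by linarith)
  have cG : ∀ (w : ℂ), w.re = 0 → ∀ t : ℝ,
      ContinuousAt (fun t : ℝ => GG N ((⟨5 / 2, t⟩ : ℂ) + w)) t := by
    intro w hw t
    have h1 : DifferentiableAt ℂ (fun s => GG N (s + w)) (⟨5 / 2, t⟩ : ℂ) := by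
      apply DifferentiableAt.comp (⟨5 / 2, t⟩ : ℂ) (g := GG N) (f := fun s => s + w)
      · apply GG_diff; apply ne_one_of_re; simp [hw]; norm_num
      · fun_prop
    exact line_contAt h1.continuousAt
  have cAA : ∀ t : ℝ, ContinuousAt (fun t : ℝ => AA N ((⟨5 / 2, t⟩ : ℂ) + hh δ) *
      AA N (1 - ((⟨5 / 2, t⟩ : ℂ) - hh δ))) t := by
    intro t
    have h1 : Continuous (fun s : ℂ => AA N (s + hh δ) * AA N (1 - (s - hh δ))) :=
      ((AA_diff N).continuous.comp (by fun_prop : Continuous fun s : ℂ => s + hh δ)).mul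
        ((AA_diff N).continuous.comp (by fun_prop : Continuous fun s : ℂ => 1 - (s - hh δ)))
    exact line_contAt (f := fun s : ℂ => AA N (s + hh δ) * AA N (1 - (s - hh δ))) h1.continuousAt
  -- the algebraic identity on the line
  have hPQ : ∀ t, U1 ≤ t → PP (W + H / 2) D δ (⟨5 / 2, t⟩ : ℂ) *
      GG N (1 - ((⟨5 / 2, t⟩ : ℂ) - hh δ)) = QQ (W + H / 2) D δ N (⟨5 / 2, t⟩ : ℂ) -
        PP (W + H / 2) D δ (⟨5 / 2, t⟩ : ℂ) := by
    intro t ht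
    apply SG.PQ (W + H / 2) D δ hδa N _ (by show 1 ≤ t; linarith)
    · exact (zeta_inv_bound _ (by simp [hh_re]; norm_num)).1
    · exact (zeta_inv_bound _ (by simp [hh_re]; norm_num)).1
    · norm_num
  have hneg : (-(hh δ)).re = 0 := by simp [hh_re]
  have hpos0 : (hh δ).re = 0 := hh_re δ
  refine ⟨?_, ?_, ?_, ?_⟩
  · -- (A)
    have := dom (W + H / 2) D hD1 U1 U2 (9 * Cg) (by positivity) h12 _ hP
    refine this.trans ?_
    nlinarith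
  · -- (B)
    have e : ∀ t ∈ Set.uIcc U1 U2, PP (W + H / 2) D δ (⟨5 / 2, t⟩ : ℂ) *
        (GG N ((⟨5 / 2, t⟩ : ℂ) - hh δ) * GG N (1 - ((⟨5 / 2, t⟩ : ℂ) - hh δ))) =
        phi (W + H / 2) D (⟨5 / 2, t⟩ : ℂ) * rr δ (⟨5 / 2, t⟩ : ℂ) *
          FF δ N (-(hh δ)) (⟨5 / 2, t⟩ : ℂ) -
        PP (W + H / 2) D δ (⟨5 / 2, t⟩ : ℂ) * GG N ((⟨5 / 2, t⟩ : ℂ) + -(hh δ)) := by
      intro t ht
      rw [Set.uIcc_of_le h12] at ht
      have h1 := hPQ t ht.1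
      have h2 : PP (W + H / 2) D δ (⟨5 / 2, t⟩ : ℂ) *
        (GG N ((⟨5 / 2, t⟩ : ℂ) - hh δ) * GG N (1 - ((⟨5 / 2, t⟩ : ℂ) - hh δ))) =
        GG N ((⟨5 / 2, t⟩ : ℂ) - hh δ) * (PP (W + H / 2) D δ (⟨5 / 2, t⟩ : ℂ) *
          GG N (1 - ((⟨5 / 2, t⟩ : ℂ) - hh δ))) := by ring
      rw [h2, h1]
      unfold QQ FF
      rw [← sub_eq_add_neg]
      ring
    rw [intervalIntegral.integral_congr e, intervalIntegral.integral_sub]
    · have h1 := hdeepM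
      have h2 := dom (W + H / 2) D hD1 U1 U2 (36 * Cg) (by positivity) h12
        (fun t => PP (W + H / 2) D δ (⟨5 / 2, t⟩ : ℂ) * GG N ((⟨5 / 2, t⟩ : ℂ) + -(hh δ))) (by
          intro t ht1 ht2
          rw [norm_mul]
          calc _ ≤ (9 * Cg * ‖phi (W + H / 2) D (⟨5 / 2, t⟩ : ℂ)‖) * 4 := by
                apply mul_le_mul (hP t ht1 ht2) (hGm t _ hneg) (norm_nonneg _) (by positivity)
            _ = _ := by ring)
      refine (norm_sub_le _ _).trans ?_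
      have h3 : 1 ≤ Cg * D := by nlinarith
      refine (add_le_add h1 h2).trans ?_
      nlinarith
    · apply int_of_contAt h12
      intro t ht1 ht2
      exact ((cphi t).mul (crr t ht1)).mul (cFF _ hneg t)
    · apply int_of_contAt h12
      intro t ht1 ht2
      exact (cP t ht1).mul (cG _ hneg t)
  · -- (C)
    have h2 := dom (W + H / 2) D hD1 U1 U2 (36 * Cg) (by positivity) h12
        (fun t => PP (W + H / 2) D δ (⟨-3 / 2, t⟩ : ℂ) *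
          GG N (1 - ((⟨-3 / 2, t⟩ : ℂ) - hh δ))) (by
          intro t ht1 ht2
          have e1 : (⟨-3 / 2, t⟩ : ℂ) = 1 - (starRingEnd ℂ) (⟨5 / 2, t⟩ : ℂ) := by
            apply Complex.ext <;> simp
            norm_num
          have hsym := PP_symm (W + H / 2) D δ (⟨5 / 2, t⟩ : ℂ)
            (by show 1 ≤ |t|; rw [abs_of_nonneg (by linarith)]; linarith)
          rw [← e1] at hsym
          have e2 : (1 - ((⟨-3 / 2, t⟩ : ℂ) - hh δ)) = (⟨5 / 2, -t⟩ : ℂ) + hh δ := by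
            apply Complex.ext
            · simp only [sub_re, one_re, add_re]; ring
            · simp only [sub_im, one_im, add_im]; ring
          rw [norm_mul, hsym, RCLike.norm_conj, e2]
          calc _ ≤ (9 * Cg * ‖phi (W + H / 2) D (⟨5 / 2, t⟩ : ℂ)‖) * 4 := by
                apply mul_le_mul (hP t ht1 ht2) (hGm (-t) _ hpos0) (norm_nonneg _) (by positivity)
            _ = _ := by ring)
    refine h2.trans ?_
    nlinarith
  · -- (D)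
    have e : ∀ t ∈ Set.uIcc U1 U2, PP (W + H / 2) D δ (⟨5 / 2, t⟩ : ℂ) *
        GG N (1 - ((⟨5 / 2, t⟩ : ℂ) - hh δ)) =
        phi (W + H / 2) D (⟨5 / 2, t⟩ : ℂ) * rr δ (⟨5 / 2, t⟩ : ℂ) *
          (AA N ((⟨5 / 2, t⟩ : ℂ) + hh δ) * AA N (1 - ((⟨5 / 2, t⟩ : ℂ) - hh δ))) -
        (phi (W + H / 2) D (⟨5 / 2, t⟩ : ℂ) * rr δ (⟨5 / 2, t⟩ : ℂ) *
          FF δ N (hh δ) (⟨5 / 2, t⟩ : ℂ) + PP (W + H / 2) D δ (⟨5 / 2, t⟩ : ℂ)) := by
      intro t ht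
      rw [Set.uIcc_of_le h12] at ht
      rw [hPQ t ht.1]
      have hz := (zeta_inv_bound ((⟨5 / 2, t⟩ : ℂ) + hh δ)
        (by simp [hh_re]; norm_num)).1
      unfold QQ FF GG
      field_simp
      ring
    rw [intervalIntegral.integral_congr e, intervalIntegral.integral_sub,
      intervalIntegral.integral_add]
    · have h1 := hdeepP
      have h2 := dom (W + H / 2) D hD1 U1 U2 (9 * Cg) (by positivity) h12 _ hP
      have h3 : 1 ≤ Cg * D := by nlinarith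
      rw [sub_sub_cancel_left, norm_neg]
      refine (norm_add_le _ _).trans ?_
      refine (add_le_add h1 h2).trans ?_
      nlinarith
    · apply int_of_contAt h12
      intro t ht1 ht2
      exact ((cphi t).mul (crr t ht1)).mul (cFF _ hpos0 t)
    · apply int_of_contAt h12
      intro t ht1 ht2
      exact cP t ht1
    · apply int_of_contAt h12
      intro t ht1 ht2
      exact ((cphi t).mul (crr t ht1)).mul (cAA t)
    · apply IntervalIntegrable.add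
      · apply int_of_contAt h12
        intro t ht1 ht2
        exact ((cphi t).mul (crr t ht1)).mul (cFF _ hpos0 t)
      · apply int_of_contAt h12
        intro t ht1 ht2
        exact cP t ht1

end Pool.Agent.W192.AW
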