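import Pool.Agent.W192.AW.MV2

open Complex Filter Topology Set MeasureTheory

namespace Pool.Agent.W192.AW

open SG hiding dd nn Sep cc
open SG.Deep SG.MVaux Pool.Agent.W192.SI

/-- Markov with a finite measure conclusion -/
theorem markov {F : ℝ → ℝ} (h0 : ∀ t, 0 ≤ F t) (hF : Integrable F) {ε B : ℝ} (hε : 0 < ε)
    (hB : ∫ t, F t ≤ B) (S : Set ℝ) (hS : ∀ t ∈ S, ε ≤ F t) :
    volume S ≤ ENNReal.ofReal (B / ε) := by
  have h1 := mul_meas_ge_le_integral_of_nonneg (ae_of_all _ h0) hF ε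
  have h2 : volume S ≤ volume {t | ε ≤ F t} := measure_mono hS
  have h3 : volume {t | ε ≤ F t} < ⊤ := hF.measure_ge_lt_top hε
  refine h2.trans ?_
  rw [← ENNReal.ofReal_toReal h3.ne]
  apply ENNReal.ofReal_le_ofReal
  rw [le_div_iff₀ hε]
  have h4 : volume.real {t | ε ≤ F t} = (volume {t | ε ≤ F t}).toReal := rfl
  rw [h4] at h1
  linarith

/-- lower bound for the Gaussian weight on `[T, 2T]` -/
theorem weight_ge {T t : ℝ} (hT : 0 < T) (h1 : T ≤ t) (h2 : t ≤ 2 * T) :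
    1 / 2 ≤ Real.exp (-(t - 3 * T / 2) ^ 2 / (2 * T ^ 2)) := by
  have h3 : -(1 / 8) ≤ -(t - 3 * T / 2) ^ 2 / (2 * T ^ 2) := by
    rw [le_div_iff₀ (by positivity)]
    have : (t - 3 * T / 2) ^ 2 ≤ (T / 2) ^ 2 := sq_le_sq' (by linarith) (by linarith)
    nlinarith
  have h4 := Real.exp_le_exp.mpr h3
  have h5 := Real.add_one_le_exp (-(1 / 8) : ℝ)
  linarith

/-- the size of the exceptional set, up to a constant -/
noncomputable def XS (H T : ℝ) (M : ℕ) : ℝ :=
  (T + (M : ℝ) ^ 2) * (xx H T * (1 + Real.log M) ^ 33)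

theorem KK_sq (a b : ℝ) (m n : ℕ) (hm : 1 ≤ m) (hn : 1 ≤ n) :
    ‖KK a b m n‖ ^ 2 ≤ 1 / (m * n) := by
  have m0 : (0 : ℝ) < m := by exact_mod_cast hm
  have n0 : (0 : ℝ) < n := by exact_mod_cast hn
  unfold KK
  rw [norm_mul, norm_mul, Complex.norm_exp]
  have e : (-((Real.log m + Real.log n : ℝ) : ℂ) / 2 +
      I * ((b * Real.log n - a * Real.log m : ℝ) : ℂ)).re = -(Real.log m + Real.log n) / 2 := by
    rw [Complex.add_re, Complex.I_mul_re, Complex.ofReal_im, neg_zero, add_zero,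
      show (-((Real.log m + Real.log n : ℝ) : ℂ) / 2) =
        ((-(Real.log m + Real.log n) / 2 : ℝ) : ℂ) by push_cast; ring, Complex.ofReal_re]
  rw [e, mul_pow]
  have e2 : Real.exp (-(Real.log m + Real.log n) / 2) ^ 2 = 1 / (m * n) := by
    rw [← Real.exp_nat_mul]
    have : ((2 : ℕ) : ℝ) * (-(Real.log m + Real.log n) / 2) = -(Real.log m + Real.log n) := by
      push_cast; ring
    rw [this, Real.exp_neg, ← Real.log_mul m0.ne' n0.ne', Real.exp_log (by positivity), one_div]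
  rw [e2]
  have k1 := mu_norm m
  have k2 := mu_norm n
  have k3 : (‖((ArithmeticFunction.moebius m : ℤ) : ℂ)‖ * ‖((ArithmeticFunction.moebius n : ℤ) : ℂ)‖) ^ 2
      ≤ 1 := by
    apply pow_le_one₀ (by positivity)
    exact mul_le_one₀ k1 (norm_nonneg _) k2
  calc _ ≤ 1 * (1 / ((m : ℝ) * n)) := mul_le_mul_of_nonneg_right k3 (by positivity)
    _ = _ := one_mul _

/-- exceptional set for the mean values -/
theorem bad1 (H T : ℝ) (N : ℕ) (hA : Adm H T) (hN : 1 ≤ N) (a b : ℝ) :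
    volume {t0 : ℝ | T ≤ t0 ∧ t0 ≤ 2 * T ∧ ¬ ‖ODn H T N a b t0‖ ≤ 1 / 3} ≤
      ENNReal.ofReal (10000 * XS H T N) := by
  have hT := hA.T_pos
  have hx0 := xx_pos hA
  have hx1 := xx_le hA
  obtain ⟨h1, h2⟩ := near_mean N hN (xx H T) hx0 (by linarith) (nearP N (xx H T)) subset_rfl
    (fun p => KK a b p.1 p.2 * ((Real.exp (-(dd H T ^ 2 * lam p ^ 2 / 2)) : ℝ) : ℂ))
    (by
      intro p hp
      have h := (Finset.mem_filter.mp hp).1
      rw [Finset.mem_product, Finset.mem_Icc, Finset.mem_Icc] at h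
      have p1 : (0 : ℝ) < p.1 := by exact_mod_cast h.1.1
      have p2 : (0 : ℝ) < p.2 := by exact_mod_cast h.2.1
      rw [norm_mul, mul_pow, Complex.norm_real, Real.norm_of_nonneg (Real.exp_pos _).le]
      have k1 := KK_sq a b p.1 p.2 h.1.1 h.2.1
      have k2 : Real.exp (-(dd H T ^ 2 * lam p ^ 2 / 2)) ^ 2 ≤ 1 := by
        apply pow_le_one₀ (Real.exp_pos _).le
        apply Real.exp_le_one_iff.mpr
        have : 0 ≤ dd H T ^ 2 * lam p ^ 2 / 2 := by positivity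
        linarith
      have k3 : 1 ≤ dv p.1 ^ 4 := one_le_pow₀ (dv_one_le p.1 h.1.1)
      calc ‖KK a b p.1 p.2‖ ^ 2 * Real.exp (-(dd H T ^ 2 * lam p ^ 2 / 2)) ^ 2
          ≤ 1 / (p.1 * p.2) * 1 := mul_le_mul k1 k2 (by positivity) (by positivity)
        _ = 1 / (p.1 * p.2) := mul_one _
        _ ≤ dv p.1 ^ 4 / (p.1 * p.2) := div_le_div_of_nonneg_right k3 (by positivity))
    T (3 * T / 2) hT
  refine (markov (F := fun t => Real.exp (-(t - 3 * T / 2) ^ 2 / (2 * T ^ 2)) *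
    ‖∑ p ∈ nearP N (xx H T), (KK a b p.1 p.2 *
      ((Real.exp (-(dd H T ^ 2 * lam p ^ 2 / 2)) : ℝ) : ℂ)) * cexp (I * (lam p : ℂ) * t)‖ ^ 2)
    (fun t => by positivity) h1 (ε := 1 / 18) (by norm_num) h2 _ ?_).trans ?_
  · rintro t ⟨ht1, ht2, ht3⟩
    push Not at ht3
    have hw := weight_ge hT ht1 ht2
    have h3 : (1 / 3 : ℝ) ^ 2 ≤ ‖ODn H T N a b t‖ ^ 2 := pow_le_pow_left₀ (by norm_num) ht3.le 2
    have h4 : (1 / 2 : ℝ) * (1 / 3) ^ 2 ≤ Real.exp (-(t - 3 * T / 2) ^ 2 / (2 * T ^ 2)) *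
        ‖ODn H T N a b t‖ ^ 2 := mul_le_mul hw h3 (by norm_num) (by positivity)
    refine le_trans (by norm_num) h4
  · apply ENNReal.ofReal_le_ofReal
    unfold XS
    have hlog : 0 ≤ Real.log N := Real.log_nonneg (by exact_mod_cast hN)
    have h5 : 0 ≤ (T + (N : ℝ) ^ 2) * (xx H T * (1 + Real.log N) ^ 33) := by positivity
    rw [div_le_iff₀ (by norm_num)]
    linarith

/-- exceptional set for the deep products -/
theorem bad2 (H T : ℝ) (N : ℕ) (hA : Adm H T) (hN : 1 ≤ N) (δ : ℝ) (w : ℂ) (hw : w.re = 0) :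
    volume {t0 : ℝ | T ≤ t0 ∧ t0 ≤ 2 * T ∧ ¬ G2 H T N δ w t0} ≤
      ENNReal.ofReal (10000 * XS H T (Kc H T N)) := by
  have hT := hA.T_pos
  have hx0 := xx_pos hA
  have hx1 := xx_le hA
  have hD := hA.dd_pos
  set D := dd H T with hDdef
  obtain ⟨k1, k2, k3, k4, k5⟩ := Kc_facts hA N hN
  have hK : 1 ≤ Kc H T N := hN.trans k1
  obtain ⟨h1, h2⟩ := near_mean (Kc H T N) hK (2 * xx H T) (by linarith) (by linarith)
    (PQ H T N) (PQ_near hA N hN) (kap N (hh δ) w)
    (by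
      intro p hp
      have h := PQ_near hA N hN hp
      have h := (Finset.mem_filter.mp h).1
      rw [Finset.mem_product, Finset.mem_Icc, Finset.mem_Icc] at h
      exact kap_norm N (hh δ) w (Vert.hh_re δ) hw p h.1.1 h.2.1)
    T (3 * T / 2) hT
  set q : ℝ → ℝ := fun t => ‖QS H T N (hh δ) w t‖ ^ 2 with hq
  have hQc : Continuous fun t : ℝ => QS H T N (hh δ) w t := by
    unfold QS
    apply continuous_finsetSum
    intro p _
    fun_prop
  have hqc : Continuous q := hQc.norm.pow 2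
  have hq0 : ∀ t, 0 ≤ q t := fun t => by positivity
  have hT2 : T ≤ 2 * T := by linarith
  -- integral of q over [T, 2T]
  have hqint : ∫ t in T..(2 * T), q t ≤ 2 * (144 * (T + (Kc H T N : ℝ) ^ 2) *
      ((2 * xx H T) * (1 + Real.log (Kc H T N)) ^ 33)) := by
    have e1 : ∫ t in T..(2 * T), q t ≤ ∫ t in T..(2 * T),
        2 * (Real.exp (-(t - 3 * T / 2) ^ 2 / (2 * T ^ 2)) * q t) := by
      apply intervalIntegral.integral_mono_on hT2 (hqc.intervalIntegrable _ _)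
      · apply Continuous.intervalIntegrable
        fun_prop
      · intro t ht
        have := weight_ge hT ht.1 ht.2
        have := hq0 t
        nlinarith
    refine e1.trans ?_
    rw [intervalIntegral.integral_const_mul]
    apply mul_le_mul_of_nonneg_left _ (by norm_num)
    rw [intervalIntegral.integral_of_le hT2]
    refine (setIntegral_le_integral h1 (ae_of_all _ fun t => ?_)).trans h2
    simp only [Pi.zero_apply]
    positivity
  -- the averaged function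
  set Φ : ℝ → ℝ := fun t0 => ∫ t in T..(2 * T), Real.exp (-(t - t0) ^ 2 / (2 * D ^ 2)) * q t with hΦ
  have hΦc : Continuous Φ := by
    rw [hΦ]
    apply intervalIntegral.continuous_parametric_intervalIntegral_of_continuous'
    fun_prop
  have hΦ0 : ∀ t0, 0 ≤ Φ t0 := by
    intro t0
    apply intervalIntegral.integral_nonneg hT2
    intro t _
    have := hq0 t
    positivity
  have hswap : ∫ t0 in T..(2 * T), Φ t0 =
      ∫ t in T..(2 * T), ∫ t0 in T..(2 * T), Real.exp (-(t - t0) ^ 2 / (2 * D ^ 2)) * q t := by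
    rw [hΦ]
    apply intervalIntegral_intervalIntegral_swap
    have hcont : Continuous (Function.uncurry fun t0 t : ℝ =>
        Real.exp (-(t - t0) ^ 2 / (2 * D ^ 2)) * q t) := by
      simp only [Function.uncurry_def]
      fun_prop
    refine (hcont.continuousOn.integrableOn_compact
      ((isCompact_Icc (a := T) (b := 2 * T)).prod (isCompact_Icc (a := T) (b := 2 * T)))).mono_set ?_
    rw [uIoc_of_le hT2]
    exact Set.prod_mono Ioc_subset_Icc_self Ioc_subset_Icc_self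
  have hs : Real.sqrt (2 * Real.pi) ≤ 3 := by
    rw [Real.sqrt_le_left (by norm_num)]
    have := Real.pi_lt_d2
    norm_num at this ⊢
    linarith
  have hΦint : ∫ t0 in T..(2 * T), Φ t0 ≤ 3 * D * ∫ t in T..(2 * T), q t := by
    rw [hswap, ← intervalIntegral.integral_const_mul]
    apply intervalIntegral.integral_mono_on hT2
    · apply Continuous.intervalIntegrable
      apply intervalIntegral.continuous_parametric_intervalIntegral_of_continuous'
      fun_prop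
    · exact (continuous_const.mul hqc).intervalIntegrable _ _
    · intro t _
      rw [intervalIntegral.integral_mul_const]
      apply mul_le_mul_of_nonneg_right _ (hq0 t)
      have e1 : ∀ t0 : ℝ, Real.exp (-(t - t0) ^ 2 / (2 * D ^ 2)) =
          Real.exp (-(t0 - t) ^ 2 / (2 * D ^ 2)) := by
        intro t0
        congr 2
        ring
      simp_rw [e1]
      rw [intervalIntegral.integral_of_le hT2]
      refine (setIntegral_le_integral (gauss_integrable D t hD)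
        (ae_of_all _ fun t => (Real.exp_pos _).le)).trans ?_
      rw [gauss_integral D t hD]
      nlinarith
  -- Markov
  set F : ℝ → ℝ := (Icc T (2 * T)).indicator Φ with hF
  have hFi : Integrable F := by
    rw [hF, integrable_indicator_iff measurableSet_Icc]
    exact hΦc.continuousOn.integrableOn_compact isCompact_Icc
  have hFI : ∫ t, F t ≤ 3 * D * ∫ t in T..(2 * T), q t := by
    rw [hF, integral_indicator measurableSet_Icc, integral_Icc_eq_integral_Ioc,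
      ← intervalIntegral.integral_of_le hT2]
    exact hΦint
  have hF0 : ∀ t, 0 ≤ F t := fun t => Set.indicator_nonneg (fun t _ => hΦ0 t) t
  refine (markov hF0 hFi hD hFI _ ?_).trans ?_
  · rintro t ⟨ht1, ht2, ht3⟩
    unfold G2 at ht3
    push Not at ht3
    rw [hF, Set.indicator_of_mem (show t ∈ Icc T (2 * T) from ⟨ht1, ht2⟩)]
    exact ht3.le
  · apply ENNReal.ofReal_le_ofReal
    unfold XS
    have hlog : 0 ≤ Real.log (Kc H T N) := Real.log_nonneg (by exact_mod_cast hK)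
    have h5 : 0 ≤ (T + (Kc H T N : ℝ) ^ 2) * (xx H T * (1 + Real.log (Kc H T N)) ^ 33) := by
      positivity
    rw [div_le_iff₀ hD]
    have h6 : 3 * D * ∫ t in T..(2 * T), q t ≤ 3 * D * (2 * (144 * (T + (Kc H T N : ℝ) ^ 2) *
      ((2 * xx H T) * (1 + Real.log (Kc H T N)) ^ 33))) :=
      mul_le_mul_of_nonneg_left hqint (by positivity)
    refine h6.trans ?_
    have h7 : 3 * D * (2 * (144 * (T + (Kc H T N : ℝ) ^ 2) *
      ((2 * xx H T) * (1 + Real.log (Kc H T N)) ^ 33))) =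
      1728 * ((T + (Kc H T N : ℝ) ^ 2) * (xx H T * (1 + Real.log (Kc H T N)) ^ 33)) * D := by ring
    rw [h7]
    apply mul_le_mul_of_nonneg_right _ hD.le
    linarith

/-- the total exceptional set of centres -/
theorem bad_total (H T : ℝ) (N : ℕ) (hA : Adm H T) (hN : 1 ≤ N) (δ : ℝ) :
    volume {t0 : ℝ | T ≤ t0 ∧ t0 ≤ 2 * T ∧
      ¬ (G1 H T N δ t0 ∧ G2 H T N δ (hh δ) t0 ∧ G2 H T N δ (-(hh δ)) t0)} ≤
      ENNReal.ofReal (50000 * XS H T (Kc H T N)) := by
  have hT := hA.T_pos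
  obtain ⟨k1, k2, k3, k4, k5⟩ := Kc_facts hA N hN
  have hx0 := xx_pos hA
  have hN1 : (1 : ℝ) ≤ N := by exact_mod_cast hN
  have hlog : 0 ≤ Real.log N := Real.log_nonneg hN1
  have hNK : (N : ℝ) ≤ Kc H T N := by exact_mod_cast k1
  have hXS : XS H T N ≤ XS H T (Kc H T N) := by
    unfold XS
    have h1 : Real.log N ≤ Real.log (Kc H T N) := Real.log_le_log (by linarith) hNK
    gcongr
  have hXS0 : 0 ≤ XS H T (Kc H T N) := by
    unfold XS
    have h1 : Real.log N ≤ Real.log (Kc H T N) := Real.log_le_log (by linarith) hNK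
    have h2 : 0 ≤ Real.log (Kc H T N) := by linarith
    positivity
  set B := ENNReal.ofReal (10000 * XS H T (Kc H T N)) with hB
  have hb1 : ∀ a b : ℝ, volume {t0 : ℝ | T ≤ t0 ∧ t0 ≤ 2 * T ∧ ¬ ‖ODn H T N a b t0‖ ≤ 1 / 3} ≤ B :=
    fun a b => (bad1 H T N hA hN a b).trans (ENNReal.ofReal_le_ofReal (by linarith))
  have hb2 : ∀ w : ℂ, w.re = 0 → volume {t0 : ℝ | T ≤ t0 ∧ t0 ≤ 2 * T ∧ ¬ G2 H T N δ w t0} ≤ B :=
    fun w hw => bad2 H T N hA hN δ w hw
  have hsub : {t0 : ℝ | T ≤ t0 ∧ t0 ≤ 2 * T ∧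
      ¬ (G1 H T N δ t0 ∧ G2 H T N δ (hh δ) t0 ∧ G2 H T N δ (-(hh δ)) t0)} ⊆
      ((({t0 : ℝ | T ≤ t0 ∧ t0 ≤ 2 * T ∧ ¬ ‖ODn H T N (δ / 2) (-(δ / 2)) t0‖ ≤ 1 / 3} ∪
      {t0 : ℝ | T ≤ t0 ∧ t0 ≤ 2 * T ∧ ¬ ‖ODn H T N (δ / 2) (δ / 2) t0‖ ≤ 1 / 3}) ∪
      {t0 : ℝ | T ≤ t0 ∧ t0 ≤ 2 * T ∧ ¬ ‖ODn H T N (-(δ / 2)) (-(δ / 2)) t0‖ ≤ 1 / 3}) ∪
      {t0 : ℝ | T ≤ t0 ∧ t0 ≤ 2 * T ∧ ¬ G2 H T N δ (hh δ) t0}) ∪
      {t0 : ℝ | T ≤ t0 ∧ t0 ≤ 2 * T ∧ ¬ G2 H T N δ (-(hh δ)) t0} := by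
    rintro t ⟨h1, h2, h3⟩
    by_contra hcon
    simp only [Set.mem_union, Set.mem_setOf_eq, not_or, not_and, not_not] at hcon
    obtain ⟨⟨⟨⟨a1, a2⟩, a3⟩, a4⟩, a5⟩ := hcon
    exact h3 ⟨⟨a1 h1 h2, a2 h1 h2, a3 h1 h2⟩, a4 h1 h2, a5 h1 h2⟩
  have hw : (-(hh δ)).re = 0 := by simp [Vert.hh_re]
  refine (measure_mono hsub).trans ?_
  have e5 : ENNReal.ofReal (50000 * XS H T (Kc H T N)) = B + B + B + B + B := by
    rw [hB, ← ENNReal.ofReal_add (by positivity) (by positivity),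
      ← ENNReal.ofReal_add (by positivity) (by positivity),
      ← ENNReal.ofReal_add (by positivity) (by positivity),
      ← ENNReal.ofReal_add (by positivity) (by positivity)]
    congr 1
    ring
  rw [e5]
  refine (measure_union_le _ _).trans (add_le_add ?_ (hb2 _ hw))
  refine (measure_union_le _ _).trans (add_le_add ?_ (hb2 _ (Vert.hh_re δ)))
  refine (measure_union_le _ _).trans (add_le_add ?_ (hb1 _ _))
  exact (measure_union_le _ _).trans (add_le_add (hb1 _ _) (hb1 _ _))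

end Pool.Agent.W192.AW
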