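import Pool.Agent.W192.SI.Final
import Pool.Agent.W192.AW.Main2
import Pool.Agent.W192.AW.Meas

open Complex Filter Topology Set MeasureTheory

namespace Pool.Agent.W192.AW

open SG hiding dd nn Sep cc
open Pool.Agent.W192.SI

/-- the mollifier length -/
noncomputable def Nl (A : ℕ) (H T : ℝ) : ℕ := ⌊Real.sqrt (T * H) / Real.log T ^ A⌋₊

theorem Nl_le {A : ℕ} {H T : ℝ} (hA : Adm H T) : (Nl A H T : ℝ) ≤ Real.sqrt (T * H) / Real.log T ^ A := by
  have := hA.log_ge
  exact Nat.floor_le (by positivity)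

theorem sqrt_le {H T : ℝ} (hA : Adm H T) : Real.sqrt (T * H) ≤ T := by
  have hT := hA.T_pos
  rw [Real.sqrt_le_left hT.le]
  have := hA.hi
  nlinarith

theorem Nl_le_T {A : ℕ} {H T : ℝ} (hA : Adm H T) : (Nl A H T : ℝ) ≤ T := by
  have h1 := Nl_le (A := A) hA
  have h2 := sqrt_le hA
  have h3 : Real.sqrt (T * H) / Real.log T ^ A ≤ Real.sqrt (T * H) := by
    apply div_le_self (Real.sqrt_nonneg _)
    have := hA.log_ge
    exact one_le_pow₀ (by linarith)
  linarith

/-- lower bound for the length -/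
theorem Nl_ge {A : ℕ} {H T : ℝ} (hA : Adm H T) (hbig : 2 * Real.log T ^ A ≤ Real.sqrt T) :
    Real.sqrt (T * H) / Real.log T ^ A / 2 ≤ (Nl A H T : ℝ) ∧ 2 ≤ Nl A H T := by
  have hL := hA.log_ge
  have hT := hA.T_pos
  have hH := hA.H_ge
  norm_num at hH
  have h1 : Real.sqrt T ≤ Real.sqrt (T * H) := Real.sqrt_le_sqrt (by nlinarith)
  have hLA : 0 < Real.log T ^ A := by positivity
  have h2 : 2 ≤ Real.sqrt (T * H) / Real.log T ^ A := by
    rw [le_div_iff₀ hLA]
    linarith
  have h3 : 2 ≤ Nl A H T := Nat.le_floor (by exact_mod_cast h2)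
  refine ⟨?_, h3⟩
  have h4 := Nat.lt_floor_add_one (Real.sqrt (T * H) / Real.log T ^ A)
  have h5 : Real.sqrt (T * H) / Real.log T ^ A < (Nl A H T : ℝ) + 1 := h4
  linarith

/-- the exceptional set is small -/
theorem XS_small (A : ℕ) {H T : ℝ} (hA : Adm H T) (hH : Real.log T ^ A ≤ H)
    (hbig : 2 * Real.log T ^ A ≤ Real.sqrt T) :
    XS H T (Kc H T (Nl A H T)) ≤ 5 * 2 ^ 33 * T * Real.log T ^ 37 / Real.log T ^ A := by
  have hL := hA.log_ge
  have hT := hA.T_pos
  have hHpos := hA.H_pos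
  obtain ⟨n1, n2⟩ := Nl_ge hA hbig
  have n3 := Nl_le (A := A) hA
  have n4 := Nl_le_T (A := A) hA
  set N := Nl A H T with hN
  obtain ⟨k1, k2, k3, k4, k5⟩ := Kc_facts hA N (by omega)
  set K := Kc H T N with hK
  have hLA : 0 < Real.log T ^ A := by positivity
  have hK2 : (K : ℝ) ^ 2 ≤ 4 * (T * H / Real.log T ^ A) := by
    have h1 : (K : ℝ) ≤ 2 * (Real.sqrt (T * H) / Real.log T ^ A) := by linarith
    have h2 : (K : ℝ) ^ 2 ≤ (2 * (Real.sqrt (T * H) / Real.log T ^ A)) ^ 2 :=
      pow_le_pow_left₀ (Nat.cast_nonneg _) h1 2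
    have h3 : (2 * (Real.sqrt (T * H) / Real.log T ^ A)) ^ 2 =
        4 * (T * H / (Real.log T ^ A * Real.log T ^ A)) := by
      rw [mul_pow, div_pow, Real.sq_sqrt (by positivity)]
      ring
    rw [h3] at h2
    refine h2.trans ?_
    apply mul_le_mul_of_nonneg_left _ (by norm_num)
    apply div_le_div_of_nonneg_left (by positivity) hLA
    have : (1 : ℝ) ≤ Real.log T ^ A := one_le_pow₀ (by linarith)
    nlinarith
  have hlogK : 1 + Real.log K ≤ 2 * Real.log T := by
    have h1 : (K : ℝ) ≤ 2 * T := by linarith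
    have hK0 : (0 : ℝ) < K := by
      have : (N : ℝ) ≤ K := by exact_mod_cast k1
      have h2 : (2 : ℝ) ≤ N := by exact_mod_cast n2
      linarith
    have h2 := Real.log_le_log hK0 h1
    rw [Real.log_mul (by norm_num) hT.ne'] at h2
    have := Real.log_two_lt_d9
    linarith
  have hlogK0 : 0 ≤ Real.log K := by
    apply Real.log_nonneg
    have : (N : ℝ) ≤ K := by exact_mod_cast k1
    have h2 : (2 : ℝ) ≤ N := by exact_mod_cast n2
    linarith
  have hx : xx H T = Real.log T ^ 4 / H := by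
    unfold xx dd
    field_simp
  have hmain : (T + (K : ℝ) ^ 2) * xx H T ≤ 5 * T * Real.log T ^ 4 / Real.log T ^ A := by
    rw [hx]
    have h1 : T * (Real.log T ^ 4 / H) ≤ T * Real.log T ^ 4 / Real.log T ^ A := by
      rw [mul_div_assoc]
      apply mul_le_mul_of_nonneg_left _ hT.le
      exact div_le_div_of_nonneg_left (by positivity) hLA hH
    have h2 : (K : ℝ) ^ 2 * (Real.log T ^ 4 / H) ≤ 4 * (T * Real.log T ^ 4 / Real.log T ^ A) := by
      calc (K : ℝ) ^ 2 * (Real.log T ^ 4 / H) ≤ 4 * (T * H / Real.log T ^ A) * (Real.log T ^ 4 / H) :=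
            mul_le_mul_of_nonneg_right hK2 (by positivity)
        _ = _ := by field_simp
    have e : 5 * T * Real.log T ^ 4 / Real.log T ^ A =
        T * Real.log T ^ 4 / Real.log T ^ A + 4 * (T * Real.log T ^ 4 / Real.log T ^ A) := by ring
    rw [e, add_mul]
    exact add_le_add h1 h2
  unfold XS
  have hpow : (1 + Real.log K) ^ 33 ≤ (2 * Real.log T) ^ 33 := pow_le_pow_left₀ (by linarith) hlogK 33
  have hx0 := xx_pos hA
  calc (T + (K : ℝ) ^ 2) * (xx H T * (1 + Real.log K) ^ 33)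
      = ((T + (K : ℝ) ^ 2) * xx H T) * (1 + Real.log K) ^ 33 := by ring
    _ ≤ (5 * T * Real.log T ^ 4 / Real.log T ^ A) * (2 * Real.log T) ^ 33 := by
        apply mul_le_mul hmain hpow (by positivity) (by positivity)
    _ = _ := by rw [mul_pow]; ring

/-- conversion of the bound for the gap -/
theorem gap_conv {A : ℕ} {C H T : ℝ} (hA : Adm H T) (hC : 0 < C)
    (hbig : 2 * Real.log T ^ A ≤ Real.sqrt T)
    (hl1 : 2 ≤ Real.log (Real.log T))
    (hl2 : 12 * ((A : ℝ) + 2) * Real.log (Real.log T) ≤ Real.log T) :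
    Real.log T / 3 ≤ Real.log (Nl A H T) ∧
    dl (cN (C / Real.log (Nl A H T)) T (Nl A H T)) T ≤ 4 * Real.pi / Real.log (T ^ 3 * (2 * H)) *
      (1 + (3 * C + (4 + 12 * C) * ((A : ℝ) + 2)) * (Real.log (Real.log T) / Real.log T)) := by
  have hL := hA.log_ge
  have hT := hA.T_pos
  have hH := hA.H_pos
  have hHge := hA.H_ge
  norm_num at hHge
  have hpi := Real.pi_pos
  obtain ⟨n1, n2⟩ := Nl_ge hA hbig
  have n4 := Nl_le_T (A := A) hA
  set N := Nl A H T with hN
  set L := Real.log T with hLdef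
  set l := Real.log L with hl
  set h := Real.log H with hh
  have hh0 : 0 ≤ h := Real.log_nonneg (by linarith)
  have hhL : h ≤ L := Real.log_le_log hH hA.hi
  have hL0 : 0 < L := by linarith
  have hlog2 : Real.log 2 ≤ 0.7 := by linarith [Real.log_two_lt_d9]
  have hlog20 : 0 < Real.log 2 := Real.log_pos (by norm_num)
  have hN0 : (0 : ℝ) < N := by exact_mod_cast (by omega : 0 < N)
  have hlogN : (L + h) / 2 - A * l - Real.log 2 ≤ Real.log N := by
    have h2 := Real.log_le_log (by positivity) n1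
    rw [Real.log_div (by positivity) (by norm_num), Real.log_div (by positivity) (by positivity),
      Real.log_pow, Real.log_sqrt (by positivity), Real.log_mul hT.ne' hH.ne'] at h2
    exact h2
  have hA0 : (0 : ℝ) ≤ A := Nat.cast_nonneg A
  have hAl : (A : ℝ) * l + Real.log 2 ≤ ((A : ℝ) + 1) * l := by nlinarith
  have hlogN' : (L + h) / 2 - ((A : ℝ) + 1) * l ≤ Real.log N := by linarith
  have hlogN3 : L / 3 ≤ Real.log N := by nlinarith
  refine ⟨hlogN3, ?_⟩
  set n := Real.log N with hn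
  have hn0 : 0 < n := by linarith
  have e1 : dl (cN (C / n) T N) T = 2 * Real.pi * (1 + C / n) / (L + n) := by
    unfold dl cN
    rw [← hLdef, ← hn]
    field_simp
  have e2 : Real.log (T ^ 3 * (2 * H)) = 3 * L + (Real.log 2 + h) := by
    rw [Real.log_mul (by positivity) (by positivity), Real.log_pow,
      Real.log_mul (by norm_num) hH.ne']
    push_cast
    ring
  rw [e1, e2]
  set M := 3 * L + (Real.log 2 + h) with hM
  have hM0 : 0 < M := by linarith
  have hden : M / 2 - ((A : ℝ) + 2) * l ≤ L + n := by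
    rw [hM]
    nlinarith
  have hml : 4 * (((A : ℝ) + 2) * l) ≤ M := by
    rw [hM]
    nlinarith
  have hden0 : 0 < M / 2 - ((A : ℝ) + 2) * l := by nlinarith
  have hCn : C / n ≤ 3 * C / L := by
    rw [div_le_div_iff₀ hn0 hL0]
    nlinarith
  have step1 : 2 * Real.pi * (1 + C / n) / (L + n) ≤
      2 * Real.pi * (1 + 3 * C / L) / (M / 2 - ((A : ℝ) + 2) * l) := by
    apply div_le_div₀ (by positivity) _ hden0 hden
    gcongr
  refine step1.trans ?_
  -- 1 / (M/2 - y) ≤ (2/M) (1 + 4 y / M), y ≤ M/4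
  set y := ((A : ℝ) + 2) * l with hy
  have hy0 : 0 ≤ y := by positivity
  have step2 : 1 / (M / 2 - y) ≤ 2 / M * (1 + 4 * (y / L)) := by
    have h5 : y / M ≤ y / L := by
      apply div_le_div_of_nonneg_left hy0 hL0
      rw [hM]; linarith
    have h6 : 1 / (M / 2 - y) ≤ 2 / M * (1 + 4 * (y / M)) := by
      rw [div_mul_eq_mul_div, div_le_div_iff₀ hden0 hM0]
      have h7 : 2 * (1 + 4 * (y / M)) * (M / 2 - y) = M + 2 * y * (1 - 4 * (y / M)) := by
        field_simp
        ring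
      rw [h7]
      have h8 : 4 * (y / M) ≤ 1 := by
        rw [← mul_div_assoc, div_le_one hM0]
        exact hml
      nlinarith
    refine h6.trans ?_
    apply mul_le_mul_of_nonneg_left _ (by positivity)
    linarith
  calc 2 * Real.pi * (1 + 3 * C / L) / (M / 2 - y)
      = 2 * Real.pi * (1 + 3 * C / L) * (1 / (M / 2 - y)) := by ring
    _ ≤ 2 * Real.pi * (1 + 3 * C / L) * (2 / M * (1 + 4 * (y / L))) :=
        mul_le_mul_of_nonneg_left step2 (by positivity)
    _ = 4 * Real.pi / M * ((1 + 3 * C / L) * (1 + 4 * (y / L))) := by ring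
    _ ≤ _ := by
        apply mul_le_mul_of_nonneg_left _ (by positivity)
        have h9 : 3 * C / L ≤ 3 * C * (l / L) := by
          rw [← mul_div_assoc]
          apply div_le_div_of_nonneg_right _ hL0.le
          nlinarith
        have h10 : 3 * C / L ≤ 3 * C := div_le_self (by positivity) (by linarith)
        have h11 : y / L = ((A : ℝ) + 2) * (l / L) := by rw [hy]; ring
        have h12 : 0 ≤ y / L := by positivity
        calc (1 + 3 * C / L) * (1 + 4 * (y / L)) = 1 + 3 * C / L + 4 * (y / L) +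
              3 * C / L * (4 * (y / L)) := by ring
          _ ≤ 1 + 3 * C * (l / L) + 4 * (y / L) + 3 * C * (4 * (y / L)) := by
              have := mul_le_mul_of_nonneg_right h10 (by positivity : 0 ≤ 4 * (y / L))
              linarith
          _ = _ := by rw [h11]; ring

/-- the conclusion at one dyadic scale -/
theorem one_scale (B : ℕ) : ∃ C T0 : ℝ, 0 < C ∧ ∀ T H : ℝ, T0 ≤ T →
    Real.log T ^ (B + 38) ≤ H → H ≤ T → ∃ S : Set ℝ,
      volume S ≤ ENNReal.ofReal (T / (4 * Real.log T ^ B)) ∧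
      ∀ W : ℝ, T ≤ W → W + H ≤ 2 * T → W + H / 2 ∉ S →
        ∃ n : ℕ, 1 ≤ n ∧ W ≤ ord n ∧ ord (n + 1) ≤ W + H ∧
          ord (n + 1) - ord n ≤ 4 * Real.pi / Real.log (T ^ 3 * (2 * H)) *
            (1 + C * (Real.log (Real.log T) / Real.log T)) := by
  obtain ⟨Tn, C, hC, hns⟩ := AW.no_sep
  set A := B + 38 with hAdef
  have hll : Tendsto (fun T : ℝ => Real.log (Real.log T)) atTop atTop :=
    Real.tendsto_log_atTop.comp Real.tendsto_log_atTop
  have ev1 : ∀ᶠ T : ℝ in atTop, 12 * ((A : ℝ) + 2) * Real.log (Real.log T) ≤ Real.log T := by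
    have h1 := Real.isLittleO_log_id_atTop.comp_tendsto Real.tendsto_log_atTop
    have h2 := h1.bound (show (0 : ℝ) < 1 / (12 * ((A : ℝ) + 2)) by positivity)
    filter_upwards [h2, hll.eventually_ge_atTop 0, Real.tendsto_log_atTop.eventually_ge_atTop 0]
      with T h3 h4 h5
    simp only [Function.comp, id, Real.norm_eq_abs] at h3
    rw [abs_of_nonneg h4, abs_of_nonneg h5, div_mul_eq_mul_div, one_mul,
      le_div_iff₀ (by positivity)] at h3
    linarith
  have ev2 : ∀ᶠ T : ℝ in atTop, 2 ≤ Real.log (Real.log T) := hll.eventually_ge_atTop _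
  have ev3 : ∀ᶠ T : ℝ in atTop, 2 * Real.log T ^ A ≤ Real.sqrt T := by
    have h1 : (fun x : ℝ => Real.log x ^ (A : ℝ)) =o[atTop] fun x => x ^ (1 / 2 : ℝ) :=
      isLittleO_log_rpow_rpow_atTop (A : ℝ) (by norm_num)
    have h2 := h1.bound (show (0 : ℝ) < 1 / 2 by norm_num)
    filter_upwards [h2, eventually_ge_atTop 1] with T h4 h6
    have hlog : 0 ≤ Real.log T := Real.log_nonneg h6
    rw [Real.norm_eq_abs, Real.norm_eq_abs, abs_of_nonneg (Real.rpow_nonneg hlog _),
      abs_of_nonneg (Real.rpow_nonneg (by linarith) _), Real.rpow_natCast,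
      ← Real.sqrt_eq_rpow] at h4
    linarith
  have ev4 : ∀ᶠ T : ℝ in atTop, max (24 * C + 1) (4 * 50000 * (5 * 2 ^ 33)) ≤ Real.log T :=
    Real.tendsto_log_atTop.eventually_ge_atTop _
  obtain ⟨T1, hT1⟩ := eventually_atTop.mp (ev1.and (ev2.and (ev3.and ev4)))
  refine ⟨3 * (2 * C) + (4 + 12 * (2 * C)) * ((A : ℝ) + 2), max (max Tn T1) (Real.exp 100),
    by positivity, ?_⟩
  intro T H hT hlo hhi
  have hTn : Tn ≤ T := (le_max_left _ _).trans ((le_max_left _ _).trans hT)
  have hTT1 : T1 ≤ T := (le_max_right _ _).trans ((le_max_left _ _).trans hT)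
  have hTe : Real.exp 100 ≤ T := (le_max_right _ _).trans hT
  obtain ⟨k1, k2, k3, k4⟩ := hT1 T hTT1
  have hTpos : 0 < T := (Real.exp_pos _).trans_le hTe
  have hL : 100 ≤ Real.log T := by
    rw [Real.le_log_iff_exp_le hTpos]
    exact hTe
  have hA : Adm H T := ⟨hTe, (pow_le_pow_right₀ (by linarith) (by omega : 6 ≤ A)).trans hlo, hhi⟩
  obtain ⟨n1, n2⟩ := Nl_ge (A := A) hA k3
  have n4 := Nl_le_T (A := A) hA
  obtain ⟨g1, g2⟩ := gap_conv (A := A) hA (by positivity : 0 < 2 * C) k3 k2 k1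
  set N := Nl A H T with hN
  set ε := 2 * C / Real.log N with hε
  set δ := dl (cN ε T N) T with hδ
  have hlogN0 : 0 < Real.log N := by linarith
  have hε0 : 0 ≤ ε := by positivity
  have hε1 : ε ≤ 1 / 2 := by
    rw [hε, div_le_iff₀ hlogN0]
    have := (le_max_left _ _).trans k4
    linarith
  have hCε : C < ε * Real.log N := by
    rw [hε, div_mul_cancel₀ _ hlogN0.ne']
    linarith
  refine ⟨{t0 : ℝ | T ≤ t0 ∧ t0 ≤ 2 * T ∧
      ¬ (G1 H T N δ t0 ∧ G2 H T N δ (hh δ) t0 ∧ G2 H T N δ (-(hh δ)) t0)}, ?_, ?_⟩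
  · refine (bad_total H T N hA (by omega) δ).trans ?_
    apply ENNReal.ofReal_le_ofReal
    have h1 := XS_small A hA hlo k3
    have hLpos : 0 < Real.log T := by linarith
    have h2 : 5 * 2 ^ 33 * T * Real.log T ^ 37 / Real.log T ^ A =
        5 * 2 ^ 33 * T / (Real.log T ^ B * Real.log T) := by
      have e : Real.log T ^ A = Real.log T ^ 37 * (Real.log T ^ B * Real.log T) := by
        rw [hAdef]; ring
      rw [e]
      field_simp
    rw [h2] at h1
    have h3 : 50000 * (5 * 2 ^ 33 * T / (Real.log T ^ B * Real.log T)) ≤ T / (4 * Real.log T ^ B) := by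
      rw [← mul_div_assoc, div_le_div_iff₀ (by positivity) (by positivity)]
      have h4 := (le_max_right _ _).trans k4
      have h5 : 0 < T * Real.log T ^ B := by positivity
      have h6 : 4 * 50000 * (5 * 2 ^ 33) * (T * Real.log T ^ B) ≤
          Real.log T * (T * Real.log T ^ B) := mul_le_mul_of_nonneg_right h4 h5.le
      linarith
    linarith
  · intro W hW1 hW2 hgood
    have hHpos := hA.H_pos
    have hW : Win H T W N := ⟨hA, hW1, hW2, n2, n4⟩
    have hG : G1 H T N δ (W + H / 2) ∧ G2 H T N δ (hh δ) (W + H / 2) ∧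
        G2 H T N δ (-(hh δ)) (W + H / 2) := by
      by_contra hcon
      exact hgood ⟨by linarith, by linarith, hcon⟩
    have hsep := hns ε H T W N hε0 hε1 hW hTn hCε hG.1 hG.2.1 hG.2.2
    obtain ⟨c1, c2⟩ := cN_facts hA (by omega : 1 ≤ N) n4 hε0 hε1
    obtain ⟨n, hn, h1, h2, h3⟩ := gap_of_not_sep (by linarith [hA.T_ge'])
      (hA.dl_pos (by linarith : 0 < cN ε T N)).le hsep
    exact ⟨n, hn, h1, h2, h3.trans g2⟩

end Pool.Agent.W192.AW
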