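import Pool.Agent.W192.AW.Final2

open Complex Filter Topology Set MeasureTheory

namespace Pool.Agent.W192.AW

open SG hiding dd nn Sep cc
open Pool.Agent.W192.SI

/-- the upper bound for the gaps -/
noncomputable def gb (C H T : ℝ) : ℝ :=
  4 * Real.pi / Real.log (T ^ 3 * H) * (1 + C * (Real.log (Real.log T) / Real.log T))

theorem ll_antitone {T T' : ℝ} (hT : Real.exp 100 ≤ T) (h : T ≤ T') :
    Real.log (Real.log T') / Real.log T' ≤ Real.log (Real.log T) / Real.log T := by
  have hT0 : 0 < T := (Real.exp_pos _).trans_le hT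
  have h1 : 100 ≤ Real.log T := by
    rw [Real.le_log_iff_exp_le hT0]; exact hT
  have h2 : Real.log T ≤ Real.log T' := Real.log_le_log hT0 h
  have he : Real.exp 1 ≤ 100 := by linarith [Real.exp_one_lt_d9]
  exact Real.log_div_self_antitoneOn (show Real.exp 1 ≤ Real.log T by linarith)
    (show Real.exp 1 ≤ Real.log T' by linarith) h2

/-- **almost all short intervals contain a small gap** -/
theorem almost_all (B : ℕ) : ∃ C T0 : ℝ, 0 < C ∧ ∀ T H : ℝ, T0 ≤ T →
    Real.log T ^ (B + 39) ≤ H → H ≤ T →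
      volume {t : ℝ | T ≤ t ∧ t ≤ 2 * T ∧ ¬ ∃ n : ℕ, 1 ≤ n ∧ t ≤ ord n ∧ ord n ≤ ord (n + 1) ∧
        ord (n + 1) ≤ t + H ∧ ord (n + 1) - ord n ≤ gb C H T} ≤
      ENNReal.ofReal (T / Real.log T ^ B) := by
  obtain ⟨C, T1, hC, h1⟩ := one_scale B
  have ev4 : ∀ᶠ T : ℝ in atTop, max 100 (2 ^ (B + 39)) ≤ Real.log T :=
    Real.tendsto_log_atTop.eventually_ge_atTop _
  obtain ⟨T2, hT2⟩ := eventually_atTop.mp ev4
  refine ⟨C, max (max T1 T2) (Real.exp 100), hC, ?_⟩
  intro T H hT hlo hhi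
  have hTT1 : T1 ≤ T := (le_max_left _ _).trans ((le_max_left _ _).trans hT)
  have hTT2 : T2 ≤ T := (le_max_right _ _).trans ((le_max_left _ _).trans hT)
  have hTe : Real.exp 100 ≤ T := (le_max_right _ _).trans hT
  have hTpos : 0 < T := (Real.exp_pos _).trans_le hTe
  have hL2 := hT2 T hTT2
  have hL : 100 ≤ Real.log T := (le_max_left _ _).trans hL2
  have hL2' : (2 : ℝ) ^ (B + 39) ≤ Real.log T := (le_max_right _ _).trans hL2
  have hLpos : 0 < Real.log T := by linarith
  have hHpos : 0 < H := lt_of_lt_of_le (by positivity) hlo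
  have hpi := Real.pi_pos
  -- conditions for `(T, H/2)` and `(2T, H/2)`
  have hlog2T : Real.log (2 * T) ≤ 2 * Real.log T := by
    rw [Real.log_mul (by norm_num) hTpos.ne']
    have := Real.log_two_lt_d9
    linarith
  have hlogTT : Real.log T ≤ Real.log (2 * T) := Real.log_le_log hTpos (by linarith)
  have hcond2 : Real.log (2 * T) ^ (B + 38) ≤ H / 2 := by
    have h2 : Real.log (2 * T) ^ (B + 38) ≤ (2 * Real.log T) ^ (B + 38) :=
      pow_le_pow_left₀ (by linarith) hlog2T _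
    have h3 : (2 * Real.log T) ^ (B + 38) = 2 ^ (B + 38) * Real.log T ^ (B + 38) := mul_pow _ _ _
    have h4 : 2 * (2 ^ (B + 38) * Real.log T ^ (B + 38)) ≤ Real.log T ^ (B + 39) := by
      have e : Real.log T ^ (B + 39) = Real.log T * Real.log T ^ (B + 38) := by ring
      rw [e]
      have e2 : 2 * (2 ^ (B + 38) * Real.log T ^ (B + 38)) =
        2 ^ (B + 39) * Real.log T ^ (B + 38) := by ring
      rw [e2]
      exact mul_le_mul_of_nonneg_right hL2' (by positivity)
    linarith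
  have hcond1 : Real.log T ^ (B + 38) ≤ H / 2 :=
    (pow_le_pow_left₀ hLpos.le hlogTT _).trans hcond2
  obtain ⟨S1, hS1, hS1'⟩ := h1 T (H / 2) hTT1 hcond1 (by linarith)
  obtain ⟨S2, hS2, hS2'⟩ := h1 (2 * T) (H / 2) (by linarith) hcond2 (by linarith)
  have e2H : 2 * (H / 2) = H := by ring
  rw [e2H] at hS1' hS2'
  have hM0 : 0 < Real.log (T ^ 3 * H) := by
    rw [Real.log_mul (by positivity) hHpos.ne', Real.log_pow]
    have : 0 ≤ Real.log H := by
      apply Real.log_nonneg
      have : (1 : ℝ) ≤ Real.log T ^ (B + 39) := one_le_pow₀ (by linarith)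
      linarith
    push_cast
    linarith
  have hgb2 : 4 * Real.pi / Real.log ((2 * T) ^ 3 * H) *
      (1 + C * (Real.log (Real.log (2 * T)) / Real.log (2 * T))) ≤ gb C H T := by
    unfold gb
    have h5 : Real.log (T ^ 3 * H) ≤ Real.log ((2 * T) ^ 3 * H) := by
      apply Real.log_le_log (by positivity)
      apply mul_le_mul_of_nonneg_right _ hHpos.le
      exact pow_le_pow_left₀ hTpos.le (by linarith) 3
    have h6 : 4 * Real.pi / Real.log ((2 * T) ^ 3 * H) ≤ 4 * Real.pi / Real.log (T ^ 3 * H) :=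
      div_le_div_of_nonneg_left (by positivity) hM0 h5
    have h7 := ll_antitone hTe (by linarith : T ≤ 2 * T)
    have h8 : 0 ≤ Real.log (Real.log (2 * T)) / Real.log (2 * T) := by
      apply div_nonneg (Real.log_nonneg (by linarith)) (by linarith)
    apply mul_le_mul h6 _ (by positivity) (by positivity)
    have := mul_le_mul_of_nonneg_left h7 hC.le
    linarith
  have hsub : {t : ℝ | T ≤ t ∧ t ≤ 2 * T ∧ ¬ ∃ n : ℕ, 1 ≤ n ∧ t ≤ ord n ∧ ord n ≤ ord (n + 1) ∧
        ord (n + 1) ≤ t + H ∧ ord (n + 1) - ord n ≤ gb C H T} ⊆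
      (fun t => t + H / 4) ⁻¹' S1 ∪ (fun t => t + 3 * H / 4) ⁻¹' S2 := by
    rintro t ⟨ht1, ht2, ht3⟩
    by_contra hcon
    rw [Set.mem_union, not_or, Set.mem_preimage, Set.mem_preimage] at hcon
    apply ht3
    rcases le_or_gt (t + H / 2) (2 * T) with hle | hgt
    · obtain ⟨n, hn, a1, a2, a3⟩ := hS1' t ht1 hle (by
        have : t + H / 2 / 2 = t + H / 4 := by ring
        rw [this]
        exact hcon.1)
      refine ⟨n, hn, a1, ord_mono hn (by omega), by linarith, ?_⟩
      unfold gb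
      exact a3
    · obtain ⟨n, hn, a1, a2, a3⟩ := hS2' (t + H / 2) hgt.le (by linarith) (by
        have : t + H / 2 + H / 2 / 2 = t + 3 * H / 4 := by ring
        rw [this]
        exact hcon.2)
      exact ⟨n, hn, by linarith, ord_mono hn (by omega), by linarith, a3.trans hgb2⟩
  refine (measure_mono hsub).trans ((measure_union_le _ _).trans ?_)
  rw [measure_preimage_add_right, measure_preimage_add_right]
  refine (add_le_add hS1 hS2).trans ?_
  rw [← ENNReal.ofReal_add (by positivity) (by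
    have : 0 < Real.log (2 * T) := by linarith
    positivity)]
  apply ENNReal.ofReal_le_ofReal
  have h9 : Real.log T ^ B ≤ Real.log (2 * T) ^ B := pow_le_pow_left₀ hLpos.le hlogTT B
  have hLB : 0 < Real.log T ^ B := by positivity
  have h10 : 2 * T / (4 * Real.log (2 * T) ^ B) ≤ 2 * T / (4 * Real.log T ^ B) := by
    apply div_le_div_of_nonneg_left (by positivity) (by positivity)
    linarith
  calc T / (4 * Real.log T ^ B) + 2 * T / (4 * Real.log (2 * T) ^ B)
      ≤ T / (4 * Real.log T ^ B) + 2 * T / (4 * Real.log T ^ B) := by linarith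
    _ = (3 / 4) * (T / Real.log T ^ B) := by field_simp; ring
    _ ≤ T / Real.log T ^ B := by
        have : 0 ≤ T / Real.log T ^ B := by positivity
        linarith

/-- the small gaps in `[T, 2T]` -/
def smallSet (g T : ℝ) : Set ℕ :=
  {n : ℕ | 1 ≤ n ∧ T ≤ ord n ∧ ord (n + 1) ≤ 2 * T ∧ ord (n + 1) - ord n ≤ g}

theorem smallSet_finite (g T : ℝ) : (smallSet g T).Finite := by
  apply (Set.finite_Iic (NZ (2 * T))).subset
  rintro n ⟨h1, -, h3, -⟩
  have := (ord_le_iff (by omega : 1 ≤ n + 1) (2 * T)).mp h3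
  exact Set.mem_Iic.mpr (by omega)

/-- **counting the small gaps** -/
theorem count : ∃ C T0 : ℝ, 0 < C ∧ ∀ T H : ℝ, T0 ≤ T →
    Real.log T ^ 40 ≤ H → H ≤ T / 4 →
      T / (2 * H) ≤ ((smallSet (gb C H T) T).ncard : ℝ) := by
  obtain ⟨C, T1, hC, h1⟩ := almost_all 1
  refine ⟨C, max T1 (Real.exp 100), hC, ?_⟩
  intro T H hT hlo hhi
  have hTT1 : T1 ≤ T := (le_max_left _ _).trans hT
  have hTe : Real.exp 100 ≤ T := (le_max_right _ _).trans hT
  have hTpos : 0 < T := (Real.exp_pos _).trans_le hTe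
  have hL : 100 ≤ Real.log T := by
    rw [Real.le_log_iff_exp_le hTpos]
    exact hTe
  have hHpos : 0 < H := lt_of_lt_of_le (by positivity) hlo
  have h2 := h1 T H hTT1 hlo (by linarith)
  set g := gb C H T with hg
  set F := (smallSet_finite g T).toFinset with hF
  have hcard : (smallSet g T).ncard = F.card := Set.ncard_eq_toFinset_card _ _
  have hsub : Icc T (2 * T - H) ⊆ {t : ℝ | T ≤ t ∧ t ≤ 2 * T ∧ ¬ ∃ n : ℕ, 1 ≤ n ∧ t ≤ ord n ∧
      ord n ≤ ord (n + 1) ∧ ord (n + 1) ≤ t + H ∧ ord (n + 1) - ord n ≤ g} ∪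
      ⋃ n ∈ F, Icc (ord n - H) (ord n) := by
    intro t ht
    by_cases hex : ∃ n : ℕ, 1 ≤ n ∧ t ≤ ord n ∧
      ord n ≤ ord (n + 1) ∧ ord (n + 1) ≤ t + H ∧ ord (n + 1) - ord n ≤ g
    · right
      obtain ⟨n, a1, a2, a3, a4, a5⟩ := hex
      rw [Set.mem_iUnion₂]
      refine ⟨n, ?_, by linarith, a2⟩
      rw [hF, Set.Finite.mem_toFinset]
      exact ⟨a1, ht.1.trans a2, by linarith [ht.2], a5⟩
    · left
      exact ⟨ht.1, by linarith [ht.2], hex⟩
  have h3 := (measure_mono hsub).trans (measure_union_le (μ := volume) _ _)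
  have h4 : volume (⋃ n ∈ F, Icc (ord n - H) (ord n)) ≤ ENNReal.ofReal (F.card * H) := by
    refine (measure_biUnion_finset_le F _).trans ?_
    have e : ∀ n ∈ F, volume (Icc (ord n - H) (ord n)) = ENNReal.ofReal H := by
      intro n _
      rw [Real.volume_Icc]
      congr 1
      ring
    rw [Finset.sum_congr rfl e, Finset.sum_const, nsmul_eq_mul,
      ENNReal.ofReal_mul (Nat.cast_nonneg _), ENNReal.ofReal_natCast]
  have h5 := h3.trans (add_le_add h2 h4)
  rw [Real.volume_Icc, ← ENNReal.ofReal_add (by positivity) (by positivity),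
    ENNReal.ofReal_le_ofReal_iff (by positivity), pow_one] at h5
  rw [hcard, div_le_iff₀ (by positivity)]
  have h6 : T / Real.log T ≤ T / 100 := div_le_div_of_nonneg_left hTpos.le (by norm_num) hL
  linarith

/-- the count for a fixed constant: `T^(1-θ)` gaps below `c` times the mean if `c (3 + θ) > 2` -/
theorem count_pow (c θ : ℝ) (hθ : 0 < θ) (hθ1 : θ < 1) (hc : 2 < c * (3 + θ)) :
    ∃ T0 : ℝ, ∀ T : ℝ, T0 ≤ T →
      T ^ (1 - θ) / 2 ≤ ({n : ℕ | 1 ≤ n ∧ T ≤ ord n ∧ ord (n + 1) ≤ 2 * T ∧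
        ord (n + 1) - ord n < c * (2 * Real.pi / Real.log T)}.ncard : ℝ) := by
  obtain ⟨C, T1, hC, h1⟩ := count
  have ev1 : ∀ᶠ T : ℝ in atTop, Real.log T ^ 40 ≤ T ^ θ := by
    have h1 : (fun x : ℝ => Real.log x ^ (40 : ℝ)) =o[atTop] fun x => x ^ θ :=
      isLittleO_log_rpow_rpow_atTop 40 hθ
    have h2 := h1.bound (show (0 : ℝ) < 1 by norm_num)
    filter_upwards [h2, eventually_ge_atTop 1] with T h4 h6
    have hlog : 0 ≤ Real.log T := Real.log_nonneg h6
    rw [Real.norm_eq_abs, Real.norm_eq_abs, abs_of_nonneg (Real.rpow_nonneg hlog _),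
      abs_of_nonneg (Real.rpow_nonneg (by linarith) _), one_mul] at h4
    have : Real.log T ^ (40 : ℝ) = Real.log T ^ 40 := by
      rw [show (40 : ℝ) = ((40 : ℕ) : ℝ) by norm_num, Real.rpow_natCast]
    rwa [this] at h4
  have ev2 : ∀ᶠ T : ℝ in atTop, T ^ θ ≤ T / 4 := by
    have h2 : Tendsto (fun T : ℝ => T ^ (1 - θ)) atTop atTop := tendsto_rpow_atTop (by linarith)
    filter_upwards [h2.eventually_ge_atTop 4, eventually_gt_atTop 0] with T h3 h4
    have h5 : T ^ θ * T ^ (1 - θ) = T := by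
      rw [← Real.rpow_add h4]
      simp
    have h6 : 0 < T ^ θ := Real.rpow_pos_of_pos h4 _
    nlinarith
  have hll : Tendsto (fun T : ℝ => Real.log (Real.log T) / Real.log T) atTop (𝓝 0) := by
    have h1 := Real.isLittleO_log_id_atTop.comp_tendsto Real.tendsto_log_atTop
    exact h1.tendsto_div_nhds_zero
  have ev3 : ∀ᶠ T : ℝ in atTop, 2 * (1 + C * (Real.log (Real.log T) / Real.log T)) < c * (3 + θ) := by
    have h2 : Tendsto (fun T : ℝ => 2 * (1 + C * (Real.log (Real.log T) / Real.log T))) atTop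
        (𝓝 (2 * (1 + C * 0))) := (tendsto_const_nhds.add (hll.const_mul C)).const_mul 2
    rw [mul_zero, add_zero, mul_one] at h2
    exact h2.eventually (gt_mem_nhds hc)
  obtain ⟨T2, hT2⟩ := eventually_atTop.mp (ev1.and (ev2.and ev3))
  refine ⟨max (max T1 T2) 3, ?_⟩
  intro T hT
  have hTT1 : T1 ≤ T := (le_max_left _ _).trans ((le_max_left _ _).trans hT)
  have hTT2 : T2 ≤ T := (le_max_right _ _).trans ((le_max_left _ _).trans hT)
  have hT3 : 3 ≤ T := (le_max_right _ _).trans hT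
  obtain ⟨k1, k2, k3⟩ := hT2 T hTT2
  have hTpos : 0 < T := by linarith
  have hL : 0 < Real.log T := Real.log_pos (by linarith)
  have hpi := Real.pi_pos
  have h2 := h1 T (T ^ θ) hTT1 k1 k2
  have e1 : T / (2 * T ^ θ) = T ^ (1 - θ) / 2 := by
    rw [Real.rpow_sub hTpos, Real.rpow_one]
    have : 0 < T ^ θ := Real.rpow_pos_of_pos hTpos _
    field_simp
  rw [e1] at h2
  refine h2.trans ?_
  have hlt : gb C (T ^ θ) T < c * (2 * Real.pi / Real.log T) := by
    unfold gb
    have e2 : Real.log (T ^ 3 * T ^ θ) = (3 + θ) * Real.log T := by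
      rw [Real.log_mul (by positivity) (by positivity), Real.log_pow, Real.log_rpow hTpos]
      push_cast
      ring
    rw [e2]
    have e3 : 4 * Real.pi / ((3 + θ) * Real.log T) *
        (1 + C * (Real.log (Real.log T) / Real.log T)) =
        (2 * Real.pi / ((3 + θ) * Real.log T)) *
          (2 * (1 + C * (Real.log (Real.log T) / Real.log T))) := by ring
    have e4 : c * (2 * Real.pi / Real.log T) =
        (2 * Real.pi / ((3 + θ) * Real.log T)) * (c * (3 + θ)) := by
      have : (3 + θ) ≠ 0 := by linarith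
      field_simp
    rw [e3, e4]
    exact mul_lt_mul_of_pos_left k3 (by positivity)
  have hfin : {n : ℕ | 1 ≤ n ∧ T ≤ ord n ∧ ord (n + 1) ≤ 2 * T ∧
        ord (n + 1) - ord n < c * (2 * Real.pi / Real.log T)}.Finite := by
    apply (smallSet_finite (c * (2 * Real.pi / Real.log T)) T).subset
    rintro n ⟨a1, a2, a3, a4⟩
    exact ⟨a1, a2, a3, a4.le⟩
  have hle : (smallSet (gb C (T ^ θ) T) T).ncard ≤ {n : ℕ | 1 ≤ n ∧ T ≤ ord n ∧ ord (n + 1) ≤ 2 * T ∧
        ord (n + 1) - ord n < c * (2 * Real.pi / Real.log T)}.ncard := by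
    apply Set.ncard_le_ncard _ hfin
    rintro n ⟨a1, a2, a3, a4⟩
    exact ⟨a1, a2, a3, a4.trans_lt hlt⟩
  exact_mod_cast hle

end Pool.Agent.W192.AW
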