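import Pool.Agent.W192.AW.LS

open Complex Filter Topology Set MeasureTheory

namespace Pool.Agent.W192.AW

open SG SG.MVaux

/-- reduced fraction -/
def red (p : ℕ × ℕ) : ℕ × ℕ := (p.1 / Nat.gcd p.1 p.2, p.2 / Nat.gcd p.1 p.2)

/-- the frequency of a pair -/
noncomputable def lam (p : ℕ × ℕ) : ℝ := Real.log p.2 - Real.log p.1

theorem red_spec (p : ℕ × ℕ) (h1 : 1 ≤ p.1) (h2 : 1 ≤ p.2) :
    1 ≤ (red p).1 ∧ 1 ≤ (red p).2 ∧ (red p).1 ≤ p.1 ∧ (red p).2 ≤ p.2 ∧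
      Nat.Coprime (red p).1 (red p).2 ∧ p.1 = (red p).1 * Nat.gcd p.1 p.2 ∧
      p.2 = (red p).2 * Nat.gcd p.1 p.2 ∧ 1 ≤ Nat.gcd p.1 p.2 := by
  have hg : 0 < Nat.gcd p.1 p.2 := Nat.gcd_pos_of_pos_left _ (by omega)
  have d1 : Nat.gcd p.1 p.2 ∣ p.1 := Nat.gcd_dvd_left _ _
  have d2 : Nat.gcd p.1 p.2 ∣ p.2 := Nat.gcd_dvd_right _ _
  have e1 : p.1 / Nat.gcd p.1 p.2 * Nat.gcd p.1 p.2 = p.1 := Nat.div_mul_cancel d1
  have e2 : p.2 / Nat.gcd p.1 p.2 * Nat.gcd p.1 p.2 = p.2 := Nat.div_mul_cancel d2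
  refine ⟨Nat.div_pos (Nat.le_of_dvd (by omega) d1) hg, Nat.div_pos (Nat.le_of_dvd (by omega) d2) hg,
    Nat.div_le_self _ _, Nat.div_le_self _ _, Nat.coprime_div_gcd_div_gcd hg, e1.symm, e2.symm, hg⟩

theorem lam_red (p : ℕ × ℕ) (h1 : 1 ≤ p.1) (h2 : 1 ≤ p.2) : lam (red p) = lam p := by
  obtain ⟨k1, k2, -, -, -, e1, e2, k3⟩ := red_spec p h1 h2
  set g := Nat.gcd p.1 p.2 with hg
  have g0 : (0 : ℝ) < g := by exact_mod_cast k3
  have a0 : (0 : ℝ) < (red p).1 := by exact_mod_cast k1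
  have b0 : (0 : ℝ) < (red p).2 := by exact_mod_cast k2
  unfold lam
  have f1 : Real.log p.1 = Real.log (red p).1 + Real.log g := by
    rw [← Real.log_mul a0.ne' g0.ne']
    congr 1
    exact_mod_cast e1
  have f2 : Real.log p.2 = Real.log (red p).2 + Real.log g := by
    rw [← Real.log_mul b0.ne' g0.ne']
    congr 1
    exact_mod_cast e2
  rw [f1, f2]
  ring

theorem cross_ne {r s : ℕ × ℕ} (hr : Nat.Coprime r.1 r.2) (hs : Nat.Coprime s.1 s.2)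
    (hr1 : 1 ≤ r.1) (hs1 : 1 ≤ s.1) (hne : r ≠ s) : r.2 * s.1 ≠ r.1 * s.2 := by
  intro h
  apply hne
  have d1 : r.1 ∣ s.1 := by
    have : r.1 ∣ r.2 * s.1 := ⟨s.2, h⟩
    exact hr.dvd_of_dvd_mul_left this
  have d2 : s.1 ∣ r.1 := by
    have : s.1 ∣ r.1 * s.2 := ⟨r.2, by rw [← h]; ring⟩
    exact hs.dvd_of_dvd_mul_right this
  have e1 : r.1 = s.1 := Nat.dvd_antisymm d1 d2
  have e2 : r.2 = s.2 := by
    rw [e1, mul_comm s.1 s.2] at h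
    exact Nat.eq_of_mul_eq_mul_right (by omega) h
  exact Prod.ext e1 e2

theorem abs_log_gap {u v K : ℕ} (hu : 1 ≤ u) (hv : 1 ≤ v) (huK : u ≤ K) (hvK : v ≤ K) (h : u ≠ v) :
    1 / (K : ℝ) ≤ |Real.log u - Real.log v| := by
  rcases lt_or_gt_of_ne h with h | h
  · have := log_gap hu hv hvK h
    rw [abs_sub_comm]
    exact this.trans (le_abs_self _)
  · have := log_gap hv hu huK h
    exact this.trans (le_abs_self _)

theorem lam_sep {r s : ℕ × ℕ} {M : ℕ} (hr : Nat.Coprime r.1 r.2) (hs : Nat.Coprime s.1 s.2)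
    (hr1 : 1 ≤ r.1) (hr2 : 1 ≤ r.2) (hs1 : 1 ≤ s.1) (hs2 : 1 ≤ s.2) (hr1M : r.1 ≤ M) (hr2M : r.2 ≤ M)
    (hs1M : s.1 ≤ M) (hs2M : s.2 ≤ M) (hne : r ≠ s) : 1 / (M : ℝ) ^ 2 ≤ |lam r - lam s| := by
  have h1 := cross_ne hr hs hr1 hs1 hne
  have h2 := abs_log_gap (u := r.2 * s.1) (v := r.1 * s.2) (K := M * M)
    (Nat.mul_pos (by omega) (by omega)) (Nat.mul_pos (by omega) (by omega))
    (Nat.mul_le_mul hr2M hs1M) (Nat.mul_le_mul hr1M hs2M) h1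
  have a1 : (r.1 : ℝ) ≠ 0 := by exact_mod_cast (by omega : r.1 ≠ 0)
  have a2 : (r.2 : ℝ) ≠ 0 := by exact_mod_cast (by omega : r.2 ≠ 0)
  have a3 : (s.1 : ℝ) ≠ 0 := by exact_mod_cast (by omega : s.1 ≠ 0)
  have a4 : (s.2 : ℝ) ≠ 0 := by exact_mod_cast (by omega : s.2 ≠ 0)
  push_cast at h2
  rw [Real.log_mul a2 a3, Real.log_mul a1 a4, ← sq] at h2
  have e : lam r - lam s = Real.log r.2 + Real.log s.1 - (Real.log r.1 + Real.log s.2) := by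
    unfold lam
    ring
  rw [e]
  exact h2

/-- the large sieve for fractions -/
theorem frac_sieve (P : Finset (ℕ × ℕ)) (M : ℕ) (hM : 1 ≤ M)
    (hP : ∀ p ∈ P, 1 ≤ p.1 ∧ p.1 ≤ M ∧ 1 ≤ p.2 ∧ p.2 ≤ M) (κ : ℕ × ℕ → ℂ) (T τ : ℝ) (hT : 0 < T) :
    Integrable (fun t : ℝ => Real.exp (-(t - τ) ^ 2 / (2 * T ^ 2)) *
      ‖∑ p ∈ P, κ p * cexp (I * (lam p : ℂ) * t)‖ ^ 2) ∧
    ∫ t : ℝ, Real.exp (-(t - τ) ^ 2 / (2 * T ^ 2)) *
      ‖∑ p ∈ P, κ p * cexp (I * (lam p : ℂ) * t)‖ ^ 2 ≤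
      18 * (T + (M : ℝ) ^ 2) * ∑ r ∈ P.image red, (∑ p ∈ P with red p = r, ‖κ p‖) ^ 2 := by
  classical
  set c : ℕ × ℕ → ℂ := fun r => ∑ p ∈ P with red p = r, κ p with hc
  have hM0 : (0 : ℝ) < M := by exact_mod_cast hM
  have hrw : ∀ t : ℝ, ∑ p ∈ P, κ p * cexp (I * (lam p : ℂ) * t) =
      ∑ r ∈ P.image red, c r * cexp (I * (lam r : ℂ) * t) := by
    intro t
    rw [← Finset.sum_fiberwise_of_maps_to (g := red) (t := P.image red)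
      (fun p hp => Finset.mem_image_of_mem red hp)]
    refine Finset.sum_congr rfl fun r _ => ?_
    rw [hc]
    simp only
    rw [Finset.sum_mul]
    refine Finset.sum_congr rfl fun p hp => ?_
    obtain ⟨hp1, hp2⟩ := Finset.mem_filter.mp hp
    obtain ⟨k1, k2, k3, k4⟩ := hP p hp1
    rw [← hp2, lam_red p k1 k3]
  have hsep : ∀ r ∈ P.image red, ∀ s ∈ P.image red, r ≠ s → 1 / (M : ℝ) ^ 2 ≤ |lam r - lam s| := by
    intro r hr s hs hne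
    obtain ⟨p, hp, rfl⟩ := Finset.mem_image.mp hr
    obtain ⟨q, hq, rfl⟩ := Finset.mem_image.mp hs
    obtain ⟨k1, k2, k3, k4⟩ := hP p hp
    obtain ⟨l1, l2, l3, l4⟩ := hP q hq
    obtain ⟨a1, a2, a3, a4, a5, -⟩ := red_spec p k1 k3
    obtain ⟨b1, b2, b3, b4, b5, -⟩ := red_spec q l1 l3
    exact lam_sep a5 b5 a1 a2 b1 b2 (a3.trans k2) (a4.trans k4) (b3.trans l2) (b4.trans l4) hne
  have h := gauss_sieve (P.image red) lam c (1 / (M : ℝ) ^ 2) T τ (by positivity) hT hsep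
  simp_rw [hrw]
  refine ⟨h.1, h.2.trans ?_⟩
  rw [one_div_one_div]
  apply mul_le_mul_of_nonneg_left _ (by positivity)
  refine Finset.sum_le_sum fun r _ => ?_
  exact pow_le_pow_left₀ (norm_nonneg _) (norm_sum_le _ _) 2

/-- Cauchy-Schwarz on the fibres -/
theorem fibre_cs (P : Finset (ℕ × ℕ)) (M : ℕ) (hM : 1 ≤ M)
    (hP : ∀ p ∈ P, 1 ≤ p.1 ∧ p.1 ≤ M ∧ 1 ≤ p.2 ∧ p.2 ≤ M) (f : ℕ × ℕ → ℝ) :
    ∑ r ∈ P.image red, (∑ p ∈ P with red p = r, f p) ^ 2 ≤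
      (1 + Real.log M) * ∑ p ∈ P, (Nat.gcd p.1 p.2 : ℝ) * f p ^ 2 := by
  classical
  have hfib : ∑ p ∈ P, (Nat.gcd p.1 p.2 : ℝ) * f p ^ 2 =
      ∑ r ∈ P.image red, ∑ p ∈ P with red p = r, (Nat.gcd p.1 p.2 : ℝ) * f p ^ 2 :=
    (Finset.sum_fiberwise_of_maps_to (g := red) (t := P.image red)
      (fun p hp => Finset.mem_image_of_mem red hp) _).symm
  rw [hfib, Finset.mul_sum]
  refine Finset.sum_le_sum fun r _ => ?_
  set F := P.filter (fun p => red p = r) with hF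
  have hpos : ∀ p ∈ F, (0 : ℝ) < (Nat.gcd p.1 p.2 : ℝ) := by
    intro p hp
    obtain ⟨hp1, hp2⟩ := Finset.mem_filter.mp hp
    obtain ⟨k1, k2, k3, k4⟩ := hP p hp1
    obtain ⟨-, -, -, -, -, -, -, a⟩ := red_spec p k1 k3
    exact_mod_cast a
  have hcs : (∑ p ∈ F, f p) ^ 2 ≤ (∑ p ∈ F, 1 / (Nat.gcd p.1 p.2 : ℝ)) *
      ∑ p ∈ F, (Nat.gcd p.1 p.2 : ℝ) * f p ^ 2 := by
    apply Finset.sum_sq_le_sum_mul_sum_of_sq_eq_mul
    · intro p hp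
      have := hpos p hp
      positivity
    · intro p hp
      have := hpos p hp
      positivity
    · intro p hp
      have := hpos p hp
      field_simp
  refine hcs.trans ?_
  apply mul_le_mul_of_nonneg_right _ (Finset.sum_nonneg fun p _ => by positivity)
  have hinj : Set.InjOn (fun p : ℕ × ℕ => Nat.gcd p.1 p.2) F := by
    intro p hp q hq h
    simp only at h
    obtain ⟨hp1, hp2⟩ := Finset.mem_filter.mp hp
    obtain ⟨hq1, hq2⟩ := Finset.mem_filter.mp hq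
    obtain ⟨k1, k2, k3, k4⟩ := hP p hp1
    obtain ⟨l1, l2, l3, l4⟩ := hP q hq1
    obtain ⟨-, -, -, -, -, a1, a2, -⟩ := red_spec p k1 k3
    obtain ⟨-, -, -, -, -, b1, b2, -⟩ := red_spec q l1 l3
    have e : red p = red q := hp2.trans hq2.symm
    apply Prod.ext
    · rw [a1, b1, e, h]
    · rw [a2, b2, e, h]
  have h1 : ∑ p ∈ F, 1 / (Nat.gcd p.1 p.2 : ℝ) =
      ∑ k ∈ F.image (fun p : ℕ × ℕ => Nat.gcd p.1 p.2), 1 / (k : ℝ) :=
    (Finset.sum_image (f := fun k : ℕ => 1 / (k : ℝ)) hinj).symm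
  rw [h1]
  have h2 : ∑ k ∈ F.image (fun p : ℕ × ℕ => Nat.gcd p.1 p.2), 1 / (k : ℝ) ≤
      ∑ k ∈ Finset.Icc 1 M, 1 / (k : ℝ) := by
    apply Finset.sum_le_sum_of_subset_of_nonneg
    · intro k hk
      obtain ⟨p, hp, rfl⟩ := Finset.mem_image.mp hk
      obtain ⟨hp1, hp2⟩ := Finset.mem_filter.mp hp
      obtain ⟨k1, k2, k3, k4⟩ := hP p hp1
      obtain ⟨-, -, -, -, -, -, -, a⟩ := red_spec p k1 k3
      exact Finset.mem_Icc.mpr ⟨a, (Nat.gcd_le_left _ (by omega)).trans k2⟩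
    · intro k _ _
      positivity
  refine h2.trans ?_
  have h := harmonic_le_one_add_log M
  rw [harmonic_eq_sum_Icc] at h
  push_cast at h
  simpa [one_div] using h

end Pool.Agent.W192.AW
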