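import Pool.Agent.H382R2.GaussMV

open Complex Filter Topology Set MeasureTheory

namespace Pool.Agent.W192.AW

open SG SG.MVaux

/-- `∑_{n < K} exp (-(η n)^2 / 2) ≤ 1 + 3 / η` -/
theorem gauss_sum (η : ℝ) (hη : 0 < η) (K : ℕ) :
    ∑ n ∈ Finset.range K, Real.exp (-(η * n) ^ 2 / 2) ≤ 1 + 3 / η := by
  rcases Nat.eq_zero_or_pos K with h0 | hK
  · subst h0
    simp only [Finset.range_zero, Finset.sum_empty]
    positivity
  obtain ⟨a, rfl⟩ : ∃ a, K = a + 1 := ⟨K - 1, by omega⟩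
  rw [Finset.sum_range_succ']
  have hanti : AntitoneOn (fun x : ℝ => Real.exp (-(η * x) ^ 2 / 2)) (Icc 0 (0 + (a : ℝ))) := by
    intro x hx y hy hxy
    apply Real.exp_le_exp.mpr
    have h1 : 0 ≤ η * x := mul_nonneg hη.le hx.1
    have h2 : η * x ≤ η * y := mul_le_mul_of_nonneg_left hxy hη.le
    nlinarith
  have h1 := hanti.sum_le_integral
  have e1 : ∀ i : ℕ, Real.exp (-(η * ((i + 1 : ℕ) : ℝ)) ^ 2 / 2) =
      (fun x : ℝ => Real.exp (-(η * x) ^ 2 / 2)) (0 + ((i + 1 : ℕ) : ℝ)) := by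
    intro i
    simp only [zero_add]
  have h2 : ∑ k ∈ Finset.range a, Real.exp (-(η * ((k + 1 : ℕ) : ℝ)) ^ 2 / 2) ≤
      ∫ x in (0 : ℝ)..(0 + (a : ℝ)), Real.exp (-(η * x) ^ 2 / 2) := by
    simp_rw [e1]
    exact h1
  have e2 : ∀ x : ℝ, Real.exp (-(η * x) ^ 2 / 2) = Real.exp (-(x - 0) ^ 2 / (2 * (1 / η) ^ 2)) := by
    intro x
    congr 1
    field_simp
    ring
  have h3 : ∫ x in (0 : ℝ)..(0 + (a : ℝ)), Real.exp (-(η * x) ^ 2 / 2) ≤ 3 / η := by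
    simp_rw [e2]
    rw [intervalIntegral.integral_of_le (by positivity)]
    refine (setIntegral_le_integral (Deep.gauss_integrable (1 / η) 0 (by positivity))
      (ae_of_all _ fun t => (Real.exp_pos _).le)).trans ?_
    rw [Deep.gauss_integral (1 / η) 0 (by positivity)]
    have hs : Real.sqrt (2 * Real.pi) ≤ 3 := by
      rw [Real.sqrt_le_left (by norm_num)]
      have := Real.pi_lt_d2
      norm_num at this ⊢
      linarith
    calc 1 / η * Real.sqrt (2 * Real.pi) ≤ 1 / η * 3 :=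
          mul_le_mul_of_nonneg_left hs (by positivity)
      _ = 3 / η := by ring
  have h4 : Real.exp (-(η * ((0 : ℕ) : ℝ)) ^ 2 / 2) = 1 := by simp
  rw [h4]
  linarith

/-- one side of the Gaussian sum over separated points -/
theorem side_sum {ι : Type*} (R : Finset ι) (lam : ι → ℝ) (Δ T : ℝ) (hΔ : 0 < Δ)
    (hT : 0 < T) (hsep : ∀ r ∈ R, ∀ s ∈ R, r ≠ s → Δ ≤ |lam r - lam s|) (l0 : ℝ) (sg : ℝ)
    (hsg : sg = 1 ∨ sg = -1) (hside : ∀ s ∈ R, 0 ≤ sg * (lam s - l0)) :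
    ∑ s ∈ R, Real.exp (-(T ^ 2 * (l0 - lam s) ^ 2 / 2)) ≤ 1 + 3 / (T * Δ) := by
  classical
  set f : ι → ℕ := fun s => ⌊sg * (lam s - l0) / Δ⌋₊ with hf
  have hinj : Set.InjOn f R := by
    intro s hs s' hs' h
    by_contra hne
    have h1 := hsep s hs s' hs' hne
    have k1 := Nat.floor_le (div_nonneg (hside s hs) hΔ.le)
    have k2 := Nat.lt_floor_add_one (sg * (lam s - l0) / Δ)
    have k3 := Nat.floor_le (div_nonneg (hside s' hs') hΔ.le)
    have k4 := Nat.lt_floor_add_one (sg * (lam s' - l0) / Δ)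
    have hff : (⌊sg * (lam s - l0) / Δ⌋₊ : ℝ) = (⌊sg * (lam s' - l0) / Δ⌋₊ : ℝ) := by
      exact_mod_cast h
    rw [hff] at k1 k2
    have k5 : |sg * (lam s - l0) / Δ - sg * (lam s' - l0) / Δ| < 1 := by
      rw [abs_lt]
      constructor <;> linarith
    have k6 : sg * (lam s - l0) / Δ - sg * (lam s' - l0) / Δ = sg * (lam s - lam s') / Δ := by ring
    rw [k6, abs_div, abs_mul, abs_of_pos hΔ, div_lt_one hΔ] at k5
    have k7 : |sg| = 1 := by
      rcases hsg with h | h <;> rw [h] <;> simp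
    rw [k7, one_mul] at k5
    linarith
  have hle : ∀ s ∈ R, Real.exp (-(T ^ 2 * (l0 - lam s) ^ 2 / 2)) ≤
      Real.exp (-((T * Δ) * (f s : ℝ)) ^ 2 / 2) := by
    intro s hs
    apply Real.exp_le_exp.mpr
    have k1 := Nat.floor_le (div_nonneg (hside s hs) hΔ.le)
    rw [le_div_iff₀ hΔ] at k1
    have k2 : (f s : ℝ) * Δ ≤ sg * (lam s - l0) := k1
    have k3 : ((f s : ℝ) * Δ) ^ 2 ≤ (sg * (lam s - l0)) ^ 2 :=
      pow_le_pow_left₀ (by positivity) k2 2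
    have k4 : (sg * (lam s - l0)) ^ 2 = (l0 - lam s) ^ 2 := by
      rcases hsg with h | h <;> rw [h] <;> ring
    rw [k4] at k3
    have k5 : T ^ 2 * ((f s : ℝ) * Δ) ^ 2 ≤ T ^ 2 * (l0 - lam s) ^ 2 :=
      mul_le_mul_of_nonneg_left k3 (by positivity)
    nlinarith
  obtain ⟨K, hK⟩ : ∃ K : ℕ, ∀ s ∈ R, f s < K := by
    refine ⟨(R.image f).sup id + 1, fun s hs => ?_⟩
    have := Finset.le_sup (f := id) (Finset.mem_image_of_mem f hs)
    simp only [id] at this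
    omega
  calc ∑ s ∈ R, Real.exp (-(T ^ 2 * (l0 - lam s) ^ 2 / 2))
      ≤ ∑ s ∈ R, Real.exp (-((T * Δ) * (f s : ℝ)) ^ 2 / 2) := Finset.sum_le_sum hle
    _ = ∑ n ∈ R.image f, Real.exp (-((T * Δ) * (n : ℝ)) ^ 2 / 2) := by
        rw [Finset.sum_image hinj]
    _ ≤ ∑ n ∈ Finset.range K, Real.exp (-((T * Δ) * (n : ℝ)) ^ 2 / 2) := by
        apply Finset.sum_le_sum_of_subset_of_nonneg
        · intro n hn
          obtain ⟨s, hs, rfl⟩ := Finset.mem_image.mp hn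
          exact Finset.mem_range.mpr (hK s hs)
        · intro n _ _
          exact (Real.exp_pos _).le
    _ ≤ _ := gauss_sum (T * Δ) (by positivity) K

/-- Gaussian sum over separated points -/
theorem row_sum {ι : Type*} (R : Finset ι) (lam : ι → ℝ) (Δ T : ℝ) (hΔ : 0 < Δ)
    (hT : 0 < T) (hsep : ∀ r ∈ R, ∀ s ∈ R, r ≠ s → Δ ≤ |lam r - lam s|) (l0 : ℝ) :
    ∑ s ∈ R, Real.exp (-(T ^ 2 * (l0 - lam s) ^ 2 / 2)) ≤ 2 + 6 / (T * Δ) := by
  classical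
  rw [← Finset.sum_filter_add_sum_filter_not R (fun s => l0 ≤ lam s)]
  have h1 := side_sum (R.filter (fun s => l0 ≤ lam s)) lam Δ T hΔ hT
    (fun r hr s hs hne => hsep r (Finset.mem_filter.mp hr).1 s (Finset.mem_filter.mp hs).1 hne) l0 1
    (Or.inl rfl) (fun s hs => by
      have := (Finset.mem_filter.mp hs).2
      linarith)
  have h2 := side_sum (R.filter (fun s => ¬ l0 ≤ lam s)) lam Δ T hΔ hT
    (fun r hr s hs hne => hsep r (Finset.mem_filter.mp hr).1 s (Finset.mem_filter.mp hs).1 hne) l0 (-1)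
    (Or.inr rfl) (fun s hs => by
      have := (Finset.mem_filter.mp hs).2
      push Not at this
      linarith)
  have e : (2 : ℝ) + 6 / (T * Δ) = (1 + 3 / (T * Δ)) + (1 + 3 / (T * Δ)) := by ring
  rw [e]
  exact add_le_add h1 h2

/-- **Gaussian large sieve** for separated frequencies -/
theorem gauss_sieve {ι : Type*} (R : Finset ι) (lam : ι → ℝ) (c : ι → ℂ) (Δ T τ : ℝ) (hΔ : 0 < Δ)
    (hT : 0 < T) (hsep : ∀ r ∈ R, ∀ s ∈ R, r ≠ s → Δ ≤ |lam r - lam s|) :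
    Integrable (fun t : ℝ => Real.exp (-(t - τ) ^ 2 / (2 * T ^ 2)) *
      ‖∑ r ∈ R, c r * cexp (I * (lam r : ℂ) * t)‖ ^ 2) ∧
    ∫ t : ℝ, Real.exp (-(t - τ) ^ 2 / (2 * T ^ 2)) *
      ‖∑ r ∈ R, c r * cexp (I * (lam r : ℂ) * t)‖ ^ 2 ≤
      18 * (T + 1 / Δ) * ∑ r ∈ R, ‖c r‖ ^ 2 := by
  have hexp : ∀ t : ℝ, ((Real.exp (-(t - τ) ^ 2 / (2 * T ^ 2)) *
      ‖∑ r ∈ R, c r * cexp (I * (lam r : ℂ) * t)‖ ^ 2 : ℝ) : ℂ) =
      ∑ r ∈ R, ∑ s ∈ R, (c r * (starRingEnd ℂ) (c s)) *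
        ((Real.exp (-(t - τ) ^ 2 / (2 * T ^ 2)) : ℂ) *
          cexp (I * ((lam r - lam s : ℝ) : ℂ) * t)) := by
    intro t
    push_cast
    rw [← Complex.mul_conj', map_sum, Finset.sum_mul_sum, Finset.mul_sum]
    refine Finset.sum_congr rfl fun r _ => ?_
    rw [Finset.mul_sum]
    refine Finset.sum_congr rfl fun s _ => ?_
    rw [map_mul, ← Complex.exp_conj]
    have e1 : (starRingEnd ℂ) (I * (lam s : ℂ) * t) = -(I * (lam s : ℂ) * t) := by
      simp only [map_mul, Complex.conj_I, Complex.conj_ofReal]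
      ring
    rw [e1]
    have e2 : cexp (I * ((lam r : ℂ) - (lam s : ℂ)) * t) =
        cexp (I * (lam r : ℂ) * t) * cexp (-(I * (lam s : ℂ) * t)) := by
      rw [← Complex.exp_add]
      congr 1
      ring
    rw [e2]
    ring
  have hint : Integrable (fun t : ℝ => ∑ r ∈ R, ∑ s ∈ R, (c r * (starRingEnd ℂ) (c s)) *
        ((Real.exp (-(t - τ) ^ 2 / (2 * T ^ 2)) : ℂ) *
          cexp (I * ((lam r - lam s : ℝ) : ℂ) * t))) :=
    integrable_finsetSum _ fun r _ => integrable_finsetSum _ fun s _ =>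
      (ek_int T τ _ hT).const_mul _
  have hintR : Integrable (fun t : ℝ => Real.exp (-(t - τ) ^ 2 / (2 * T ^ 2)) *
      ‖∑ r ∈ R, c r * cexp (I * (lam r : ℂ) * t)‖ ^ 2) := by
    refine hint.re.congr (ae_of_all _ fun t => ?_)
    have h1 := congrArg Complex.re (hexp t)
    rw [Complex.ofReal_re] at h1
    exact h1.symm
  refine ⟨hintR, ?_⟩
  have hval : ((∫ t : ℝ, Real.exp (-(t - τ) ^ 2 / (2 * T ^ 2)) *
      ‖∑ r ∈ R, c r * cexp (I * (lam r : ℂ) * t)‖ ^ 2 : ℝ) : ℂ) =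
      ∑ r ∈ R, ∑ s ∈ R, (c r * (starRingEnd ℂ) (c s)) *
        (((T * Real.sqrt (2 * Real.pi) : ℝ) : ℂ) * (cexp (I * ((lam r - lam s : ℝ) : ℂ) * τ) *
          ((Real.exp (-(T ^ 2 * (lam r - lam s) ^ 2 / 2)) : ℝ) : ℂ))) := by
    rw [← integral_complex_ofReal]
    simp_rw [hexp]
    rw [integral_finsetSum _ fun r _ => integrable_finsetSum _ fun s _ =>
      (ek_int T τ _ hT).const_mul _]
    refine Finset.sum_congr rfl fun r _ => ?_
    rw [integral_finsetSum _ fun s _ => (ek_int T τ _ hT).const_mul _]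
    refine Finset.sum_congr rfl fun s _ => ?_
    rw [integral_const_mul, ek_val T τ _ hT]
  have hs : Real.sqrt (2 * Real.pi) ≤ 3 := by
    rw [Real.sqrt_le_left (by norm_num)]
    have := Real.pi_lt_d2
    norm_num at this ⊢
    linarith
  have hs0 : 0 ≤ Real.sqrt (2 * Real.pi) := Real.sqrt_nonneg _
  have hbound : ∫ t : ℝ, Real.exp (-(t - τ) ^ 2 / (2 * T ^ 2)) *
      ‖∑ r ∈ R, c r * cexp (I * (lam r : ℂ) * t)‖ ^ 2 ≤
      ∑ r ∈ R, ∑ s ∈ R, (‖c r‖ * ‖c s‖) *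
        (3 * T * Real.exp (-(T ^ 2 * (lam r - lam s) ^ 2 / 2))) := by
    have h1 := (le_abs_self (∫ t : ℝ, Real.exp (-(t - τ) ^ 2 / (2 * T ^ 2)) *
      ‖∑ r ∈ R, c r * cexp (I * (lam r : ℂ) * t)‖ ^ 2))
    refine h1.trans ?_
    rw [← Real.norm_eq_abs, ← Complex.norm_real, hval]
    refine (norm_sum_le _ _).trans (Finset.sum_le_sum fun r _ => ?_)
    refine (norm_sum_le _ _).trans (Finset.sum_le_sum fun s _ => ?_)
    rw [norm_mul, norm_mul, RCLike.norm_conj, norm_mul, norm_mul, Complex.norm_real,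
      Complex.norm_real, Real.norm_of_nonneg (by positivity : 0 ≤ T * Real.sqrt (2 * Real.pi)),
      Real.norm_of_nonneg (Real.exp_pos _).le]
    have e1 : ‖cexp (I * ((lam r - lam s : ℝ) : ℂ) * τ)‖ = 1 := by
      rw [Complex.norm_exp]
      have : (I * ((lam r - lam s : ℝ) : ℂ) * τ).re = 0 := by
        rw [mul_assoc, ← Complex.ofReal_mul, Complex.I_mul_re, Complex.ofReal_im, neg_zero]
      rw [this, Real.exp_zero]
    rw [e1, one_mul]
    apply mul_le_mul_of_nonneg_left _ (by positivity)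
    apply mul_le_mul_of_nonneg_right _ (Real.exp_pos _).le
    nlinarith
  refine hbound.trans ?_
  have hsym : ∑ r ∈ R, ∑ s ∈ R, (‖c r‖ * ‖c s‖) *
        (3 * T * Real.exp (-(T ^ 2 * (lam r - lam s) ^ 2 / 2))) ≤
      ∑ r ∈ R, ∑ s ∈ R, ‖c r‖ ^ 2 * (3 * T * Real.exp (-(T ^ 2 * (lam r - lam s) ^ 2 / 2))) := by
    have h1 : ∑ r ∈ R, ∑ s ∈ R, (‖c r‖ * ‖c s‖) *
        (3 * T * Real.exp (-(T ^ 2 * (lam r - lam s) ^ 2 / 2))) ≤
        ∑ r ∈ R, ∑ s ∈ R, ((‖c r‖ ^ 2 / 2) * (3 * T * Real.exp (-(T ^ 2 * (lam r - lam s) ^ 2 / 2))) +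
          (‖c s‖ ^ 2 / 2) * (3 * T * Real.exp (-(T ^ 2 * (lam r - lam s) ^ 2 / 2)))) := by
      refine Finset.sum_le_sum fun r _ => Finset.sum_le_sum fun s _ => ?_
      rw [← add_mul]
      apply mul_le_mul_of_nonneg_right _ (by positivity)
      nlinarith [sq_nonneg (‖c r‖ - ‖c s‖)]
    refine h1.trans (le_of_eq ?_)
    have h2 : ∑ r ∈ R, ∑ s ∈ R,
          (‖c s‖ ^ 2 / 2) * (3 * T * Real.exp (-(T ^ 2 * (lam r - lam s) ^ 2 / 2))) =
        ∑ r ∈ R, ∑ s ∈ R,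
          (‖c r‖ ^ 2 / 2) * (3 * T * Real.exp (-(T ^ 2 * (lam r - lam s) ^ 2 / 2))) := by
      rw [Finset.sum_comm]
      refine Finset.sum_congr rfl fun r _ => Finset.sum_congr rfl fun s _ => ?_
      rw [show (lam s - lam r) ^ 2 = (lam r - lam s) ^ 2 by ring]
    simp_rw [Finset.sum_add_distrib]
    rw [h2, ← Finset.sum_add_distrib]
    refine Finset.sum_congr rfl fun r _ => ?_
    rw [← Finset.sum_add_distrib]
    refine Finset.sum_congr rfl fun s _ => ?_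
    ring
  refine hsym.trans ?_
  rw [Finset.mul_sum]
  refine Finset.sum_le_sum fun r _ => ?_
  rw [← Finset.mul_sum, ← Finset.mul_sum]
  have h3 := row_sum R lam Δ T hΔ hT hsep (lam r)
  calc ‖c r‖ ^ 2 * (3 * T * ∑ s ∈ R, Real.exp (-(T ^ 2 * (lam r - lam s) ^ 2 / 2)))
      ≤ ‖c r‖ ^ 2 * (3 * T * (2 + 6 / (T * Δ))) := by gcongr
    _ = ‖c r‖ ^ 2 * (6 * T + 18 * (1 / Δ)) := by
        congr 1
        field_simp
        ring
    _ ≤ ‖c r‖ ^ 2 * (18 * (T + 1 / Δ)) := by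
        apply mul_le_mul_of_nonneg_left _ (by positivity)
        linarith
    _ = _ := by ring

end Pool.Agent.W192.AW
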