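import Pool.Agent.W192.AW.Win
import Pool.Agent.W192.AW.E
import Pool.Agent.H382R2.MainNeg

open Complex Filter Topology Set MeasureTheory

namespace Pool.Agent.W192.AW

open SG hiding dd nn Sep cc
open SG.Deep SG.Vert SG.MVaux Pool.Agent.W192.SI

/-- upper cut -/
noncomputable def Kc (H T : ℝ) (N : ℕ) : ℕ := ⌊(N : ℝ) * Real.exp (xx H T)⌋₊

/-- lower cut -/
noncomputable def Jc (H T : ℝ) (N : ℕ) : ℕ := ⌊(N : ℝ) * Real.exp (-(xx H T))⌋₊

theorem Kc_facts {H T : ℝ} (hA : Adm H T) (N : ℕ) (hN : 1 ≤ N) :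
    N ≤ Kc H T N ∧ (N : ℝ) * Real.exp (xx H T) < (Kc H T N : ℝ) + 1 ∧
      (Kc H T N : ℝ) ≤ N * Real.exp (xx H T) ∧ (Kc H T N : ℝ) ≤ 2 * N ∧ Kc H T N ≤ 2 * N := by
  have hx := xx_pos hA
  have hx1 := xx_le hA
  have hN0 : (0 : ℝ) < N := by exact_mod_cast hN
  have h1 : 1 ≤ Real.exp (xx H T) := Real.one_le_exp hx.le
  have h2 : Real.exp (xx H T) ≤ 2 := by
    have h3 : Real.exp (xx H T) ≤ Real.exp (1 / 2) := Real.exp_le_exp.mpr (by linarith)
    have h4 : Real.exp (1 / 2) ≤ 2 := by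
      have h5 : Real.exp (1 / 2) * Real.exp (1 / 2) = Real.exp 1 := by
        rw [← Real.exp_add]; norm_num
      have h6 := Real.exp_one_lt_d9
      have h7 := Real.exp_pos (1 / 2)
      nlinarith
    linarith
  have h3 : (Kc H T N : ℝ) ≤ N * Real.exp (xx H T) := Nat.floor_le (by positivity)
  have h4 : (Kc H T N : ℝ) ≤ 2 * N := by nlinarith
  refine ⟨?_, Nat.lt_floor_add_one _, h3, h4, by exact_mod_cast h4⟩
  apply Nat.le_floor
  nlinarith

theorem Jc_facts {H T : ℝ} (hA : Adm H T) (N : ℕ) :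
    Jc H T N ≤ N ∧ (N : ℝ) * Real.exp (-(xx H T)) < (Jc H T N : ℝ) + 1 ∧
      (Jc H T N : ℝ) ≤ N * Real.exp (-(xx H T)) := by
  have hx := xx_pos hA
  have hN0 : (0 : ℝ) ≤ N := Nat.cast_nonneg N
  have h1 : Real.exp (-(xx H T)) ≤ 1 := Real.exp_le_one_iff.mpr (by linarith)
  have h3 : (Jc H T N : ℝ) ≤ N * Real.exp (-(xx H T)) := Nat.floor_le (by positivity)
  refine ⟨?_, Nat.lt_floor_add_one _, h3⟩
  have h4 : (Jc H T N : ℝ) ≤ N := by nlinarith
  exact_mod_cast h4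

/-- the end of the Dirichlet polynomial -/
noncomputable def B1 (N J : ℕ) (h s : ℂ) : ℂ := AA N (1 - (s - h)) - AA J (1 - (s - h))

theorem B1_eq (N J : ℕ) (hJ : J ≤ N) (h s : ℂ) : B1 N J h s =
    ∑ n ∈ Finset.Ioc J N, ((ArithmeticFunction.moebius n : ℤ) : ℂ) * (n : ℂ) ^ (-(1 - (s - h))) := by
  unfold B1 AA
  have h1 : Finset.Icc 1 N = Finset.Icc 1 J ∪ Finset.Ioc J N := by
    ext n
    simp only [Finset.mem_union, Finset.mem_Icc, Finset.mem_Ioc]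
    omega
  have h2 : Disjoint (Finset.Icc 1 J) (Finset.Ioc J N) := by
    rw [Finset.disjoint_left]
    intro n hn hn'
    have a := (Finset.mem_Icc.mp hn).2
    have b := (Finset.mem_Ioc.mp hn').1
    omega
  rw [h1, Finset.sum_union h2]
  ring

/-- coefficients of the product on the critical line -/
noncomputable def kap (N : ℕ) (h w : ℂ) (p : ℕ × ℕ) : ℂ :=
  (ee N h w p.1 * cexp (-((Real.log p.1 : ℝ) : ℂ) / 2)) *
    (((ArithmeticFunction.moebius p.2 : ℤ) : ℂ) * cexp (-((Real.log p.2 : ℝ) : ℂ) * (1 / 2 + h)))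

/-- index set of the near product -/
noncomputable def PQ (H T : ℝ) (N : ℕ) : Finset (ℕ × ℕ) :=
  Finset.Ioc N (Kc H T N) ×ˢ Finset.Ioc (Jc H T N) N

/-- the near product on the critical line -/
noncomputable def QS (H T : ℝ) (N : ℕ) (h w : ℂ) (t : ℝ) : ℂ :=
  ∑ p ∈ PQ H T N, kap N h w p * cexp (I * (lam p : ℂ) * t)

theorem QS_eq {H T : ℝ} (hA : Adm H T) (N : ℕ) (hN : 1 ≤ N) (h w : ℂ) (t : ℝ) :
    E1 N (Kc H T N) h w (⟨1 / 2, t⟩ : ℂ) * B1 N (Jc H T N) h (⟨1 / 2, t⟩ : ℂ) = QS H T N h w t := by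
  rw [B1_eq N _ (Jc_facts hA N).1]
  unfold E1 QS PQ
  rw [Finset.sum_mul_sum, ← Finset.sum_product']
  refine Finset.sum_congr rfl fun p hp => ?_
  rw [Finset.mem_product, Finset.mem_Ioc, Finset.mem_Ioc] at hp
  have hm : 1 ≤ p.1 := by omega
  have hn : 1 ≤ p.2 := by omega
  have e : (⟨1 / 2, t⟩ : ℂ) = 1 / 2 + I * t := by
    apply Complex.ext <;> simp
  rw [cpow_nat p.1 hm, cpow_nat p.2 hn, e, kap, lam]
  have e1 : ee N h w p.1 * cexp (((Real.log p.1 : ℝ) : ℂ) * -(1 / 2 + I * t)) *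
      (((ArithmeticFunction.moebius p.2 : ℤ) : ℂ) *
        cexp (((Real.log p.2 : ℝ) : ℂ) * -(1 - (1 / 2 + I * t - h)))) =
      (ee N h w p.1 * ((ArithmeticFunction.moebius p.2 : ℤ) : ℂ)) *
        (cexp (((Real.log p.1 : ℝ) : ℂ) * -(1 / 2 + I * t)) *
          cexp (((Real.log p.2 : ℝ) : ℂ) * -(1 - (1 / 2 + I * t - h)))) := by ring
  have e2 : ee N h w p.1 * cexp (-((Real.log p.1 : ℝ) : ℂ) / 2) *
      (((ArithmeticFunction.moebius p.2 : ℤ) : ℂ) *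
        cexp (-((Real.log p.2 : ℝ) : ℂ) * (1 / 2 + h))) *
      cexp (I * ((Real.log p.2 - Real.log p.1 : ℝ) : ℂ) * t) =
      (ee N h w p.1 * ((ArithmeticFunction.moebius p.2 : ℤ) : ℂ)) *
        (cexp (-((Real.log p.1 : ℝ) : ℂ) / 2) * cexp (-((Real.log p.2 : ℝ) : ℂ) * (1 / 2 + h)) *
          cexp (I * ((Real.log p.2 - Real.log p.1 : ℝ) : ℂ) * t)) := by ring
  rw [e1, e2, ← Complex.exp_add, ← Complex.exp_add, ← Complex.exp_add]
  congr 2
  push_cast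
  ring

theorem PQ_near {H T : ℝ} (hA : Adm H T) (N : ℕ) (hN : 1 ≤ N) :
    PQ H T N ⊆ nearP (Kc H T N) (2 * xx H T) := by
  intro p hp
  unfold PQ at hp
  rw [Finset.mem_product, Finset.mem_Ioc, Finset.mem_Ioc] at hp
  obtain ⟨⟨h1, h2⟩, h3, h4⟩ := hp
  obtain ⟨k1, k2, k3, k4, k5⟩ := Kc_facts hA N hN
  obtain ⟨j1, j2, j3⟩ := Jc_facts hA N
  have hN0 : (0 : ℝ) < N := by exact_mod_cast hN
  have hx := xx_pos hA
  unfold nearP
  rw [Finset.mem_filter, Finset.mem_product, Finset.mem_Icc, Finset.mem_Icc]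
  refine ⟨⟨⟨by omega, h2⟩, by omega, by omega⟩, by omega, ?_⟩
  have a1 : (p.1 : ℝ) ≤ N * Real.exp (xx H T) := by
    have : (p.1 : ℝ) ≤ Kc H T N := by exact_mod_cast h2
    linarith
  have a2 : (N : ℝ) * Real.exp (-(xx H T)) < p.2 := by
    have : (Jc H T N : ℝ) + 1 ≤ p.2 := by exact_mod_cast h3
    linarith
  have p1 : (0 : ℝ) < p.1 := by exact_mod_cast (by omega : 0 < p.1)
  have p2 : (0 : ℝ) < p.2 := by exact_mod_cast (by omega : 0 < p.2)
  have b1 := Real.log_le_log p1 a1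
  have b2 := Real.log_lt_log (by positivity) a2
  rw [Real.log_mul hN0.ne' (Real.exp_pos _).ne', Real.log_exp] at b1 b2
  have b3 : Real.log p.2 ≤ Real.log p.1 := by
    apply Real.log_le_log p2
    exact_mod_cast (by omega : p.2 ≤ p.1)
  rw [abs_of_nonneg (by linarith)]
  linarith

theorem kap_norm (N : ℕ) (h w : ℂ) (hh : h.re = 0) (hw : w.re = 0) (p : ℕ × ℕ) (h1 : 1 ≤ p.1)
    (h2 : 1 ≤ p.2) : ‖kap N h w p‖ ^ 2 ≤ dv p.1 ^ 4 / (p.1 * p.2) := by
  have p1 : (0 : ℝ) < p.1 := by exact_mod_cast h1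
  have p2 : (0 : ℝ) < p.2 := by exact_mod_cast h2
  unfold kap
  rw [norm_mul, norm_mul, norm_mul, Complex.norm_exp, Complex.norm_exp]
  have e1 : (-((Real.log p.1 : ℝ) : ℂ) / 2).re = -(Real.log p.1) / 2 := by
    rw [show (-((Real.log p.1 : ℝ) : ℂ) / 2) = ((-(Real.log p.1) / 2 : ℝ) : ℂ) by push_cast; ring,
      Complex.ofReal_re]
  have e2 : (-((Real.log p.2 : ℝ) : ℂ) * (1 / 2 + h)).re = -(Real.log p.2) / 2 := by
    rw [← Complex.ofReal_neg, Complex.re_ofReal_mul, add_re, hh]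
    have : (1 / 2 : ℂ).re = 1 / 2 := by norm_num
    rw [this]
    ring
  rw [e1, e2]
  have k1 := ee_dv N h w hh hw p.1 h1
  have k2 := mu_norm p.2
  have e3 : Real.exp (-(Real.log p.1) / 2) ^ 2 = 1 / p.1 := by
    rw [← Real.exp_nat_mul]
    have : ((2 : ℕ) : ℝ) * (-(Real.log p.1) / 2) = -Real.log p.1 := by push_cast; ring
    rw [this, Real.exp_neg, Real.exp_log p1, one_div]
  have e4 : Real.exp (-(Real.log p.2) / 2) ^ 2 = 1 / p.2 := by
    rw [← Real.exp_nat_mul]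
    have : ((2 : ℕ) : ℝ) * (-(Real.log p.2) / 2) = -Real.log p.2 := by push_cast; ring
    rw [this, Real.exp_neg, Real.exp_log p2, one_div]
  rw [mul_pow, mul_pow, mul_pow, e3, e4]
  have k3 : ‖ee N h w p.1‖ ^ 2 ≤ dv p.1 ^ 4 := by
    calc ‖ee N h w p.1‖ ^ 2 ≤ (dv p.1 ^ 2) ^ 2 := pow_le_pow_left₀ (norm_nonneg _) k1 2
      _ = _ := by ring
  have k4 : ‖((ArithmeticFunction.moebius p.2 : ℤ) : ℂ)‖ ^ 2 ≤ 1 := pow_le_one₀ (norm_nonneg _) k2
  calc ‖ee N h w p.1‖ ^ 2 * (1 / (p.1 : ℝ)) *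
        (‖((ArithmeticFunction.moebius p.2 : ℤ) : ℂ)‖ ^ 2 * (1 / (p.2 : ℝ)))
      ≤ dv p.1 ^ 4 * (1 / (p.1 : ℝ)) * (1 * (1 / (p.2 : ℝ))) := by gcongr
    _ = _ := by field_simp

theorem E1_diff (N K : ℕ) (h w : ℂ) : Differentiable ℂ (E1 N K h w) := by
  unfold E1
  apply Differentiable.fun_sum
  intro n hn
  have h1 : (n : ℂ) ≠ 0 := by
    have := (Finset.mem_Ioc.mp hn).1
    exact_mod_cast (by omega : n ≠ 0)
  apply Differentiable.const_mul
  intro s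
  exact (differentiableAt_id.neg).const_cpow (Or.inl h1)

theorem B1_diff (N J : ℕ) (h : ℂ) : Differentiable ℂ (B1 N J h) := by
  unfold B1
  have h1 : Differentiable ℂ (fun s : ℂ => 1 - (s - h)) := by fun_prop
  exact ((AA_diff N).comp h1).sub ((AA_diff J).comp h1)

theorem E1_bound (N K : ℕ) (h w : ℂ) (hh : h.re = 0) (hw : w.re = 0) (s : ℂ) (hs : 0 ≤ s.re) :
    ‖E1 N K h w s‖ ≤ 4 * (K : ℝ) ^ 2 := by
  unfold E1
  have hterm : ∀ m ∈ Finset.Ioc N K, ‖ee N h w m * (m : ℂ) ^ (-s)‖ ≤ 4 * K := by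
    intro m hm
    obtain ⟨h1, h2⟩ := Finset.mem_Ioc.mp hm
    have hm1 : (1 : ℝ) ≤ m := by exact_mod_cast (by omega : 1 ≤ m)
    have hmK : (m : ℝ) ≤ K := by exact_mod_cast h2
    rw [norm_mul, Complex.norm_natCast_cpow_of_pos (by omega : 0 < m)]
    have k1 := ee_bound N h w hh hw m
    have k2 : (m : ℝ) ^ (-s).re ≤ 1 :=
      Real.rpow_le_one_of_one_le_of_nonpos hm1 (by rw [neg_re]; linarith)
    calc _ ≤ 4 * (m : ℝ) * 1 := mul_le_mul k1 k2 (Real.rpow_nonneg (by linarith) _) (by linarith)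
      _ ≤ _ := by linarith
  calc _ ≤ ∑ m ∈ Finset.Ioc N K, (4 * (K : ℝ)) := norm_sum_le_of_le _ hterm
    _ = ((K - N : ℕ) : ℝ) * (4 * K) := by rw [Finset.sum_const, Nat.card_Ioc, nsmul_eq_mul]
    _ ≤ (K : ℝ) * (4 * K) := by
        apply mul_le_mul_of_nonneg_right _ (by positivity)
        exact_mod_cast Nat.sub_le K N
    _ = _ := by ring

/-- the far part -/
theorem far_bound {H T : ℝ} (hA : Adm H T) (N : ℕ) (hN : 1 ≤ N) (hNT : (N : ℝ) ≤ T) (δ : ℝ) (w s : ℂ)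
    (hw : w.re = 0) (hs : 5 / 2 ≤ s.re) :
    ‖FF δ N w s - E1 N (Kc H T N) (hh δ) w s * B1 N (Jc H T N) (hh δ) s‖ ≤
      T ^ (10 : ℝ) * Real.exp (-xx H T * s.re) := by
  obtain ⟨k1, k2, k3, k4, k5⟩ := Kc_facts hA N hN
  obtain ⟨j1, j2, j3⟩ := Jc_facts hA N
  have hN0 : (0 : ℝ) < N := by exact_mod_cast hN
  have hN1 : (1 : ℝ) ≤ N := by exact_mod_cast hN
  have hT := hA.T_ge'
  have hh0 : (hh δ).re = 0 := hh_re δ
  set K := Kc H T N with hK
  set J := Jc H T N with hJ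
  set x := xx H T with hx
  set σ := s.re with hσ
  set E := GG N (s + w) / riemannZeta (s + hh δ) with hE
  have t1 := E_tail N hN (hh δ) w hh0 hw K k1 s hs
  have t2 := E_tail N hN (hh δ) w hh0 hw N le_rfl s hs
  have e0 : E1 N N (hh δ) w s = 0 := by simp [E1]
  rw [e0, sub_zero, ← hE] at t2
  rw [← hE] at t1
  have hKN : ((K : ℝ) + 1) ^ (5 / 2 - σ) ≤ ((N : ℝ) + 1) ^ (5 / 2 - σ) := by
    apply Real.rpow_le_rpow_of_nonpos (by linarith) _ (by linarith)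
    have : (N : ℝ) ≤ K := by exact_mod_cast k1
    linarith
  have t3 : ‖E1 N K (hh δ) w s‖ ≤ 16 * ((N : ℝ) + 1) ^ (5 / 2 - σ) := by
    have : E1 N K (hh δ) w s = E - (E - E1 N K (hh δ) w s) := by ring
    rw [this]
    refine (norm_sub_le _ _).trans ?_
    linarith
  have hre : (s - hh δ).re = σ := by rw [sub_re, hh0, sub_zero]
  have b1 : ‖AA N (1 - (s - hh δ))‖ ≤ (N : ℝ) ^ σ := by
    have := AA_bound' N (s - hh δ) (by rw [hre]; linarith)
    rwa [hre] at this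
  have b2 : ‖AA J (1 - (s - hh δ))‖ ≤ (J : ℝ) ^ σ := by
    have := AA_bound' J (s - hh δ) (by rw [hre]; linarith)
    rwa [hre] at this
  have hdec : FF δ N w s - E1 N K (hh δ) w s * B1 N J (hh δ) s =
      (E - E1 N K (hh δ) w s) * AA N (1 - (s - hh δ)) +
        E1 N K (hh δ) w s * AA J (1 - (s - hh δ)) := by
    unfold FF B1
    rw [hE]
    ring
  rw [hdec]
  have hK0 : (0 : ℝ) < (K : ℝ) + 1 := by positivity
  have hexp : Real.exp (-x * σ) = Real.exp (-x) ^ σ := by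
    rw [← Real.exp_mul]
  have r1 : ((K : ℝ) + 1) ^ (5 / 2 - σ) * (N : ℝ) ^ σ ≤
      ((K : ℝ) + 1) ^ (5 / 2 : ℝ) * Real.exp (-x * σ) := by
    have e1 : ((K : ℝ) + 1) ^ (5 / 2 - σ) * (N : ℝ) ^ σ =
        ((K : ℝ) + 1) ^ (5 / 2 : ℝ) * ((N : ℝ) / ((K : ℝ) + 1)) ^ σ := by
      rw [Real.rpow_sub hK0, Real.div_rpow hN0.le hK0.le]
      field_simp
    rw [e1, hexp]
    apply mul_le_mul_of_nonneg_left _ (by positivity)
    apply Real.rpow_le_rpow (by positivity) _ (by linarith)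
    rw [div_le_iff₀ hK0]
    have h1 : Real.exp (-x) * (N * Real.exp x) = N := by
      rw [mul_comm, mul_assoc, ← Real.exp_add]
      simp
    have h2 : Real.exp (-x) * (N * Real.exp x) ≤ Real.exp (-x) * ((K : ℝ) + 1) :=
      mul_le_mul_of_nonneg_left k2.le (Real.exp_pos _).le
    linarith
  have r2 : ((N : ℝ) + 1) ^ (5 / 2 - σ) * (J : ℝ) ^ σ ≤
      ((N : ℝ) + 1) ^ (5 / 2 : ℝ) * Real.exp (-x * σ) := by
    have hN10 : (0 : ℝ) < (N : ℝ) + 1 := by positivity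
    have e1 : ((N : ℝ) + 1) ^ (5 / 2 - σ) * (J : ℝ) ^ σ =
        ((N : ℝ) + 1) ^ (5 / 2 : ℝ) * ((J : ℝ) / ((N : ℝ) + 1)) ^ σ := by
      rw [Real.rpow_sub hN10, Real.div_rpow (Nat.cast_nonneg _) hN10.le]
      field_simp
    rw [e1, hexp]
    apply mul_le_mul_of_nonneg_left _ (by positivity)
    apply Real.rpow_le_rpow (by positivity) _ (by linarith)
    rw [div_le_iff₀ hN10]
    nlinarith [Real.exp_pos (-x)]
  have hexp0 : 0 < Real.exp (-x * σ) := Real.exp_pos _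
  have r3 : ((N : ℝ) + 1) ^ (5 / 2 : ℝ) ≤ ((K : ℝ) + 1) ^ (5 / 2 : ℝ) := by
    apply Real.rpow_le_rpow (by positivity) _ (by norm_num)
    have : (N : ℝ) ≤ K := by exact_mod_cast k1
    linarith
  have r4 : 24 * ((K : ℝ) + 1) ^ (5 / 2 : ℝ) ≤ T ^ (10 : ℝ) := by
    have h1 : (K : ℝ) + 1 ≤ T ^ 2 := by nlinarith
    calc 24 * ((K : ℝ) + 1) ^ (5 / 2 : ℝ) ≤ T ^ (5 : ℝ) * (T ^ 2) ^ (5 / 2 : ℝ) := by
          apply mul_le_mul
          · calc (24 : ℝ) ≤ T := by linarith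
              _ = T ^ (1 : ℝ) := (Real.rpow_one T).symm
              _ ≤ _ := Real.rpow_le_rpow_of_exponent_le (by linarith) (by norm_num)
          · exact Real.rpow_le_rpow (by positivity) h1 (by norm_num)
          · positivity
          · positivity
      _ = T ^ (10 : ℝ) := by
          rw [← Real.rpow_natCast, ← Real.rpow_mul (by linarith), ← Real.rpow_add (by linarith)]
          norm_num
  calc ‖(E - E1 N K (hh δ) w s) * AA N (1 - (s - hh δ)) +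
        E1 N K (hh δ) w s * AA J (1 - (s - hh δ))‖
      ≤ 8 * ((K : ℝ) + 1) ^ (5 / 2 - σ) * (N : ℝ) ^ σ +
        16 * ((N : ℝ) + 1) ^ (5 / 2 - σ) * (J : ℝ) ^ σ := by
        refine (norm_add_le _ _).trans ?_
        rw [norm_mul, norm_mul]
        gcongr
    _ = 8 * (((K : ℝ) + 1) ^ (5 / 2 - σ) * (N : ℝ) ^ σ) +
        16 * (((N : ℝ) + 1) ^ (5 / 2 - σ) * (J : ℝ) ^ σ) := by ring
    _ ≤ 8 * (((K : ℝ) + 1) ^ (5 / 2 : ℝ) * Real.exp (-x * σ)) +
        16 * (((K : ℝ) + 1) ^ (5 / 2 : ℝ) * Real.exp (-x * σ)) := by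
        have := mul_le_mul_of_nonneg_right r3 hexp0.le
        linarith
    _ = 24 * ((K : ℝ) + 1) ^ (5 / 2 : ℝ) * Real.exp (-x * σ) := by ring
    _ ≤ _ := mul_le_mul_of_nonneg_right r4 hexp0.le

/-- the integral of the deep product is `O(D)` if the near product is small in mean square -/
theorem FF_int : ∃ C T0 : ℝ, 1 ≤ C ∧ ∀ (c H T W : ℝ) (N : ℕ), 0 < c → c < 2 → Win H T W N → T0 ≤ T →
    ∀ w : ℂ, w.re = 0 →
    (∫ t in T..(2 * T), Real.exp (-(t - (W + H / 2)) ^ 2 / (2 * dd H T ^ 2)) *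
      ‖QS H T N (hh (dl c T)) w t‖ ^ 2) ≤ dd H T →
    ∀ U1 U2 : ℝ, W ≤ U1 → U1 ≤ W + 20 → W + H - 20 ≤ U2 → U2 ≤ W + H →
    ‖∫ t in U1..U2, phi (W + H / 2) (dd H T) (⟨5 / 2, t⟩ : ℂ) * rr (dl c T) (⟨5 / 2, t⟩ : ℂ) *
      FF (dl c T) N w (⟨5 / 2, t⟩ : ℂ)‖ ≤ C * dd H T := by
  obtain ⟨C, hC, hrr⟩ := SI.rr_bound
  obtain ⟨Td, hd⟩ := deep_shift
  have ev1 : ∀ᶠ T : ℝ in atTop, T ^ (10 : ℝ) * Real.exp (-(1 / 40) * Real.log T ^ 4) ≤ 1 / (4 * C) :=
    ev_small4' 10 (1 / 40) _ (by norm_num) (by positivity)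
  obtain ⟨T0, hT0⟩ := eventually_atTop.mp ev1
  refine ⟨2 * C + 2, max Td T0, by linarith, ?_⟩
  intro c H' T W N hc hc1 hW hT w hw hG2 U1 U2 hU1 hU1' hU2 hU2'
  obtain ⟨hA, hTW, hW2, hN2, hNT⟩ := hW
  have hTd : Td ≤ T := (le_max_left _ _).trans hT
  have e1 := hT0 T ((le_max_right _ _).trans hT)
  have hN1 : 1 ≤ N := by omega
  have hTpos := hA.T_pos
  have hT4 := hA.T_ge'
  have hHge := hA.H_ge
  norm_num at hHge
  have hHT := hA.hi
  have hD100 := hA.one_le_dd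
  have hDpos : 0 < dd H' T := hA.dd_pos
  have hδa : |dl c T| ≤ 1 := by
    rw [abs_of_pos (hA.dl_pos hc)]
    linarith [hA.dl_le hc1]
  set δ := dl c T with hδ
  set t0 := W + H' / 2 with ht0
  set D := dd H' T with hD
  have hh0 : (hh δ).re = 0 := hh_re δ
  have h12 : U1 ≤ U2 := by linarith
  set Qh : ℂ → ℂ := fun s => E1 N (Kc H' T N) (hh δ) w s * B1 N (Jc H' T N) (hh δ) s with hQh
  have hQd : Differentiable ℂ Qh := (E1_diff _ _ _ _).mul (B1_diff _ _ _)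
  obtain ⟨k1, k2, k3, k4, k5⟩ := Kc_facts hA N hN1
  obtain ⟨j1, j2, j3⟩ := Jc_facts hA N
  -- far part
  have hfar := hd c H' T W hc hc1 hA hTW hW2 hTd U1 U2 hU1 hU1' hU2 hU2'
    (fun s => FF δ N w s - Qh s)
    (fun s hs _ => (FF_an δ N w s hw hs).sub (hQd.analyticAt s))
    (fun s hs _ => far_bound hA N hN1 hNT δ w s hw hs)
  -- crude bound for Qh
  have hQb : ∀ s : ℂ, 1 / 2 ≤ s.re → s.re ≤ 5 / 2 → ‖Qh s‖ ≤ T ^ (10 : ℝ) := by
    intro s hs1 hs2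
    have a1 := E1_bound N (Kc H' T N) (hh δ) w hh0 hw s (by linarith)
    have hre : (1 - (s - hh δ)).re = 1 - s.re := by
      rw [sub_re, one_re, sub_re, hh0, sub_zero]
    have aa : ∀ M : ℕ, (M : ℝ) ≤ T → ‖AA M (1 - (s - hh δ))‖ ≤ T ^ (5 / 2 : ℝ) := by
      intro M hM
      refine (AA_bound M _).trans ?_
      rw [hre]
      have hm : 0 ≤ max 0 (-(1 - s.re)) := le_max_left _ _
      have hm2 : max 0 (-(1 - s.re)) ≤ 3 / 2 := max_le (by norm_num) (by linarith)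
      calc (M : ℝ) ^ (1 + max 0 (-(1 - s.re))) ≤ T ^ (1 + max 0 (-(1 - s.re))) :=
            Real.rpow_le_rpow (by positivity) hM (by linarith)
        _ ≤ _ := Real.rpow_le_rpow_of_exponent_le (by linarith) (by linarith)
    have hJT : (Jc H' T N : ℝ) ≤ T := by
      have : (Jc H' T N : ℝ) ≤ N := by exact_mod_cast j1
      linarith
    have a2 : ‖B1 N (Jc H' T N) (hh δ) s‖ ≤ 2 * T ^ (5 / 2 : ℝ) := by
      unfold B1
      refine (norm_sub_le _ _).trans ?_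
      have := aa N hNT
      have := aa _ hJT
      linarith
    have a3 : 4 * (Kc H' T N : ℝ) ^ 2 ≤ T ^ (3 : ℝ) := by
      have h1 : (Kc H' T N : ℝ) ^ 2 ≤ (2 * T) ^ 2 := pow_le_pow_left₀ (by positivity) (by linarith) 2
      have h2 : T ^ (3 : ℝ) = T ^ 3 := by norm_cast
      rw [h2]
      nlinarith [sq_nonneg T]
    simp only [hQh]
    rw [norm_mul]
    calc _ ≤ T ^ (3 : ℝ) * (2 * T ^ (5 / 2 : ℝ)) :=
          mul_le_mul (a1.trans a3) a2 (norm_nonneg _) (by positivity)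
      _ ≤ T ^ (3 : ℝ) * (T ^ (1 : ℝ) * T ^ (5 / 2 : ℝ)) := by
          rw [Real.rpow_one]
          have : 2 * T ^ (5 / 2 : ℝ) ≤ T * T ^ (5 / 2 : ℝ) :=
            mul_le_mul_of_nonneg_right (by linarith) (by positivity)
          exact mul_le_mul_of_nonneg_left this (by positivity)
      _ = T ^ (3 + (1 + 5 / 2) : ℝ) := by
          rw [Real.rpow_add hTpos, Real.rpow_add hTpos]
      _ ≤ T ^ (10 : ℝ) := Real.rpow_le_rpow_of_exponent_le (by linarith) (by norm_num)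
  -- near part: shift to the critical line
  set Φ : ℂ → ℂ := fun s => phi t0 D s * rr δ s * Qh s with hΦ
  have hrect := rect_zero Φ (1 / 2) (5 / 2) U1 U2 (by norm_num) (by linarith) (by
    intro s hs
    rw [mem_reProdIm] at hs
    exact ((phi_analytic _ _ s).mul (rr_analytic _ hδa s (by linarith [hs.2.1]))).mul
      (hQd.analyticAt s))
  have hhor : ∀ U : ℝ, W ≤ U → U ≤ W + H' → (U ≤ W + 20 ∨ W + H' - 20 ≤ U) →
      ‖∫ y in (1 / 2 : ℝ)..(5 / 2), Φ (⟨y, U⟩ : ℂ)‖ ≤ 1 / 2 := by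
    intro U hUa hUb hUc
    have hb : ∀ y ∈ Set.uIoc (1 / 2 : ℝ) (5 / 2), ‖Φ (⟨y, U⟩ : ℂ)‖ ≤ 1 / 4 := by
      intro y hy
      rw [uIoc_of_le (by norm_num)] at hy
      obtain ⟨hy1, hy2⟩ := hy
      have b1 := phi_tiny (W := W) hA (⟨y, U⟩ : ℂ) (by
        simp only
        rw [abs_of_nonneg (by linarith)]
        linarith) hUc
      have b2 := hrr c H' T hc hc1 hA (⟨y, U⟩ : ℂ) (by simp only; linarith) (by simp only; linarith)
        (by
          simp only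
          rw [abs_of_nonneg (by linarith)]
          linarith)
      have b3 := hQb (⟨y, U⟩ : ℂ) hy1.le hy2
      simp only [hΦ]
      rw [norm_mul, norm_mul]
      calc _ ≤ Real.exp (-(1 / 40) * Real.log T ^ 4) * C * T ^ (10 : ℝ) := by
            apply mul_le_mul _ b3 (norm_nonneg _) (by positivity)
            exact mul_le_mul b1 b2 (norm_nonneg _) (by positivity)
        _ = C * (T ^ (10 : ℝ) * Real.exp (-(1 / 40) * Real.log T ^ 4)) := by ring
        _ ≤ C * (1 / (4 * C)) := mul_le_mul_of_nonneg_left e1 (by linarith)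
        _ = 1 / 4 := by field_simp
    refine (intervalIntegral.norm_integral_le_of_norm_le_const hb).trans ?_
    norm_num
  have hbot := hhor U1 hU1 (by linarith) (Or.inl hU1')
  have htop := hhor U2 (by linarith) hU2' (Or.inr hU2)
  -- the critical line
  have hline : ‖∫ t in U1..U2, Φ (⟨1 / 2, t⟩ : ℂ)‖ ≤ 2 * C * D := by
    set g : ℝ → ℝ := fun t => Real.exp (-(t - t0) ^ 2 / (2 * D ^ 2)) with hg
    have hgc : Continuous g := by rw [hg]; fun_prop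
    have hQc : Continuous fun t : ℝ => QS H' T N (hh δ) w t := by
      unfold QS
      apply continuous_finsetSum
      intro p _
      fun_prop
    have hpt : ∀ t ∈ Ioc U1 U2, ‖Φ (⟨1 / 2, t⟩ : ℂ)‖ ≤
        C * ((g t + g t * ‖QS H' T N (hh δ) w t‖ ^ 2) / 2) := by
      intro t ht
      have b1 : ‖phi t0 D (⟨1 / 2, t⟩ : ℂ)‖ = g t := by
        rw [MNaux.phi_line, Complex.norm_real, Real.norm_of_nonneg (Real.exp_pos _).le]
      have b2 := hrr c H' T hc hc1 hA (⟨1 / 2, t⟩ : ℂ) (by simp only; linarith [ht.1])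
        (by simp only; linarith [ht.2]) (by
          simp only
          rw [abs_of_nonneg (by norm_num)]
          linarith)
      have b3 : Qh (⟨1 / 2, t⟩ : ℂ) = QS H' T N (hh δ) w t := QS_eq hA N hN1 (hh δ) w t
      simp only [hΦ]
      rw [norm_mul, norm_mul, b1, b3]
      have g0 : 0 < g t := Real.exp_pos _
      set q := ‖QS H' T N (hh δ) w t‖ with hq
      have q0 : 0 ≤ q := norm_nonneg _
      have k1 : q ≤ (1 + q ^ 2) / 2 := by nlinarith [sq_nonneg (1 - q)]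
      calc g t * ‖rr δ (⟨1 / 2, t⟩ : ℂ)‖ * q ≤ g t * C * ((1 + q ^ 2) / 2) := by gcongr
        _ = _ := by ring
    have hmaj : Continuous fun t : ℝ => C * ((g t + g t * ‖QS H' T N (hh δ) w t‖ ^ 2) / 2) := by
      fun_prop
    refine (intervalIntegral.norm_integral_le_of_norm_le h12 (ae_of_all _ hpt)
      (hmaj.intervalIntegrable _ _)).trans ?_
    have hadd : (∫ t in U1..U2, (g t + g t * ‖QS H' T N (hh δ) w t‖ ^ 2)) =
        (∫ t in U1..U2, g t) + ∫ t in U1..U2, g t * ‖QS H' T N (hh δ) w t‖ ^ 2 :=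
      intervalIntegral.integral_add (hgc.intervalIntegrable _ _)
        ((hgc.mul (hQc.norm.pow 2)).intervalIntegrable _ _)
    rw [intervalIntegral.integral_const_mul, intervalIntegral.integral_div, hadd]
    have i1 : ∫ t in U1..U2, g t ≤ 3 * D := by
      rw [intervalIntegral.integral_of_le h12]
      refine (setIntegral_le_integral (gauss_integrable D t0 hDpos)
        (ae_of_all _ fun t => (Real.exp_pos _).le)).trans ?_
      rw [gauss_integral D t0 hDpos]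
      have hs : Real.sqrt (2 * Real.pi) ≤ 3 := by
        rw [Real.sqrt_le_left (by norm_num)]
        have := Real.pi_lt_d2
        norm_num at this ⊢
        linarith
      nlinarith
    have i2 : ∫ t in U1..U2, g t * ‖QS H' T N (hh δ) w t‖ ^ 2 ≤ D := by
      refine le_trans ?_ hG2
      apply intervalIntegral.integral_mono_interval (by linarith) h12 (by linarith)
      · exact ae_of_all _ fun t => by
          have : 0 < g t := Real.exp_pos _
          simp only [Pi.zero_apply]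
          positivity
      · exact (hgc.mul (hQc.norm.pow 2)).intervalIntegrable _ _
    have : (∫ t in U1..U2, g t) + ∫ t in U1..U2, g t * ‖QS H' T N (hh δ) w t‖ ^ 2 ≤ 4 * D := by
      linarith
    nlinarith
  -- assemble
  have hnear : ‖∫ t in U1..U2, Φ (⟨5 / 2, t⟩ : ℂ)‖ ≤ 2 * C * D + 1 := by
    unfold rectI at hrect
    have hleft : I * (∫ t in U1..U2, Φ (⟨5 / 2, t⟩ : ℂ)) =
        (∫ y in (1 / 2 : ℝ)..(5 / 2), Φ (⟨y, U2⟩ : ℂ)) -
        (∫ y in (1 / 2 : ℝ)..(5 / 2), Φ (⟨y, U1⟩ : ℂ)) +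
        I * (∫ t in U1..U2, Φ (⟨1 / 2, t⟩ : ℂ)) := by
      linear_combination hrect
    have hn : ‖I * (∫ t in U1..U2, Φ (⟨5 / 2, t⟩ : ℂ))‖ = ‖∫ t in U1..U2, Φ (⟨5 / 2, t⟩ : ℂ)‖ := by
      rw [norm_mul, norm_I, one_mul]
    rw [← hn, hleft]
    refine (norm_add_le _ _).trans ?_
    have hn2 : ‖I * (∫ t in U1..U2, Φ (⟨1 / 2, t⟩ : ℂ))‖ = ‖∫ t in U1..U2, Φ (⟨1 / 2, t⟩ : ℂ)‖ := by
      rw [norm_mul, norm_I, one_mul]
    rw [hn2]
    have := norm_sub_le (∫ y in (1 / 2 : ℝ)..(5 / 2), Φ (⟨y, U2⟩ : ℂ))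
      (∫ y in (1 / 2 : ℝ)..(5 / 2), Φ (⟨y, U1⟩ : ℂ))
    linarith
  -- integrability
  have cphi : ∀ t : ℝ, ContinuousAt (fun t : ℝ => phi t0 D (⟨5 / 2, t⟩ : ℂ)) t :=
    fun t => ((phi_cont _ _).comp line_cont).continuousAt
  have crr : ∀ t, U1 ≤ t → ContinuousAt (fun t : ℝ => rr δ (⟨5 / 2, t⟩ : ℂ)) t := fun t ht =>
    line_contAt (rr_analytic δ hδa _ (by show 1 ≤ t; linarith)).continuousAt
  have cFF : ∀ t : ℝ, ContinuousAt (fun t : ℝ => FF δ N w (⟨5 / 2, t⟩ : ℂ)) t := fun t =>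
    line_contAt (FF_diff δ N w _ hw (by norm_num)).continuousAt
  have cQ : ∀ t : ℝ, ContinuousAt (fun t : ℝ => Qh (⟨5 / 2, t⟩ : ℂ)) t := fun t =>
    line_contAt (hQd _).continuousAt
  have hsplit : (∫ t in U1..U2, phi t0 D (⟨5 / 2, t⟩ : ℂ) * rr δ (⟨5 / 2, t⟩ : ℂ) *
      FF δ N w (⟨5 / 2, t⟩ : ℂ)) =
      (∫ t in U1..U2, phi t0 D (⟨5 / 2, t⟩ : ℂ) * rr δ (⟨5 / 2, t⟩ : ℂ) *
        (FF δ N w (⟨5 / 2, t⟩ : ℂ) - Qh (⟨5 / 2, t⟩ : ℂ))) +
      ∫ t in U1..U2, Φ (⟨5 / 2, t⟩ : ℂ) := by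
    rw [← intervalIntegral.integral_add]
    · apply intervalIntegral.integral_congr
      intro t _
      simp only [hΦ]
      ring
    · apply int_of_contAt h12
      intro t ht1 ht2
      exact ((cphi t).mul (crr t ht1)).mul ((cFF t).sub (cQ t))
    · apply int_of_contAt h12
      intro t ht1 ht2
      exact ((cphi t).mul (crr t ht1)).mul (cQ t)
  rw [hsplit]
  refine (norm_add_le _ _).trans ?_
  have : (1 : ℝ) ≤ D := by linarith
  calc _ ≤ 1 + (2 * C * D + 1) := add_le_add hfar hnear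
    _ ≤ (2 * C + 2) * D := by linarith

end Pool.Agent.W192.AW
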